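import Mathlib

/-!
Levi-Civita connections in a chart and the Gauss equation for an immersion into a flat space
with a symmetric bilinear form.
-/

namespace Pool.Agent.X181

open scoped ContDiff

variable {E F : Type*} [NormedAddCommGroup E] [NormedSpace ℝ E]
  [NormedAddCommGroup F] [NormedSpace ℝ F]

/-- `Γ` is the Levi-Civita connection of the metric `g` on the open set `U` of the vector
space `E`: `Γ x u v` is the covariant derivative at `x` of the constant vector field `v` in the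
direction `u`; it is smooth, torsion free and metric. -/
structure IsLeviCivita (U : Set E) (g : E → E → E → ℝ) (Γ : E → E →L[ℝ] E →L[ℝ] E) : Prop where
  smooth : ContDiffOn ℝ ∞ Γ U
  symm : ∀ x ∈ U, ∀ u v, Γ x u v = Γ x v u
  metric : ∀ x ∈ U, ∀ t u v,
    fderiv ℝ (fun y => g y u v) x t = g x (Γ x t u) v + g x u (Γ x t v)

/-- The curvature tensor `R(u,v)w = ∇_u ∇_v w - ∇_v ∇_u w - ∇_{[u,v]} w` of a connection,
evaluated on constant vector fields `u, v, w`. -/
noncomputable def Riem (Γ : E → E →L[ℝ] E →L[ℝ] E) (x u v w : E) : E :=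
  fderiv ℝ Γ x u v w - fderiv ℝ Γ x v u w + Γ x u (Γ x v w) - Γ x v (Γ x u w)

lemma hasFDerivAt_apply1 {G : E → E →L[ℝ] F} {x : E} {G' : E →L[ℝ] E →L[ℝ] F}
    (h : HasFDerivAt G G' x) (u : E) :
    HasFDerivAt (fun y => G y u) ((ContinuousLinearMap.apply ℝ F u).comp G') x :=
  (ContinuousLinearMap.apply ℝ F u).hasFDerivAt.comp x h

lemma hasFDerivAt_apply2 {G : E → E →L[ℝ] E →L[ℝ] F} {x : E}
    {G' : E →L[ℝ] E →L[ℝ] E →L[ℝ] F} (h : HasFDerivAt G G' x) (u v : E) :
    HasFDerivAt (fun y => G y u v) ((ContinuousLinearMap.apply ℝ F v).comp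
      ((ContinuousLinearMap.apply ℝ (E →L[ℝ] F) u).comp G')) x := by
  have h1 : HasFDerivAt (fun y => G y u)
      ((ContinuousLinearMap.apply ℝ (E →L[ℝ] F) u).comp G') x :=
    hasFDerivAt_apply1 (F := E →L[ℝ] F) h u
  exact (ContinuousLinearMap.apply ℝ F v).hasFDerivAt.comp x h1

section Gauss

variable {U : Set E} (hU : IsOpen U) {f : E → F} (hf : ContDiffOn ℝ ∞ f U)
  (B : F →L[ℝ] F →L[ℝ] ℝ) (hB : ∀ X Y, B X Y = B Y X)
  {Γ : E → E →L[ℝ] E →L[ℝ] E}
  (hΓ : IsLeviCivita U (fun x u v => B (fderiv ℝ f x u) (fderiv ℝ f x v)) Γ)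

include hU hf in
lemma df_smooth : ContDiffOn ℝ ∞ (fderiv ℝ f) U :=
  hf.fderiv_of_isOpen hU (by simp)

include hU hf in
lemma ddf_smooth : ContDiffOn ℝ ∞ (fderiv ℝ (fderiv ℝ f)) U :=
  (df_smooth hU hf).fderiv_of_isOpen hU (by simp)

include hU hf in
lemma df_hasFDerivAt {x : E} (hx : x ∈ U) :
    HasFDerivAt (fderiv ℝ f) (fderiv ℝ (fderiv ℝ f) x) x :=
  (((df_smooth hU hf).contDiffAt (hU.mem_nhds hx)).differentiableAt (by simp)).hasFDerivAt

include hU hf in
lemma ddf_hasFDerivAt {x : E} (hx : x ∈ U) :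
    HasFDerivAt (fderiv ℝ (fderiv ℝ f)) (fderiv ℝ (fderiv ℝ (fderiv ℝ f)) x) x :=
  (((ddf_smooth hU hf).contDiffAt (hU.mem_nhds hx)).differentiableAt (by simp)).hasFDerivAt

include hU hf in
lemma ddf_symm {x : E} (hx : x ∈ U) (u v : E) :
    fderiv ℝ (fderiv ℝ f) x u v = fderiv ℝ (fderiv ℝ f) x v u :=
  ((hf.contDiffAt (hU.mem_nhds hx)).isSymmSndFDerivAt (by
    rw [minSmoothness_of_isRCLikeNormedField]; exact WithTop.coe_le_coe.2 le_top)) u v

include hU hf in
lemma dddf_symm {x : E} (hx : x ∈ U) (u v w : E) :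
    fderiv ℝ (fderiv ℝ (fderiv ℝ f)) x u v w = fderiv ℝ (fderiv ℝ (fderiv ℝ f)) x v u w := by
  rw [ddf_symm hU (df_smooth hU hf) hx u v]

include hU hf hB hΓ in
lemma gauss_K1 {x : E} (hx : x ∈ U) (u v w : E) :
    B (fderiv ℝ f x (Γ x u v)) (fderiv ℝ f x w)
      = B (fderiv ℝ (fderiv ℝ f) x u v) (fderiv ℝ f x w) := by
  have hd := df_hasFDerivAt hU hf hx
  have hm : ∀ t u v : E,
      fderiv ℝ (fun y => B (fderiv ℝ f y u) (fderiv ℝ f y v)) x t
        = B (fderiv ℝ (fderiv ℝ f) x t u) (fderiv ℝ f x v)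
          + B (fderiv ℝ f x u) (fderiv ℝ (fderiv ℝ f) x t v) := by
    intro t u v
    have h1 : HasFDerivAt (fun y => fderiv ℝ f y u)
        ((ContinuousLinearMap.apply ℝ F u).comp (fderiv ℝ (fderiv ℝ f) x)) x :=
      (ContinuousLinearMap.apply ℝ F u).hasFDerivAt.comp x hd
    have h2 : HasFDerivAt (fun y => fderiv ℝ f y v)
        ((ContinuousLinearMap.apply ℝ F v).comp (fderiv ℝ (fderiv ℝ f) x)) x :=
      (ContinuousLinearMap.apply ℝ F v).hasFDerivAt.comp x hd
    have h3 := (B.hasFDerivAt_of_bilinear h1 h2).fderiv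
    rw [h3]
    simp [ContinuousLinearMap.precompR_apply, ContinuousLinearMap.precompL_apply]
    ring
  have key : ∀ t u v : E,
      B (fderiv ℝ f x (Γ x t u) - fderiv ℝ (fderiv ℝ f) x t u) (fderiv ℝ f x v)
       + B (fderiv ℝ f x (Γ x t v) - fderiv ℝ (fderiv ℝ f) x t v) (fderiv ℝ f x u) = 0 := by
    intro t u v
    have h1 := hm t u v
    have h2 := hΓ.metric x hx t u v
    rw [h2] at h1
    rw [map_sub, map_sub, sub_apply, sub_apply,
      hB (fderiv ℝ f x (Γ x t v)), hB (fderiv ℝ (fderiv ℝ f) x t v)]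
    linarith
  have sym : ∀ t u v : E,
      B (fderiv ℝ f x (Γ x t u) - fderiv ℝ (fderiv ℝ f) x t u) (fderiv ℝ f x v)
       = B (fderiv ℝ f x (Γ x u t) - fderiv ℝ (fderiv ℝ f) x u t) (fderiv ℝ f x v) := by
    intro t u v
    rw [hΓ.symm x hx t u, ddf_symm hU hf hx t u]
  have e1 := key u v w
  have e2 := key v w u
  have e3 := key w u v
  have s1 := sym u v w
  have s2 := sym v w u
  have s3 := sym w u v
  have fin : B (fderiv ℝ f x (Γ x u v) - fderiv ℝ (fderiv ℝ f) x u v) (fderiv ℝ f x w) = 0 := by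
    linarith
  rw [map_sub, sub_apply] at fin
  linarith

include hU hf hB hΓ in
/-- The Gauss equation. -/
lemma gauss_eq {x : E} (hx : x ∈ U) (t u v w : E) :
    B (fderiv ℝ f x (Riem Γ x t u v)) (fderiv ℝ f x w)
      = B (fderiv ℝ (fderiv ℝ f) x u v - fderiv ℝ f x (Γ x u v))
          (fderiv ℝ (fderiv ℝ f) x t w - fderiv ℝ f x (Γ x t w))
        - B (fderiv ℝ (fderiv ℝ f) x t v - fderiv ℝ f x (Γ x t v))
          (fderiv ℝ (fderiv ℝ f) x u w - fderiv ℝ f x (Γ x u w)) := by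
  have hd := df_hasFDerivAt hU hf hx
  have hdd := ddf_hasFDerivAt hU hf hx
  have hG : HasFDerivAt Γ (fderiv ℝ Γ x) x :=
    ((hΓ.smooth.contDiffAt (hU.mem_nhds hx)).differentiableAt (by simp)).hasFDerivAt
  -- differentiate K1
  have main : ∀ t u : E,
      B (fderiv ℝ f x (fderiv ℝ Γ x t u v + Γ x t (Γ x u v))) (fderiv ℝ f x w)
      = B (fderiv ℝ (fderiv ℝ (fderiv ℝ f)) x t u v) (fderiv ℝ f x w)
        + B (fderiv ℝ (fderiv ℝ f) x u v - fderiv ℝ f x (Γ x u v))
            (fderiv ℝ (fderiv ℝ f) x t w) := by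
    intro t u
    have hw := hasFDerivAt_apply1 hd w
    have hGuv := hasFDerivAt_apply2 hG u v
    have h1 := hd.clm_apply hGuv
    have hH := hasFDerivAt_apply2 hdd u v
    have hL := B.hasFDerivAt_of_bilinear h1 hw
    have hR := B.hasFDerivAt_of_bilinear hH hw
    have hEq : (fun y => B (fderiv ℝ f y (Γ y u v)) (fderiv ℝ f y w))
        =ᶠ[nhds x] (fun y => B (fderiv ℝ (fderiv ℝ f) y u v) (fderiv ℝ f y w)) := by
      filter_upwards [hU.mem_nhds hx] with y hy
      exact gauss_K1 hU hf B hB hΓ hy u v w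
    have hE := (hL.unique (hR.congr_of_eventuallyEq hEq))
    have hE' := congrArg (fun T : E →L[ℝ] ℝ => T t) hE
    simp [ContinuousLinearMap.precompR_apply, ContinuousLinearMap.precompL_apply] at hE'
    have k1 := gauss_K1 hU hf B hB hΓ hx t (Γ x u v) w
    simp only [map_add, add_apply, map_sub, sub_apply]
    linarith
  have m1 := main t u
  have m2 := main u t
  have o : ∀ a b c : E, B (fderiv ℝ (fderiv ℝ f) x a b - fderiv ℝ f x (Γ x a b))
      (fderiv ℝ f x c) = 0 := by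
    intro a b c
    have := gauss_K1 hU hf B hB hΓ hx a b c
    rw [map_sub, sub_apply]
    linarith
  have s1 := dddf_symm hU hf hx t u v
  rw [map_sub (B _), map_sub (B _), o, o]
  have hR : fderiv ℝ f x (Riem Γ x t u v)
      = fderiv ℝ f x (fderiv ℝ Γ x t u v + Γ x t (Γ x u v))
        - fderiv ℝ f x (fderiv ℝ Γ x u t v + Γ x u (Γ x t v)) := by
    rw [← map_sub]; congr 1; simp only [Riem]; abel
  rw [hR, map_sub B, sub_apply, m1, m2, s1]
  ring

end Gauss

end Pool.Agent.X181
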