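import Mathlib
import Pool.Agent.X181.Gauss

/-!
The complex two-plane Grassmannian and its non-compact dual as spaces of projectors.
-/

namespace Pool.Agent.X181

open Matrix

/-- Complex square matrices of size `m + 2`. -/
abbrev Mat (m : ℕ) := Matrix (Fin 2 ⊕ Fin m) (Fin 2 ⊕ Fin m) ℂ

/-- Column vectors. -/
abbrev Col (m : ℕ) := Matrix (Fin 2 ⊕ Fin m) Unit ℂ

/-- The Hermitian form `diag(s, s, 1, ..., 1)` on `ℂ^(m+2)`. -/
def formI (m : ℕ) (s : ℝ) : Mat m :=
  Matrix.diagonal (Sum.elim (fun _ => (s : ℂ)) (fun _ => 1))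

/-- The space of projectors `P` of rank two, self-adjoint for the Hermitian form
`diag(s, s, 1, ..., 1)`, on the range of which `s` times the form is positive definite
(the form is then positive definite on the kernel). For `s = 1` this is the Grassmannian
`G₂(ℂ^(m+2))` of complex two-planes; for `s = -1` it is the space of negative definite
two-planes of `ℂ^(2,m)`, i.e. `SU(2,m)/S(U(2) × U(m))`. -/
structure IsGr {m : ℕ} (s : ℝ) (P : Mat m) : Prop where
  idem : P * P = P
  adj : Pᴴ * formI m s = formI m s * P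
  tr : P.trace = 2
  pos_range : ∀ v : Fin 2 ⊕ Fin m → ℂ, P *ᵥ v = v → v ≠ 0 →
    0 < s * (star v ⬝ᵥ (formI m s *ᵥ v)).re
  pos_ker : ∀ v : Fin 2 ⊕ Fin m → ℂ, P *ᵥ v = 0 → v ≠ 0 →
    0 < (star v ⬝ᵥ (formI m s *ᵥ v)).re

/-- The tangent space of the space of projectors at `P`. -/
structure IsTan {m : ℕ} (s : ℝ) (P X : Mat m) : Prop where
  off : X * P + P * X = X
  adj : Xᴴ * formI m s = formI m s * X

/-- The (symmetric) Riemannian metric `(s/2) Re tr(XY)`. -/
noncomputable def met {m : ℕ} (s : ℝ) (X Y : Mat m) : ℝ := s / 2 * ((X * Y).trace).re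

/-- The Kähler structure `J X = i (X P - P X)` of the tangent space at `P`. -/
noncomputable def Jop {m : ℕ} (P X : Mat m) : Mat m := Complex.I • (X * P - P * X)

/-- `Q` is skew-adjoint and trace free on the plane `im P` (and zero on the kernel of `P`). -/
structure IsSu {m : ℕ} (s : ℝ) (P Q : Mat m) : Prop where
  left : P * Q = Q
  right : Q * P = Q
  skew : Qᴴ * formI m s = - (formI m s * Q)
  tr : Q.trace = 0

section core

variable {m : ℕ} {s : ℝ} (hs : s = 1 ∨ s = -1)

include hs in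
lemma s_sq : s * s = 1 := by rcases hs with h | h <;> simp [h]

include hs in
lemma s_sqC : (s : ℂ) * s = 1 := by exact_mod_cast s_sq hs

include hs in
lemma formI_sq : formI m s * formI m s = 1 := by
  rw [formI, Matrix.diagonal_mul_diagonal, ← Matrix.diagonal_one]
  congr 1
  funext i
  rcases i with i | i <;> simp [s_sqC hs]

lemma formI_herm : (formI m s)ᴴ = formI m s := by
  rw [formI, Matrix.diagonal_conjTranspose]
  congr 1
  funext i
  rcases i with i | i <;> simp

/-- the squared norm of a column -/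
noncomputable def nsq (s : ℝ) (a : Col m) : ℝ :=
  (star (fun i => a i ()) ⬝ᵥ (formI m s *ᵥ (fun i => a i ()))).re

lemma colT (s : ℝ) (a : Col m) :
    ((aᴴ * formI m s * a) () ()) = star (fun i => a i ()) ⬝ᵥ (formI m s *ᵥ (fun i => a i ())) := by
  rw [Matrix.mul_assoc, Matrix.mul_apply]
  simp only [dotProduct, Matrix.conjTranspose_apply, Pi.star_apply]
  rfl

lemma nsq_real (s : ℝ) (a : Col m) : aᴴ * formI m s * a = ((nsq s a : ℝ) : ℂ) • (1 : Matrix Unit Unit ℂ) := by
  ext i j
  have h : (aᴴ * formI m s * a)ᴴ = aᴴ * formI m s * a := by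
    rw [Matrix.conjTranspose_mul, Matrix.conjTranspose_mul, Matrix.conjTranspose_conjTranspose,
      formI_herm, Matrix.mul_assoc]
  have h2 := congrFun (congrFun h ()) ()
  rw [Matrix.conjTranspose_apply] at h2
  have h3 : (((aᴴ * formI m s * a) () ()).re : ℂ) = (aᴴ * formI m s * a) () () :=
    Complex.conj_eq_iff_re.1 h2
  obtain rfl : i = () := rfl
  obtain rfl : j = () := rfl
  rw [← h3]
  simp [nsq, ← colT]

lemma col_ne_zero {a : Col m} (h : a ≠ 0) : (fun i => a i ()) ≠ 0 := by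
  intro h0
  apply h
  ext i j
  exact congrFun h0 i

lemma mul_col (P : Mat m) (a : Col m) : (fun i => (P * a) i ()) = P *ᵥ (fun i => a i ()) := by
  funext i
  simp [Matrix.mul_apply, Matrix.mulVec, dotProduct]

lemma IsGr.nsq_range {P : Mat m} (hP : IsGr s P) {a : Col m} (h : P * a = a) (h0 : a ≠ 0) :
    0 < s * nsq s a := by
  apply hP.pos_range _ _ (col_ne_zero h0)
  rw [← mul_col, h]

lemma IsGr.nsq_ker {P : Mat m} (hP : IsGr s P) {a : Col m} (h : P * a = 0) (h0 : a ≠ 0) :
    0 < nsq s a := by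
  apply hP.pos_ker _ _ (col_ne_zero h0)
  rw [← mul_col, h]
  rfl

/-- self-adjoint projectors with `s`-positive range -/
structure IsPr (s : ℝ) (P : Mat m) : Prop where
  idem : P * P = P
  adj : Pᴴ * formI m s = formI m s * P
  pos : ∀ a : Col m, P * a = a → a ≠ 0 → 0 < s * nsq s a

lemma IsGr.isPr {P : Mat m} (hP : IsGr s P) : IsPr s P :=
  ⟨hP.idem, hP.adj, fun _ h h0 => hP.nsq_range h h0⟩

include hs in
lemma IsPr.exists_unit {P : Mat m} (hP : IsPr s P) (h0 : P ≠ 0) :
    ∃ a : Col m, P * a = a ∧ aᴴ * formI m s * a = (s : ℂ) • (1 : Matrix Unit Unit ℂ) := by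
  obtain ⟨j, hj⟩ : ∃ j, P.submatrix id (fun _ : Unit => j) ≠ 0 := by
    by_contra hcon
    push Not at hcon
    apply h0
    ext i j
    have := congrFun (congrFun (hcon j) i) ()
    simpa using this
  set a0 : Col m := P.submatrix id (fun _ : Unit => j) with ha0
  have hPa : P * a0 = a0 := by
    have : P * a0 = (P * P).submatrix id (fun _ : Unit => j) := by
      rw [ha0]
      exact (Matrix.submatrix_mul_equiv P P id (Equiv.refl _) (fun _ : Unit => j))
    rw [this, hP.idem]
  have hpos := hP.pos a0 hPa hj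
  set c : ℝ := s * nsq s a0 with hc
  refine ⟨((Real.sqrt c)⁻¹ : ℂ) • a0, ?_, ?_⟩
  · rw [Matrix.mul_smul, hPa]
  · rw [Matrix.conjTranspose_smul, Matrix.smul_mul, Matrix.smul_mul, Matrix.mul_smul, nsq_real,
      smul_smul, smul_smul]
    congr 1
    have hn : nsq s a0 = s * c := by rw [hc, ← mul_assoc, s_sq hs, one_mul]
    rw [hn]
    have h1 : star ((Real.sqrt c)⁻¹ : ℂ) = (Real.sqrt c)⁻¹ := by
      rw [← Complex.ofReal_inv]; exact Complex.conj_ofReal _
    rw [h1]
    have h2 : ((Real.sqrt c : ℝ) : ℂ) * (Real.sqrt c : ℝ) = (c : ℝ) := by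
      rw [← Complex.ofReal_mul, Real.mul_self_sqrt hpos.le]
    have h3 : ((Real.sqrt c : ℝ) : ℂ) ≠ 0 := by
      rw [Ne, Complex.ofReal_eq_zero]
      exact (Real.sqrt_pos.2 hpos).ne'
    have h4 : (((Real.sqrt c)⁻¹ : ℝ) : ℂ) = ((Real.sqrt c : ℝ) : ℂ)⁻¹ := Complex.ofReal_inv _
    rw [h4]
    push_cast
    rw [← h2]
    field_simp

include hs in
lemma IsPr.sub {P : Mat m} (hP : IsPr s P) {a : Col m} (ha : P * a = a)
    (hn : aᴴ * formI m s * a = (s : ℂ) • (1 : Matrix Unit Unit ℂ)) :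
    IsPr s (P - (s : ℂ) • (a * (aᴴ * formI m s))) ∧
      (P - (s : ℂ) • (a * (aᴴ * formI m s))).trace = P.trace - 1 ∧
      P * (P - (s : ℂ) • (a * (aᴴ * formI m s))) = (P - (s : ℂ) • (a * (aᴴ * formI m s))) ∧
      (aᴴ * formI m s) * (P - (s : ℂ) • (a * (aᴴ * formI m s))) = 0 := by
  have hs2 := s_sqC hs
  have haP : aᴴ * formI m s * P = aᴴ * formI m s := by
    rw [Matrix.mul_assoc, ← hP.adj, ← Matrix.mul_assoc, ← Matrix.conjTranspose_mul, ha]
  set R : Mat m := a * (aᴴ * formI m s) with hR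
  have hPR : P * R = R := by rw [hR, ← Matrix.mul_assoc, ha]
  have hRP : R * P = R := by rw [hR, Matrix.mul_assoc, haP]
  have hRR : R * R = (s : ℂ) • R := by
    rw [hR, Matrix.mul_assoc, ← Matrix.mul_assoc (aᴴ * formI m s), hn, Matrix.smul_mul,
      Matrix.one_mul, Matrix.mul_smul]
  have hPQ : P * (P - (s : ℂ) • R) = (P - (s : ℂ) • R) := by
    rw [Matrix.mul_sub, hP.idem, Matrix.mul_smul, hPR]
  refine ⟨⟨?_, ?_, ?_⟩, ?_, hPQ, ?_⟩
  · rw [Matrix.sub_mul, Matrix.mul_sub, Matrix.mul_sub, hP.idem, Matrix.mul_smul, hPR,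
      Matrix.smul_mul, hRP, Matrix.smul_mul, Matrix.mul_smul, hRR, smul_smul, smul_smul]
    rw [hs2, one_mul]; abel
  · rw [Matrix.conjTranspose_sub, Matrix.conjTranspose_smul, Matrix.sub_mul, Matrix.mul_sub,
      hP.adj, Matrix.smul_mul, Matrix.mul_smul]
    congr 2
    · exact Complex.conj_ofReal s
    · rw [hR, Matrix.conjTranspose_mul, Matrix.conjTranspose_mul,
        Matrix.conjTranspose_conjTranspose, formI_herm]
      simp only [Matrix.mul_assoc]
  · intro b hb hb0
    apply hP.pos b _ hb0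
    rw [← hb, ← Matrix.mul_assoc, hPQ]
  · rw [Matrix.trace_sub, Matrix.trace_smul, hR, Matrix.trace_mul_comm, hn, Matrix.trace_smul]
    simp [hs2]
  · rw [Matrix.mul_sub, haP, Matrix.mul_smul, hR, ← Matrix.mul_assoc, hn, Matrix.smul_mul,
      Matrix.one_mul, smul_smul, hs2, one_smul, sub_self]

lemma IsPr.eq_zero {P : Mat m} (hP : IsPr s P) (h : P.trace = 0) : P = 0 := by
  have h1 : IsIdempotentElem (Matrix.toLin' P) := by
    unfold IsIdempotentElem
    rw [Module.End.mul_eq_comp, ← Matrix.toLin'_mul, hP.idem]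
  have h2 : LinearMap.trace ℂ _ (Matrix.toLin' P) = 0 := by
    rw [Matrix.trace_toLin'_eq, h]
  have h3 := (LinearMap.IsIdempotentElem.trace_eq_zero_iff h1).1 h2
  exact Matrix.toLin'.injective (by rw [h3, map_zero])

include hs in
/-- An orthonormal basis of the plane `im P`. -/
lemma IsGr.exists_frame {P : Mat m} (hP : IsGr s P) :
    ∃ A : Matrix (Fin 2 ⊕ Fin m) (Fin 2) ℂ,
      Aᴴ * formI m s * A = (s : ℂ) • (1 : Matrix (Fin 2) (Fin 2) ℂ) ∧
      P = (s : ℂ) • (A * (Aᴴ * formI m s)) := by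
  have hP1 := hP.isPr
  have h0 : P ≠ 0 := by
    intro h; have := hP.tr; rw [h] at this; simp at this
  obtain ⟨a, ha, hna⟩ := hP1.exists_unit hs h0
  obtain ⟨hQ, hQt, hPQ, haQ⟩ := hP1.sub hs ha hna
  set Q := P - (s : ℂ) • (a * (aᴴ * formI m s)) with hQdef
  have hQ0 : Q ≠ 0 := by
    intro h
    rw [h, hP.tr] at hQt
    norm_num at hQt
  obtain ⟨b, hb, hnb⟩ := hQ.exists_unit hs hQ0
  obtain ⟨hR, hRt, hQR, hbR⟩ := hQ.sub hs hb hnb
  have hR0 : (Q - (s : ℂ) • (b * (bᴴ * formI m s))) = 0 := by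
    apply hR.eq_zero
    rw [hRt, hQt, hP.tr]; norm_num
  have hab : aᴴ * formI m s * b = 0 := by
    rw [← hb, ← Matrix.mul_assoc, haQ, Matrix.zero_mul]
  have hba : bᴴ * formI m s * a = 0 := by
    have := congrArg Matrix.conjTranspose hab
    rw [Matrix.conjTranspose_mul, Matrix.conjTranspose_mul, Matrix.conjTranspose_conjTranspose,
      formI_herm, Matrix.conjTranspose_zero] at this
    rw [Matrix.mul_assoc]; exact this
  refine ⟨Matrix.of fun i j => if j = 0 then a i () else b i (), ?_, ?_⟩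
  · have hsum : ∀ (i j : Fin 2), ((Matrix.of fun i j => if j = 0 then a i () else b i () :
        Matrix (Fin 2 ⊕ Fin m) (Fin 2) ℂ)ᴴ * formI m s *
        (Matrix.of fun i j => if j = 0 then a i () else b i ())) i j
        = (((if i = 0 then a else b)ᴴ * formI m s * (if j = 0 then a else b)) () ()) := by
      intro i j
      simp only [Matrix.mul_apply, Matrix.conjTranspose_apply, Matrix.of_apply]
      fin_cases i <;> fin_cases j <;> simp
    ext i j
    rw [hsum]
    fin_cases i <;> fin_cases j <;> simp [hna, hnb, hab, hba]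
  · have hAA : (Matrix.of fun i j => if j = 0 then a i () else b i () :
        Matrix (Fin 2 ⊕ Fin m) (Fin 2) ℂ) * ((Matrix.of fun i j => if j = 0 then a i () else b i () :
        Matrix (Fin 2 ⊕ Fin m) (Fin 2) ℂ)ᴴ * formI m s)
        = a * (aᴴ * formI m s) + b * (bᴴ * formI m s) := by
      ext i j
      simp only [Matrix.mul_apply, Matrix.conjTranspose_apply, Matrix.of_apply, Matrix.add_apply,
        Fin.sum_univ_two]
      simp
    rw [hAA, smul_add]
    have h1 : P = Q + (s : ℂ) • (a * (aᴴ * formI m s)) := by rw [hQdef]; abel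
    have h2 := sub_eq_zero.1 hR0
    rw [h1, h2]
    abel

end core

end Pool.Agent.X181
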