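import Mathlib
import Pool.Agent.X181.Grass

/-!
The pointwise algebra.
-/

namespace Pool.Agent.X181

open Matrix

variable {m : ℕ} {s : ℝ}

/-- trace-free skew-Hermitian 2x2 matrices -/
noncomputable def lmat (x : Fin 3 → ℝ) : Matrix (Fin 2) (Fin 2) ℂ :=
  !![Complex.I * x 0, x 1 + Complex.I * x 2; -x 1 + Complex.I * x 2, -(Complex.I * x 0)]

lemma lmat_sq (x : Fin 3 → ℝ) :
    lmat x * lmat x = (-((x 0) ^ 2 + (x 1) ^ 2 + (x 2) ^ 2 : ℝ) : ℂ) • (1 : Matrix (Fin 2) (Fin 2) ℂ) := by
  have hI : Complex.I * Complex.I = -1 := Complex.I_mul_I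
  ext i j
  fin_cases i <;> fin_cases j <;> simp [lmat, Matrix.mul_apply, Fin.sum_univ_two] <;>
    ring_nf <;> simp [Complex.I_sq] <;> ring

lemma lmat_trace (x : Fin 3 → ℝ) : (lmat x).trace = 0 := by
  simp [lmat, Matrix.trace, Fin.sum_univ_two]

lemma lmat_skew (x : Fin 3 → ℝ) : (lmat x)ᴴ = - lmat x := by
  ext i j
  fin_cases i <;> fin_cases j <;> simp [lmat, Matrix.conjTranspose_apply] <;> ring

lemma lmat_add (x y : Fin 3 → ℝ) : lmat (x + y) = lmat x + lmat y := by
  ext i j
  fin_cases i <;> fin_cases j <;> simp [lmat] <;> ring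

lemma lmat_smul (r : ℝ) (x : Fin 3 → ℝ) : lmat (r • x) = r • lmat x := by
  ext i j
  fin_cases i <;> fin_cases j <;> simp [lmat] <;> ring

lemma two_by_two (d l : Matrix (Fin 2) (Fin 2) ℂ) (hl : l.trace = 0) :
    d * l + l * d = d.trace • l + (l * d).trace • (1 : Matrix (Fin 2) (Fin 2) ℂ) := by
  have h : l 1 1 = - l 0 0 := by
    have : l.trace = l 0 0 + l 1 1 := by simp [Matrix.trace, Fin.sum_univ_two]
    rw [this] at hl
    linear_combination hl
  ext i j
  fin_cases i <;> fin_cases j <;>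
    simp [Matrix.mul_apply, Matrix.trace, Fin.sum_univ_two, h] <;> ring

section frame

variable (hs : s = 1 ∨ s = -1) {P : Mat m} (hP : IsGr s P)
  {A : Matrix (Fin 2 ⊕ Fin m) (Fin 2) ℂ}
  (hA : Aᴴ * formI m s * A = (s : ℂ) • (1 : Matrix (Fin 2) (Fin 2) ℂ))
  (hPA : P = (s : ℂ) • (A * (Aᴴ * formI m s)))

/-- the endomorphism of `im P` with matrix `l` -/
noncomputable def lift (A : Matrix (Fin 2 ⊕ Fin m) (Fin 2) ℂ) (l : Matrix (Fin 2) (Fin 2) ℂ)
    (s : ℝ) : Mat m := A * l * (Aᴴ * formI m s)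

include hA in
lemma lift_mul (l k : Matrix (Fin 2) (Fin 2) ℂ) :
    lift A l s * lift A k s = (s : ℂ) • lift A (l * k) s := by
  unfold lift
  calc A * l * (Aᴴ * formI m s) * (A * k * (Aᴴ * formI m s))
      = A * l * (Aᴴ * formI m s * A) * k * (Aᴴ * formI m s) := by simp only [Matrix.mul_assoc]
    _ = _ := by
      rw [hA]
      simp only [Matrix.mul_smul, Matrix.smul_mul, Matrix.mul_one, Matrix.mul_assoc]

include hs hA hPA in
lemma P_mul_lift (l : Matrix (Fin 2) (Fin 2) ℂ) : P * lift A l s = lift A l s := by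
  have hP1 : P = (s : ℂ) • lift A 1 s := by rw [hPA]; simp [lift]
  rw [hP1, Matrix.smul_mul, lift_mul hA, Matrix.one_mul, smul_smul, s_sqC hs, one_smul]

include hs hA hPA in
lemma lift_mul_P (l : Matrix (Fin 2) (Fin 2) ℂ) : lift A l s * P = lift A l s := by
  have hP1 : P = (s : ℂ) • lift A 1 s := by rw [hPA]; simp [lift]
  rw [hP1, Matrix.mul_smul, lift_mul hA, Matrix.mul_one, smul_smul, s_sqC hs, one_smul]

include hA in
lemma lift_trace (l : Matrix (Fin 2) (Fin 2) ℂ) : (lift A l s).trace = (s : ℂ) * l.trace := by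
  unfold lift
  rw [Matrix.mul_assoc, Matrix.trace_mul_comm, Matrix.mul_assoc, hA, Matrix.mul_smul,
    Matrix.trace_smul, Matrix.mul_one, smul_eq_mul]

lemma lift_adj (l : Matrix (Fin 2) (Fin 2) ℂ) :
    (lift A l s)ᴴ * formI m s = formI m s * lift A lᴴ s := by
  unfold lift
  simp only [Matrix.conjTranspose_mul, Matrix.conjTranspose_conjTranspose, formI_herm,
    Matrix.mul_assoc]

include hs hPA in
lemma exists_lift {D : Mat m} (h1 : P * D = D) (h2 : D * P = D) :
    ∃ d, D = lift A d s := by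
  refine ⟨Aᴴ * formI m s * D * A, ?_⟩
  have : D = P * D * P := by rw [h1, h2]
  conv_lhs => rw [this, hPA]
  unfold lift
  simp only [Matrix.smul_mul, Matrix.mul_smul, smul_smul, s_sqC hs, one_smul, Matrix.mul_assoc]

include hs hA hPA in
lemma lift_anticomm {D : Mat m} (h1 : P * D = D) (h2 : D * P = D)
    {l : Matrix (Fin 2) (Fin 2) ℂ} (hl : l.trace = 0) :
    D * lift A l s + lift A l s * D = D.trace • lift A l s + (lift A l s * D).trace • P := by
  obtain ⟨d, rfl⟩ := exists_lift hs hPA h1 h2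
  rw [lift_mul hA, lift_mul hA, ← smul_add]
  have h3 : lift A (d * l) s + lift A (l * d) s = lift A (d * l + l * d) s := by
    unfold lift; rw [Matrix.mul_add, Matrix.add_mul]
  rw [h3, two_by_two d l hl, lift_trace hA, Matrix.trace_smul, lift_trace hA, hPA]
  unfold lift
  simp only [Matrix.mul_add, Matrix.add_mul, Matrix.mul_smul, Matrix.smul_mul, smul_add,
    smul_smul, Matrix.mul_one, smul_eq_mul]
  congr 2
  rw [← mul_assoc, s_sqC hs, one_mul]
  ring

end frame

section tangent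

variable (hs : s = 1 ∨ s = -1) {P : Mat m} (hP : IsGr s P)

lemma IsTan.PXP {P X : Mat m} (hP : IsGr s P) (hX : IsTan s P X) : P * X * P = 0 := by
  have h := congrArg (fun Y => P * Y) hX.off
  simp only [Matrix.mul_add, ← Matrix.mul_assoc, hP.idem] at h
  have := add_eq_right.1 h
  exact this

lemma IsTan.mulP_mul {P X : Mat m} (hP : IsGr s P) (hX : IsTan s P X) (Y : Mat m) :
    P * (X * (P * Y)) = 0 := by
  rw [← Matrix.mul_assoc, ← Matrix.mul_assoc, hX.PXP hP, Matrix.zero_mul]

lemma IsTan.sub {P X Y : Mat m} (hX : IsTan s P X) (hY : IsTan s P Y) : IsTan s P (X - Y) :=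
  ⟨by rw [Matrix.sub_mul, Matrix.mul_sub]; nth_rewrite 3 [← hX.off]; nth_rewrite 3 [← hY.off]; abel,
    by rw [Matrix.conjTranspose_sub, Matrix.sub_mul, Matrix.mul_sub, hX.adj, hY.adj]⟩

lemma IsTan.add {P X Y : Mat m} (hX : IsTan s P X) (hY : IsTan s P Y) : IsTan s P (X + Y) :=
  ⟨by rw [Matrix.add_mul, Matrix.mul_add]; nth_rewrite 3 [← hX.off]; nth_rewrite 3 [← hY.off]; abel,
    by rw [Matrix.conjTranspose_add, Matrix.add_mul, Matrix.mul_add, hX.adj, hY.adj]⟩

lemma IsTan.smul {P X : Mat m} (r : ℝ) (hX : IsTan s P X) : IsTan s P (r • X) :=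
  ⟨by rw [Matrix.smul_mul, Matrix.mul_smul, ← smul_add, hX.off],
    by rw [Matrix.conjTranspose_smul, Matrix.smul_mul, Matrix.mul_smul, hX.adj, star_trivial]⟩

lemma IsTan.neg {P X : Mat m} (hX : IsTan s P X) : IsTan s P (-X) := by
  have := hX.smul (-1); simpa using this

/-- `X Q - Q X` is tangent for `Q` skew-adjoint on `im P`. -/
lemma IsTan.comm {P X Q : Mat m} (hP : IsGr s P) (hX : IsTan s P X)
    (h1 : P * Q = Q) (h2 : Q * P = Q) (h3 : Qᴴ * formI m s = -(formI m s * Q)) :
    IsTan s P (X * Q - Q * X) := by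
  have hPX := hX.PXP hP
  have e1 : X * Q * P = X * Q := by rw [Matrix.mul_assoc, h2]
  have e2 : Q * X * P = 0 := by
    rw [← h2, Matrix.mul_assoc Q, Matrix.mul_assoc Q, hPX, Matrix.mul_zero]
  have e3 : P * (X * Q) = 0 := by
    rw [← h1, ← Matrix.mul_assoc, ← Matrix.mul_assoc, hPX, Matrix.zero_mul]
  have e4 : P * (Q * X) = Q * X := by rw [← Matrix.mul_assoc, h1]
  refine ⟨?_, ?_⟩
  · rw [Matrix.sub_mul, Matrix.mul_sub, e1, e2, e3, e4]; abel
  · rw [Matrix.conjTranspose_sub, Matrix.conjTranspose_mul, Matrix.conjTranspose_mul,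
      Matrix.sub_mul, Matrix.mul_assoc, Matrix.mul_assoc, hX.adj, h3, Matrix.mul_sub,
      ← Matrix.mul_assoc, h3]
    simp only [Matrix.mul_neg, Matrix.neg_mul]
    rw [← Matrix.mul_assoc Xᴴ, hX.adj]
    simp only [Matrix.mul_assoc]
    abel

end tangent

/-- the tangent vector `e a† + a e†` -/
noncomputable def rk (s : ℝ) (e a : Col m) : Mat m :=
  e * (aᴴ * formI m s) + a * (eᴴ * formI m s)

section rk

variable (hs : s = 1 ∨ s = -1) {P : Mat m} (hP : IsGr s P) {e : Col m} (he : P * e = 0)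

include hP he in
lemma rk_tan {a : Col m} (ha : P * a = a) : IsTan s P (rk s e a) := by
  have h1 : eᴴ * formI m s * P = 0 := by
    rw [Matrix.mul_assoc, ← hP.adj, ← Matrix.mul_assoc, ← Matrix.conjTranspose_mul, he,
      Matrix.conjTranspose_zero, Matrix.zero_mul]
  have h2 : aᴴ * formI m s * P = aᴴ * formI m s := by
    rw [Matrix.mul_assoc, ← hP.adj, ← Matrix.mul_assoc, ← Matrix.conjTranspose_mul, ha]
  refine ⟨?_, ?_⟩
  · unfold rk
    rw [Matrix.add_mul, Matrix.mul_add, Matrix.mul_assoc e, h2, Matrix.mul_assoc a, h1,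
      ← Matrix.mul_assoc P, he, ← Matrix.mul_assoc P, ha, Matrix.mul_zero, Matrix.zero_mul]
    abel
  · unfold rk
    simp only [Matrix.conjTranspose_add, Matrix.conjTranspose_mul, formI_herm,
      Matrix.conjTranspose_conjTranspose, Matrix.add_mul, Matrix.mul_add, Matrix.mul_assoc]
    abel

lemma tan_dagger {V : Mat m} (hV : IsTan s P V) (u : Col m) :
    uᴴ * formI m s * V = (V * u)ᴴ * formI m s := by
  rw [Matrix.mul_assoc, ← hV.adj, Matrix.conjTranspose_mul, Matrix.mul_assoc]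

lemma rk_orth {a : Col m} {V : Mat m} (hV : IsTan s P V) (hVe : V * e = 0) :
    met s (rk s e a) V = 0 := by
  unfold met rk
  rw [Matrix.add_mul, Matrix.trace_add, Matrix.mul_assoc e, tan_dagger hV, Matrix.mul_assoc a,
    tan_dagger hV, hVe, Matrix.trace_mul_comm, ← tan_dagger hV, Matrix.mul_assoc _ V, hVe]
  simp

lemma rk_S {b : Col m} {W : Mat m} (hW : IsTan s P W) (hWe : W * e = 0) :
    rk s e b * W + W * rk s e b = rk s e (W * b) := by
  unfold rk
  rw [Matrix.add_mul, Matrix.mul_add, Matrix.mul_assoc e, tan_dagger hW, Matrix.mul_assoc b,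
    tan_dagger hW, hWe, ← Matrix.mul_assoc W, hWe, Matrix.conjTranspose_zero]
  simp [Matrix.mul_assoc]

lemma met_rk {u v : Col m} (hee : eᴴ * formI m s * e = 1) (hu : uᴴ * formI m s * e = 0)
    (hv : eᴴ * formI m s * v = 0) :
    met s (rk s e u) (rk s e v) = s * ((uᴴ * formI m s * v).trace).re := by
  have h1 : rk s e u * rk s e v = e * (uᴴ * formI m s * v * (eᴴ * formI m s))
      + u * (vᴴ * formI m s) := by
    unfold rk
    rw [Matrix.add_mul, Matrix.mul_add, Matrix.mul_add]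
    have a1 : e * (uᴴ * formI m s) * (e * (vᴴ * formI m s)) = 0 := by
      calc _ = e * (uᴴ * formI m s * e) * (vᴴ * formI m s) := by simp only [Matrix.mul_assoc]
        _ = 0 := by rw [hu, Matrix.mul_zero, Matrix.zero_mul]
    have a2 : u * (eᴴ * formI m s) * (v * (eᴴ * formI m s)) = 0 := by
      calc _ = u * (eᴴ * formI m s * v) * (eᴴ * formI m s) := by simp only [Matrix.mul_assoc]
        _ = 0 := by rw [hv, Matrix.mul_zero, Matrix.zero_mul]
    have a3 : u * (eᴴ * formI m s) * (e * (vᴴ * formI m s)) = u * (vᴴ * formI m s) := by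
      calc _ = u * (eᴴ * formI m s * e) * (vᴴ * formI m s) := by simp only [Matrix.mul_assoc]
        _ = _ := by rw [hee, Matrix.mul_one]
    rw [a1, a2, a3, zero_add, add_zero]
    simp only [Matrix.mul_assoc]
  have h2 : ((u * (vᴴ * formI m s)).trace).re = ((uᴴ * formI m s * v).trace).re := by
    rw [Matrix.trace_mul_comm]
    have : (vᴴ * formI m s * u) = (uᴴ * formI m s * v)ᴴ := by
      simp only [Matrix.conjTranspose_mul, Matrix.conjTranspose_conjTranspose, formI_herm,
        Matrix.mul_assoc]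
    rw [this, Matrix.trace_conjTranspose]
    simp
  have h3 : (e * (uᴴ * formI m s * v * (eᴴ * formI m s))).trace = (uᴴ * formI m s * v).trace := by
    rw [Matrix.trace_mul_comm, Matrix.mul_assoc, hee, Matrix.mul_one]
  unfold met
  rw [h1, Matrix.trace_add, Complex.add_re, h2, h3]
  ring

end rk

lemma met_add_left (X Y Z : Mat m) : met s (X + Y) Z = met s X Z + met s Y Z := by
  unfold met; rw [Matrix.add_mul, Matrix.trace_add, Complex.add_re]; ring

lemma met_smul_left (r : ℝ) (X Z : Mat m) : met s (r • X) Z = r * met s X Z := by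
  unfold met; rw [Matrix.smul_mul, Matrix.trace_smul, Complex.smul_re, smul_eq_mul]; ring

lemma met_comm (X Y : Mat m) : met s X Y = met s Y X := by
  unfold met; rw [Matrix.trace_mul_comm]

section core

variable (hs : s = 1 ∨ s = -1) {P : Mat m}

lemma exists_e {A : Matrix (Fin 2 ⊕ Fin m) (Fin 2) ℂ}
    (hPA : P = (s : ℂ) • (A * (Aᴴ * formI m s))) (hm : 3 ≤ m) {N : Mat m} (hN : IsTan s P N)
    (hP : IsGr s P) :
    ∃ e : Col m, P * e = 0 ∧ N * e = 0 ∧ eᴴ * formI m s * e = 1 := by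
  set T : Col m →ₗ[ℂ] (Matrix (Fin 2) Unit ℂ × Matrix (Fin 2) Unit ℂ) :=
    { toFun := fun v => (Aᴴ * formI m s * v, Aᴴ * formI m s * (N * v))
      map_add' := fun v w => by simp [Matrix.mul_add]
      map_smul' := fun c v => by simp [Matrix.mul_smul] } with hT
  have hk : LinearMap.ker T ≠ ⊥ := by
    apply LinearMap.ker_ne_bot_of_finrank_lt
    rw [Module.finrank_prod, Module.finrank_matrix, Module.finrank_matrix]
    simp
    omega
  obtain ⟨v, hv, hv0⟩ := Submodule.exists_mem_ne_zero_of_ne_bot hk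
  rw [LinearMap.mem_ker] at hv
  have h1 : Aᴴ * formI m s * v = 0 := congrArg Prod.fst hv
  have h2 : Aᴴ * formI m s * (N * v) = 0 := congrArg Prod.snd hv
  have hPv : P * v = 0 := by
    rw [hPA, Matrix.smul_mul, Matrix.mul_assoc, h1, Matrix.mul_zero, smul_zero]
  have hNv : N * v = 0 := by
    have h3 : P * (N * v) = 0 := by
      rw [hPA, Matrix.smul_mul, Matrix.mul_assoc, h2, Matrix.mul_zero, smul_zero]
    have h4 := hN.off
    rw [← h4, Matrix.add_mul, Matrix.mul_assoc, hPv, Matrix.mul_assoc, h3, Matrix.mul_zero,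
      add_zero]
  have hpos := hP.nsq_ker hPv hv0
  set c := nsq s v with hc
  refine ⟨((Real.sqrt c)⁻¹ : ℂ) • v, ?_, ?_, ?_⟩
  · rw [Matrix.mul_smul, hPv, smul_zero]
  · rw [Matrix.mul_smul, hNv, smul_zero]
  · rw [Matrix.conjTranspose_smul, Matrix.smul_mul, Matrix.smul_mul, Matrix.mul_smul, nsq_real,
      smul_smul, smul_smul]
    rw [← hc]
    have h1 : star ((Real.sqrt c)⁻¹ : ℂ) = (Real.sqrt c)⁻¹ := by
      rw [← Complex.ofReal_inv]; exact Complex.conj_ofReal _
    rw [h1]
    have h2 : ((Real.sqrt c : ℝ) : ℂ) * (Real.sqrt c : ℝ) = (c : ℝ) := by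
      rw [← Complex.ofReal_mul, Real.mul_self_sqrt hpos.le]
    have h3 : ((Real.sqrt c : ℝ) : ℂ) ≠ 0 := by
      rw [Ne, Complex.ofReal_eq_zero]
      exact (Real.sqrt_pos.2 hpos).ne'
    have h4 : (((Real.sqrt c)⁻¹ : ℝ) : ℂ) = ((Real.sqrt c : ℝ) : ℂ)⁻¹ := Complex.ofReal_inv _
    rw [h4, ← h2]
    have : ((Real.sqrt c : ℝ) : ℂ)⁻¹ * ((Real.sqrt c : ℝ) : ℂ)⁻¹ *
        (((Real.sqrt c : ℝ) : ℂ) * (Real.sqrt c : ℝ)) = 1 := by
      field_simp
    rw [this, one_smul]

include hs in
theorem core (hm : 3 ≤ m) {P : Mat m} (hP : IsGr s P) {N W : Mat m} (hN : IsTan s P N)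
    (hW : IsTan s P W) (hWN : ∀ e : Col m, P * e = 0 → N * e = 0 → W * e = 0)
    (hWW : ((W * W).trace).re ≠ 0) :
    ∃ Z, IsTan s P Z ∧ met s Z N = 0 ∧ ∀ φ ψ : Mat m →ₗ[ℝ] ℝ, ∃ X Y : Mat m,
      IsTan s P X ∧ IsTan s P Y ∧
      (∀ V, IsTan s P V → (∀ e : Col m, P * e = 0 → N * e = 0 → V * e = 0) →
        met s X V = 0 ∧ met s Y V = 0) ∧
      φ X = 0 ∧ ψ X = 0 ∧
      met s (Y * W + W * Y) (X * Z + Z * X) - met s (X * W + W * X) (Y * Z + Z * Y) ≠ 0 := by
  obtain ⟨A, hA, hPA⟩ := hP.exists_frame hs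
  obtain ⟨e, hPe, hNe, hee⟩ := exists_e hPA hm hN hP
  have hWe := hWN e hPe hNe
  -- choice of `L`
  set T : (Fin 3 → ℝ) →ₗ[ℝ] (ℝ × ℝ) :=
    { toFun := fun x => (((lift A (lmat x) s * W * W).trace).im,
        met s (W * lift A (lmat x) s - lift A (lmat x) s * W) N)
      map_add' := fun x y => by
        have h : lift A (lmat (x + y)) s = lift A (lmat x) s + lift A (lmat y) s := by
          unfold lift; rw [lmat_add, Matrix.mul_add, Matrix.add_mul]
        rw [h]
        ext
        · simp only [Matrix.add_mul, Matrix.trace_add, Complex.add_im, Prod.fst_add]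
        · simp only [Prod.snd_add]
          rw [← met_add_left]
          congr 1
          simp only [Matrix.add_mul, Matrix.mul_add]; abel
      map_smul' := fun r x => by
        have h : lift A (lmat (r • x)) s = r • lift A (lmat x) s := by
          unfold lift; rw [lmat_smul, Matrix.mul_smul, Matrix.smul_mul]
        rw [h]
        ext
        · simp only [Matrix.smul_mul, Matrix.trace_smul, Complex.smul_im, Prod.smul_fst]
          rfl
        · simp only [Prod.smul_snd]
          rw [RingHom.id_apply, smul_eq_mul, ← met_smul_left]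
          congr 1
          simp only [Matrix.smul_mul, Matrix.mul_smul, smul_sub] } with hT
  have hk : LinearMap.ker T ≠ ⊥ := by
    apply LinearMap.ker_ne_bot_of_finrank_lt
    simp
  obtain ⟨x, hx, hx0⟩ := Submodule.exists_mem_ne_zero_of_ne_bot hk
  rw [LinearMap.mem_ker] at hx
  set L := lift A (lmat x) s with hL
  have hx1 : ((L * W * W).trace).im = 0 := congrArg Prod.fst hx
  have hx2 : met s (W * L - L * W) N = 0 := congrArg Prod.snd hx
  have hPL : P * L = L := P_mul_lift hs hA hPA _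
  have hLP : L * P = L := lift_mul_P hs hA hPA _
  have hLs : Lᴴ * formI m s = -(formI m s * L) := by
    rw [hL, lift_adj, lmat_skew]
    unfold lift
    simp
  have hLWW : (L * W * W).trace = 0 := by
    apply Complex.ext _ hx1
    have h1 : (L * W * W)ᴴ * formI m s = -(formI m s * (W * W * L)) := by
      simp only [Matrix.conjTranspose_mul, Matrix.mul_assoc]
      rw [hLs]
      simp only [Matrix.mul_neg]
      rw [← Matrix.mul_assoc Wᴴ (formI m s), hW.adj, Matrix.mul_assoc, ← Matrix.mul_assoc Wᴴ,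
        hW.adj]
      simp only [Matrix.mul_assoc]
    have h2 : star (L * W * W).trace = - (L * W * W).trace := by
      rw [← Matrix.trace_conjTranspose]
      have h3 : (L * W * W)ᴴ = -(formI m s * (W * W * L)) * formI m s := by
        rw [← h1, Matrix.mul_assoc _ (formI m s), formI_sq hs, Matrix.mul_one]
      rw [h3, Matrix.neg_mul, Matrix.trace_neg, Matrix.trace_mul_comm, ← Matrix.mul_assoc,
        formI_sq hs, Matrix.one_mul, Matrix.trace_mul_comm (W * W) L, Matrix.mul_assoc]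
    have := congrArg Complex.re h2
    simp at this
    simp
    linarith
  set Z := W * L - L * W with hZ
  have hZt : IsTan s P Z := hW.comm hP hPL hLP hLs
  have hLe : L * e = 0 := by rw [← hLP, Matrix.mul_assoc, hPe, Matrix.mul_zero]
  have hZe : Z * e = 0 := by
    rw [hZ, Matrix.sub_mul, Matrix.mul_assoc, Matrix.mul_assoc, hLe, hWe, Matrix.mul_zero,
      Matrix.mul_zero, sub_zero]
  refine ⟨Z, hZt, hx2, ?_⟩
  intro φ ψ
  -- choice of `a`
  set R : Matrix (Fin 2) Unit ℂ →ₗ[ℝ] Mat m :=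
    { toFun := fun α => rk s e (A * α)
      map_add' := fun α β => by
        unfold rk
        simp only [Matrix.mul_add, Matrix.conjTranspose_add, Matrix.add_mul]
        abel
      map_smul' := fun r α => by
        unfold rk
        simp only [Matrix.mul_smul, Matrix.conjTranspose_smul, Matrix.smul_mul, star_trivial,
          smul_add, RingHom.id_apply] } with hR
  set T' : Matrix (Fin 2) Unit ℂ →ₗ[ℝ] (ℝ × ℝ) := (φ.comp R).prod (ψ.comp R) with hT'
  have hk' : LinearMap.ker T' ≠ ⊥ := by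
    apply LinearMap.ker_ne_bot_of_finrank_lt
    have : Module.finrank ℝ (Matrix (Fin 2) Unit ℂ) = 4 := by
      rw [Module.finrank_matrix]; simp
    rw [this]
    simp
  obtain ⟨α, hα, hα0⟩ := Submodule.exists_mem_ne_zero_of_ne_bot hk'
  rw [LinearMap.mem_ker] at hα
  have hα1 : φ (rk s e (A * α)) = 0 := congrArg Prod.fst hα
  have hα2 : ψ (rk s e (A * α)) = 0 := congrArg Prod.snd hα
  set a : Col m := A * α with ha
  have hPa : P * a = a := by
    rw [ha, hPA]
    simp only [Matrix.smul_mul, Matrix.mul_assoc]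
    rw [← Matrix.mul_assoc (formI m s), ← Matrix.mul_assoc Aᴴ, ← Matrix.mul_assoc Aᴴ, hA]
    simp only [Matrix.smul_mul, Matrix.mul_smul, Matrix.one_mul, smul_smul, s_sqC hs, one_smul]
  have ha0 : a ≠ 0 := by
    intro h
    apply hα0
    have h1 : Aᴴ * formI m s * a = 0 := by rw [h, Matrix.mul_zero]
    rw [ha, ← Matrix.mul_assoc, hA, Matrix.smul_mul, Matrix.one_mul] at h1
    have h2 := congrArg (fun M => (s : ℂ) • M) h1
    simpa only [smul_smul, s_sqC hs, one_smul, smul_zero] using h2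
  set b : Col m := L * a with hb
  have hPb : P * b = b := by rw [hb, ← Matrix.mul_assoc, hPL]
  refine ⟨rk s e a, rk s e b, rk_tan hP hPe hPa, rk_tan hP hPe hPb, ?_, hα1, hα2, ?_⟩
  · intro V hV hVe
    exact ⟨rk_orth hV (hVe e hPe hNe), rk_orth hV (hVe e hPe hNe)⟩
  rw [rk_S hW hWe, rk_S hZt hZe, rk_S hW hWe, rk_S hZt hZe]
  have o1 : ∀ u : Col m, (W * u)ᴴ * formI m s * e = 0 := by
    intro u
    rw [← tan_dagger hW, Matrix.mul_assoc _ W, hWe, Matrix.mul_zero]
  have o2 : ∀ u : Col m, eᴴ * formI m s * (Z * u) = 0 := by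
    intro u
    rw [← Matrix.mul_assoc, tan_dagger hZt, hZe, Matrix.conjTranspose_zero, Matrix.zero_mul,
      Matrix.zero_mul]
  rw [met_rk hee (o1 b) (o2 a), met_rk hee (o1 a) (o2 b)]
  have c2 : ((((W * a)ᴴ * formI m s * (Z * b)).trace).re)
      = ((((Z * b)ᴴ * formI m s * (W * a)).trace).re) := by
    have : ((W * a)ᴴ * formI m s * (Z * b)) = ((Z * b)ᴴ * formI m s * (W * a))ᴴ := by
      simp only [Matrix.conjTranspose_mul, Matrix.conjTranspose_conjTranspose, formI_herm,
        Matrix.mul_assoc]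
    rw [this, Matrix.trace_conjTranspose]
    simp
  rw [c2, ← tan_dagger hW, ← tan_dagger hZt]
  set D := W * W * P with hD
  have hPWP := hW.PXP hP
  have hPD : P * D = D := by
    have h1 : P * W = W - W * P := by
      rw [eq_sub_iff_add_eq, add_comm]; exact hW.off
    rw [hD, ← Matrix.mul_assoc, ← Matrix.mul_assoc, h1, Matrix.sub_mul, Matrix.sub_mul]
    have : W * P * W * P = 0 := by
      rw [Matrix.mul_assoc W P, Matrix.mul_assoc W, hPWP, Matrix.mul_zero]
    rw [this, sub_zero]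
  have hDP : D * P = D := by rw [hD, Matrix.mul_assoc, hP.idem]
  have hLD : (L * D).trace = 0 := by
    rw [hD, ← Matrix.mul_assoc, Matrix.trace_mul_comm, ← Matrix.mul_assoc, ← Matrix.mul_assoc,
      hPL, hLWW]
  have anti := lift_anticomm hs hA hPA hPD hDP (lmat_trace x)
  rw [← hL, hLD, zero_smul, add_zero] at anti
  have hcomm : (W * Z - Z * W) * a = D.trace • (L * a) := by
    have h1 : L * W * a = 0 := by
      rw [← hLP, Matrix.mul_assoc L P, Matrix.mul_assoc L, ← hPa, ← Matrix.mul_assoc (P * W),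
        hPWP, Matrix.zero_mul, Matrix.mul_zero]
    have h2 : W * L * W * a = 0 := by
      rw [Matrix.mul_assoc W, Matrix.mul_assoc W, h1, Matrix.mul_zero]
    have h3 : D * L = W * W * L := by rw [hD, Matrix.mul_assoc, hPL]
    have h4 : L * D * a = L * W * W * a := by
      rw [hD]
      simp only [Matrix.mul_assoc]
      rw [hPa]
    rw [← Matrix.smul_mul, ← anti, Matrix.add_mul, h3, h4, hZ]
    simp only [Matrix.sub_mul, Matrix.mul_sub, ← Matrix.mul_assoc]
    rw [h2]
    abel
  set c : ℝ := (x 0) ^ 2 + (x 1) ^ 2 + (x 2) ^ 2 with hc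
  have hLLa : L * (L * a) = (-(c : ℝ) : ℂ) • a := by
    rw [← Matrix.mul_assoc, hL, lift_mul hA, lmat_sq]
    have h1 : lift A ((-(c : ℝ) : ℂ) • (1 : Matrix (Fin 2) (Fin 2) ℂ)) s
        = (-(c : ℝ) : ℂ) • lift A 1 s := by
      unfold lift; rw [Matrix.mul_smul, Matrix.smul_mul]
    have h2 : P = (s : ℂ) • lift A 1 s := by rw [hPA]; simp [lift]
    rw [← hc, h1, smul_comm, ← h2, Matrix.smul_mul, hPa]
  have fin1 : (bᴴ * formI m s * W * (Z * a)) - (bᴴ * formI m s * Z * (W * a))
      = ((c : ℂ) * D.trace) • (aᴴ * formI m s * a) := by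
    have h1 : (bᴴ * formI m s * W * (Z * a)) - (bᴴ * formI m s * Z * (W * a))
        = bᴴ * formI m s * ((W * Z - Z * W) * a) := by
      clear_value Z
      rw [Matrix.sub_mul, Matrix.mul_sub]
      simp only [Matrix.mul_assoc]
    have h2 : bᴴ * formI m s = -(aᴴ * formI m s * L) := by
      rw [hb, Matrix.conjTranspose_mul, Matrix.mul_assoc, hLs, Matrix.mul_neg, Matrix.mul_assoc]
    rw [h1, hcomm, h2, Matrix.mul_smul, Matrix.neg_mul, Matrix.mul_assoc, hLLa, Matrix.mul_smul,
      smul_neg, smul_smul, ← neg_smul]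
    congr 1
    push_cast
    ring
  have hna : 0 < s * nsq s a := hP.nsq_range hPa ha0
  have hcpos : 0 < c := by
    by_contra hcon
    apply hx0
    have h0 : x 0 ^ 2 + x 1 ^ 2 + x 2 ^ 2 ≤ 0 := by rw [← hc]; exact not_lt.1 hcon
    have e0 : x 0 = 0 := by nlinarith [sq_nonneg (x 0), sq_nonneg (x 1), sq_nonneg (x 2)]
    have e1 : x 1 = 0 := by nlinarith [sq_nonneg (x 0), sq_nonneg (x 1), sq_nonneg (x 2)]
    have e2 : x 2 = 0 := by nlinarith [sq_nonneg (x 0), sq_nonneg (x 1), sq_nonneg (x 2)]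
    ext i
    fin_cases i <;> simp [e0, e1, e2]
  have hDt : 2 * D.trace = (W * W).trace := by
    have h1 : W * W = W * (W * P) + W * (P * W) := by
      rw [← Matrix.mul_add, hW.off]
    have h2 : (W * (P * W)).trace = (W * (W * P)).trace := by
      rw [Matrix.trace_mul_comm, Matrix.mul_assoc P, Matrix.trace_mul_comm, Matrix.mul_assoc]
    rw [h1, Matrix.trace_add, h2, hD, Matrix.mul_assoc]
    ring
  have hDre : D.trace.re ≠ 0 := by
    intro h
    apply hWW
    rw [← hDt]
    simp [h]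
  have fin2 : ((bᴴ * formI m s * W * (Z * a)).trace).re - ((bᴴ * formI m s * Z * (W * a)).trace).re
      = c * D.trace.re * nsq s a := by
    rw [← Complex.sub_re, ← Matrix.trace_sub, fin1, nsq_real, smul_smul, Matrix.trace_smul]
    simp [Matrix.trace]
  rw [← mul_sub, fin2]
  have : s * nsq s a ≠ 0 := hna.ne'
  have h3 : s * (c * D.trace.re * nsq s a) = c * D.trace.re * (s * nsq s a) := by ring
  rw [h3]
  exact mul_ne_zero (mul_ne_zero hcpos.ne' hDre) this

end core

end Pool.Agent.X181
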