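import Mathlib
import Pool.Agent.X181.Core

/-!
Real hypersurfaces of the projector spaces.
-/

namespace Pool.Agent.X181

open Matrix
open scoped ContDiff Matrix.Norms.Elementwise

/-- multiplication of matrices as a continuous bilinear map -/
noncomputable def mulL (m : ℕ) : Mat m →L[ℝ] Mat m →L[ℝ] Mat m :=
  LinearMap.toContinuousBilinearMap (LinearMap.mul ℝ (Mat m))

lemma mulL_apply {m : ℕ} (X Y : Mat m) : mulL m X Y = X * Y := rfl

/-- the metric as a continuous bilinear map -/
noncomputable def metL (m : ℕ) (s : ℝ) : Mat m →L[ℝ] Mat m →L[ℝ] ℝ :=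
  LinearMap.toContinuousBilinearMap
    (LinearMap.mk₂ ℝ (fun X Y : Mat m => met s X Y)
      (fun X Y Z => met_add_left X Y Z)
      (fun r X Z => met_smul_left r X Z)
      (fun X Y Z => by rw [met_comm, met_add_left, met_comm Y, met_comm Z])
      (fun r X Y => by rw [met_comm, met_smul_left, met_comm Y]; rfl))

lemma metL_apply {m : ℕ} {s : ℝ} (X Y : Mat m) : metL m s X Y = met s X Y := rfl

/-- the real linear map `X ↦ Xᴴ I - I X` -/
noncomputable def adjL (m : ℕ) (s : ℝ) : Mat m →L[ℝ] Mat m :=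
  LinearMap.toContinuousLinearMap
    { toFun := fun X => Xᴴ * formI m s - formI m s * X
      map_add' := fun X Y => by
        simp only [Matrix.conjTranspose_add, Matrix.add_mul, Matrix.mul_add]; abel
      map_smul' := fun r X => by
        simp only [Matrix.conjTranspose_smul, Matrix.smul_mul, Matrix.mul_smul, star_trivial,
          RingHom.id_apply, smul_sub] }

lemma adjL_apply {m : ℕ} {s : ℝ} (X : Mat m) :
    adjL m s X = Xᴴ * formI m s - formI m s * X := rfl

variable {E : Type*} [NormedAddCommGroup E] [NormedSpace ℝ E]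

/-- A real hypersurface of the projector space, given by a parametrisation `f : U → Mat m` on a
nonempty open subset `U` of the vector space `E`, together with a smooth unit normal field `N`. -/
structure IsHypersurface {m : ℕ} (s : ℝ) (U : Set E) (f N : E → Mat m) : Prop where
  isOpen : IsOpen U
  nonempty : U.Nonempty
  smooth : ContDiffOn ℝ ∞ f U
  smoothN : ContDiffOn ℝ ∞ N U
  mem : ∀ x ∈ U, IsGr s (f x)
  immersion : ∀ x ∈ U, Function.Injective (fderiv ℝ f x)
  tanN : ∀ x ∈ U, IsTan s (f x) (N x)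
  unitN : ∀ x ∈ U, met s (N x) (N x) = 1
  normal : ∀ x ∈ U, ∀ v, met s (N x) (fderiv ℝ f x v) = 0
  codim : ∀ x ∈ U, ∀ X, IsTan s (f x) X → met s (N x) X = 0 → ∃ v, fderiv ℝ f x v = X

/-- The induced metric `g` in the chart. -/
noncomputable def indMet {m : ℕ} (s : ℝ) (f : E → Mat m) (x u v : E) : ℝ :=
  met s (fderiv ℝ f x u) (fderiv ℝ f x v)

section geom

variable {m : ℕ} {s : ℝ} {U : Set E} {f N : E → Mat m}
  (hM : IsHypersurface s U f N)

include hM in
lemma tan_df {x : E} (hx : x ∈ U) (u : E) : IsTan s (f x) (fderiv ℝ f x u) := by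
  have hd : HasFDerivAt f (fderiv ℝ f x) x :=
    ((hM.smooth.contDiffAt (hM.isOpen.mem_nhds hx)).differentiableAt (by simp)).hasFDerivAt
  refine ⟨?_, ?_⟩
  · have h1 := (mulL m).hasFDerivAt_of_bilinear hd hd
    have h2 : (fun y => mulL m (f y) (f y)) =ᶠ[nhds x] f := by
      filter_upwards [hM.isOpen.mem_nhds hx] with y hy
      exact (hM.mem y hy).idem
    have h3 := h1.unique (hd.congr_of_eventuallyEq h2)
    have h4 := congrArg (fun T : E →L[ℝ] Mat m => T u) h3
    simp [ContinuousLinearMap.precompR_apply] at h4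
    rw [add_comm]; exact h4
  · have h1 : HasFDerivAt (fun y => adjL m s (f y)) ((adjL m s).comp (fderiv ℝ f x)) x :=
      (adjL m s).hasFDerivAt.comp x hd
    have h2 : (fun y => adjL m s (f y)) =ᶠ[nhds x] (fun _ => (0 : Mat m)) := by
      filter_upwards [hM.isOpen.mem_nhds hx] with y hy
      rw [adjL_apply, (hM.mem y hy).adj, sub_self]
    have h3 := h1.unique ((hasFDerivAt_const (0 : Mat m) x).congr_of_eventuallyEq h2)
    have h4 := congrArg (fun T : E →L[ℝ] Mat m => T u) h3
    simp only [ContinuousLinearMap.comp_apply, adjL_apply] at h4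
    exact sub_eq_zero.1 h4

include hM in
lemma second_off {x : E} (hx : x ∈ U) (u v : E) :
    fderiv ℝ (fderiv ℝ f) x u v * f x + f x * fderiv ℝ (fderiv ℝ f) x u v
      = fderiv ℝ (fderiv ℝ f) x u v
        - (fderiv ℝ f x u * fderiv ℝ f x v + fderiv ℝ f x v * fderiv ℝ f x u) := by
  have hd : HasFDerivAt f (fderiv ℝ f x) x :=
    ((hM.smooth.contDiffAt (hM.isOpen.mem_nhds hx)).differentiableAt (by simp)).hasFDerivAt
  have hdd := hasFDerivAt_apply1 (df_hasFDerivAt hM.isOpen hM.smooth hx) v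
  have h1 := ((mulL m).hasFDerivAt_of_bilinear hdd hd).add
    ((mulL m).hasFDerivAt_of_bilinear hd hdd)
  have h2 : ((fun y => mulL m (fderiv ℝ f y v) (f y)) + (fun y => mulL m (f y) (fderiv ℝ f y v)))
      =ᶠ[nhds x] (fun y => fderiv ℝ f y v) := by
    filter_upwards [hM.isOpen.mem_nhds hx] with y hy
    exact (tan_df hM hy v).off
  have h3 := h1.unique (hdd.congr_of_eventuallyEq h2)
  have h4 : (fderiv ℝ f x v * fderiv ℝ f x u + fderiv ℝ (fderiv ℝ f) x u v * f x)
      + (f x * fderiv ℝ (fderiv ℝ f) x u v + fderiv ℝ f x u * fderiv ℝ f x v)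
      = fderiv ℝ (fderiv ℝ f) x u v := congrArg (fun T : E →L[ℝ] Mat m => T u) h3
  rw [eq_sub_iff_add_eq]
  conv_rhs => rw [← h4]
  abel

include hM in
lemma second_adj {x : E} (hx : x ∈ U) (u v : E) :
    (fderiv ℝ (fderiv ℝ f) x u v)ᴴ * formI m s = formI m s * fderiv ℝ (fderiv ℝ f) x u v := by
  have hdd := hasFDerivAt_apply1 (df_hasFDerivAt hM.isOpen hM.smooth hx) v
  have h1 : HasFDerivAt (fun y => adjL m s (fderiv ℝ f y v)) _ x :=
    (adjL m s).hasFDerivAt.comp x hdd
  have h2 : (fun y => adjL m s (fderiv ℝ f y v)) =ᶠ[nhds x] (fun _ => (0 : Mat m)) := by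
    filter_upwards [hM.isOpen.mem_nhds hx] with y hy
    rw [adjL_apply, (tan_df hM hy v).adj, sub_self]
  have h3 := h1.unique ((hasFDerivAt_const (0 : Mat m) x).congr_of_eventuallyEq h2)
  have h4 : (fderiv ℝ (fderiv ℝ f) x u v)ᴴ * formI m s
      - formI m s * fderiv ℝ (fderiv ℝ f) x u v = 0 := congrArg (fun T : E →L[ℝ] Mat m => T u) h3
  exact sub_eq_zero.1 h4

/-- the second fundamental form -/
noncomputable def sff (s : ℝ) (f N : E → Mat m) (x u v : E) : ℝ :=
  met s (fderiv ℝ (fderiv ℝ f) x u v) (N x)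

include hM in
lemma sff_eq {x : E} (hx : x ∈ U) (u v : E) :
    sff s f N x u v = - met s (fderiv ℝ N x u) (fderiv ℝ f x v) := by
  have hN : HasFDerivAt N (fderiv ℝ N x) x :=
    ((hM.smoothN.contDiffAt (hM.isOpen.mem_nhds hx)).differentiableAt (by simp)).hasFDerivAt
  have hdd := hasFDerivAt_apply1 (df_hasFDerivAt hM.isOpen hM.smooth hx) v
  have h1 := (metL m s).hasFDerivAt_of_bilinear hN hdd
  have h2 : (fun y => metL m s (N y) (fderiv ℝ f y v)) =ᶠ[nhds x] (fun _ => (0 : ℝ)) := by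
    filter_upwards [hM.isOpen.mem_nhds hx] with y hy
    exact hM.normal y hy v
  have h3 := h1.unique ((hasFDerivAt_const (0 : ℝ) x).congr_of_eventuallyEq h2)
  have h4 : met s (N x) (fderiv ℝ (fderiv ℝ f) x u v)
      + met s (fderiv ℝ N x u) (fderiv ℝ f x v) = 0 := congrArg (fun T : E →L[ℝ] ℝ => T u) h3
  unfold sff
  rw [met_comm]
  linarith

include hM in
lemma sff_symm {x : E} (hx : x ∈ U) (u v : E) : sff s f N x u v = sff s f N x v u := by
  unfold sff
  congr 1
  exact ddf_symm hM.isOpen hM.smooth hx u v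

/-- `S u v = X_u X_v + X_v X_u` -/
noncomputable def Sop (f : E → Mat m) (x u v : E) : Mat m :=
  fderiv ℝ f x u * fderiv ℝ f x v + fderiv ℝ f x v * fderiv ℝ f x u

lemma tr_diag_off {P D X : Mat m} (hP : IsGr s P) (hD : D * P = P * D) (hX : IsTan s P X) :
    (D * X).trace = 0 := by
  have h1 : (D * X).trace = (D * (X * P)).trace + (D * (P * X)).trace := by
    rw [← Matrix.trace_add, ← Matrix.mul_add, hX.off]
  have hPXP := hX.PXP hP
  have h2 : (D * (P * X)).trace = 0 := by
    rw [← Matrix.mul_assoc, hD]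
    have : P * D * X = P * (D * P) * X := by
      rw [hD, ← Matrix.mul_assoc P P, hP.idem]
    rw [this, Matrix.mul_assoc P, Matrix.trace_mul_comm, Matrix.mul_assoc, Matrix.mul_assoc,
      ← Matrix.mul_assoc P, hPXP, Matrix.mul_zero, Matrix.trace_zero]
  have h3 : (D * (X * P)).trace = (D * (P * X)).trace := by
    rw [← Matrix.mul_assoc, Matrix.trace_mul_comm, ← Matrix.mul_assoc, ← hD, Matrix.mul_assoc]
  rw [h1, h3, h2, add_zero]

lemma met_add_right (X Y Z : Mat m) : met s X (Y + Z) = met s X Y + met s X Z := by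
  rw [met_comm, met_add_left, met_comm Y, met_comm Z]

lemma met_sub_left (X Y Z : Mat m) : met s (X - Y) Z = met s X Z - met s Y Z := by
  unfold met; rw [Matrix.sub_mul, Matrix.trace_sub, Complex.sub_re]; ring

lemma met_sub_right (X Y Z : Mat m) : met s X (Y - Z) = met s X Y - met s X Z := by
  rw [met_comm, met_sub_left, met_comm Y, met_comm Z]

/-- product of two tangent vectors commutes with the projector -/
lemma tan_tan_comm {P X Y : Mat m} (hX : IsTan s P X) (hY : IsTan s P Y) :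
    X * Y * P = P * (X * Y) := by
  have h1 : Y * P = Y - P * Y := by rw [eq_sub_iff_add_eq]; exact hY.off
  have h2 : P * X = X - X * P := by rw [eq_sub_iff_add_eq, add_comm]; exact hX.off
  rw [Matrix.mul_assoc, h1, ← Matrix.mul_assoc P, h2, Matrix.mul_sub, Matrix.sub_mul,
    Matrix.mul_assoc X P]

lemma Sop_comm_P (hM : IsHypersurface s U f N) {x : E} (hx : x ∈ U) (u v : E) :
    Sop f x u v * f x = f x * Sop f x u v := by
  unfold Sop
  rw [Matrix.add_mul, Matrix.mul_add, tan_tan_comm (tan_df hM hx u) (tan_df hM hx v),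
    tan_tan_comm (tan_df hM hx v) (tan_df hM hx u)]

lemma Sop_adj (hM : IsHypersurface s U f N) {x : E} (hx : x ∈ U) (u v : E) :
    (Sop f x u v)ᴴ * formI m s = formI m s * Sop f x u v := by
  have hu := (tan_df hM hx u).adj
  have hv := (tan_df hM hx v).adj
  unfold Sop
  rw [Matrix.conjTranspose_add, Matrix.conjTranspose_mul, Matrix.conjTranspose_mul,
    Matrix.add_mul, Matrix.mul_assoc, hu, ← Matrix.mul_assoc, hv, Matrix.mul_assoc _ _ (formI m s),
    hv, ← Matrix.mul_assoc _ (formI m s), hu, Matrix.mul_add, Matrix.mul_assoc, Matrix.mul_assoc]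
  abel

/-- the tangential part of the second fundamental form of the immersion `f` into the space of
matrices -/
noncomputable def Oop (f : E → Mat m) (Γ : E → E →L[ℝ] E →L[ℝ] E) (x u v : E) : Mat m :=
  fderiv ℝ (fderiv ℝ f) x u v - fderiv ℝ f x (Γ x u v) - (1 - 2 • f x) * Sop f x u v

include hM in
lemma Oop_tan {Γ : E → E →L[ℝ] E →L[ℝ] E} {x : E} (hx : x ∈ U) (u v : E) :
    IsTan s (f x) (Oop f Γ x u v) := by
  have h1 := second_off hM hx u v
  have h2 := (tan_df hM hx (Γ x u v)).off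
  have h3 := Sop_comm_P hM hx u v
  have hP := (hM.mem x hx).idem
  have h4 := second_adj hM hx u v
  have h5 := (tan_df hM hx (Γ x u v)).adj
  have h6 := Sop_adj hM hx u v
  have hPadj := (hM.mem x hx).adj
  have h7 : fderiv ℝ f x u * fderiv ℝ f x v + fderiv ℝ f x v * fderiv ℝ f x u = Sop f x u v := rfl
  rw [h7] at h1
  unfold Oop
  set H := fderiv ℝ (fderiv ℝ f) x u v
  set G := fderiv ℝ f x (Γ x u v)
  set S := Sop f x u v
  set P := f x
  have h8 : P * S * P = P * S := by rw [Matrix.mul_assoc, h3, ← Matrix.mul_assoc, hP]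
  refine ⟨?_, ?_⟩
  · have e1 : (H - G - (1 - 2 • P) * S) * P + P * (H - G - (1 - 2 • P) * S)
        = (H * P + P * H) - (G * P + P * G) - (S * P - 2 • (P * S * P)) - (P * S - 2 • (P * P * S)) := by
      simp only [two_smul]
      noncomm_ring
    rw [e1, h1, h2, h8, hP, h3]
    simp only [two_smul]
    noncomm_ring
  · have e2 : (2 • P)ᴴ = 2 • Pᴴ := by simp [two_smul]
    rw [Matrix.conjTranspose_sub, Matrix.conjTranspose_sub, Matrix.conjTranspose_mul,
      Matrix.conjTranspose_sub, e2, Matrix.conjTranspose_one]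
    have e3 : Sᴴ * (1 - 2 • Pᴴ) * formI m s = formI m s * ((1 - 2 • P) * S) := by
      have : (1 - 2 • Pᴴ) * formI m s = formI m s * (1 - 2 • P) := by
        simp only [two_smul, Matrix.sub_mul, Matrix.mul_sub, Matrix.add_mul, Matrix.mul_add, hPadj,
          Matrix.one_mul, Matrix.mul_one]
      rw [Matrix.mul_assoc, this, ← Matrix.mul_assoc, h6, Matrix.mul_assoc]
      congr 1
      simp only [two_smul, Matrix.sub_mul, Matrix.mul_sub, Matrix.add_mul, Matrix.mul_add, h3,
          Matrix.one_mul, Matrix.mul_one]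
    rw [Matrix.sub_mul, Matrix.sub_mul, h4, h5, e3, Matrix.mul_sub, Matrix.mul_sub]

lemma refl_comm {P D : Mat m} (hP : P * P = P) (hD : D * P = P * D) :
    ((1 - 2 • P) * D) * P = P * ((1 - 2 • P) * D) := by
  have h1 : P * (1 - 2 • P) = (1 - 2 • P) * P := by
    simp only [two_smul, Matrix.sub_mul, Matrix.mul_sub, Matrix.add_mul, Matrix.mul_add,
      Matrix.one_mul, Matrix.mul_one]
  rw [Matrix.mul_assoc, hD, ← Matrix.mul_assoc, ← h1, Matrix.mul_assoc]

include hM in
lemma met_diag_tan {x : E} (hx : x ∈ U) (u v : E) {X : Mat m} (hX : IsTan s (f x) X) :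
    met s ((1 - 2 • f x) * Sop f x u v) X = 0 := by
  unfold met
  rw [tr_diag_off (hM.mem x hx) (refl_comm (hM.mem x hx).idem (Sop_comm_P hM hx u v)) hX]
  simp

include hM in
lemma met_diag_diag {x : E} (hx : x ∈ U) (u v t w : E) :
    met s ((1 - 2 • f x) * Sop f x u v) ((1 - 2 • f x) * Sop f x t w)
      = met s (Sop f x u v) (Sop f x t w) := by
  have h3 := Sop_comm_P hM hx u v
  have hP := (hM.mem x hx).idem
  unfold met
  set S := Sop f x u v
  set S' := Sop f x t w
  set P := f x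
  have h4 : (1 - 2 • P) * S = S * (1 - 2 • P) := by
    simp only [two_smul, Matrix.sub_mul, Matrix.mul_sub, Matrix.add_mul, Matrix.mul_add, h3,
      Matrix.one_mul, Matrix.mul_one]
  have h5 : (1 - 2 • P) * (1 - 2 • P) = 1 := by
    simp only [two_smul, Matrix.sub_mul, Matrix.mul_sub, Matrix.add_mul, Matrix.mul_add, hP,
      Matrix.one_mul, Matrix.mul_one]
    abel
  rw [h4, Matrix.mul_assoc, ← Matrix.mul_assoc (1 - 2 • P), h5, Matrix.one_mul]

include hM in
lemma met_Oop_df {Γ : E → E →L[ℝ] E →L[ℝ] E} (hΓ : IsLeviCivita U (indMet s f) Γ)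
    {x : E} (hx : x ∈ U) (u v w : E) :
    met s (Oop f Γ x u v) (fderiv ℝ f x w) = 0 := by
  have h1 : met s (fderiv ℝ f x (Γ x u v)) (fderiv ℝ f x w)
      = met s (fderiv ℝ (fderiv ℝ f) x u v) (fderiv ℝ f x w) :=
    gauss_K1 hM.isOpen hM.smooth (metL m s) (fun X Y => met_comm X Y) hΓ hx u v w
  unfold Oop
  rw [met_sub_left, met_sub_left, met_diag_tan hM hx u v (tan_df hM hx w), h1]
  ring

include hM in
lemma met_Oop_N {Γ : E → E →L[ℝ] E →L[ℝ] E} {x : E} (hx : x ∈ U) (u v : E) :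
    met s (Oop f Γ x u v) (N x) = sff s f N x u v := by
  unfold Oop sff
  rw [met_sub_left, met_sub_left, met_diag_tan hM hx u v (hM.tanN x hx),
    met_comm (fderiv ℝ f x (Γ x u v)), hM.normal x hx]
  ring

include hM in
lemma met_II {Γ : E → E →L[ℝ] E →L[ℝ] E} (hΓ : IsLeviCivita U (indMet s f) Γ)
    {x : E} (hx : x ∈ U) (u v t w : E) :
    met s (fderiv ℝ (fderiv ℝ f) x u v - fderiv ℝ f x (Γ x u v))
        (fderiv ℝ (fderiv ℝ f) x t w - fderiv ℝ f x (Γ x t w))
      = met s (Sop f x u v) (Sop f x t w) + sff s f N x u v * sff s f N x t w := by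
  have e1 : ∀ u v, fderiv ℝ (fderiv ℝ f) x u v - fderiv ℝ f x (Γ x u v)
      = (1 - 2 • f x) * Sop f x u v + Oop f Γ x u v := by
    intro u v; unfold Oop; abel
  rw [e1, e1, met_add_left, met_add_right, met_add_right, met_diag_diag hM hx,
    met_diag_tan hM hx u v (Oop_tan hM hx t w),
    met_comm (Oop f Γ x u v) ((1 - 2 • f x) * Sop f x t w),
    met_diag_tan hM hx t w (Oop_tan hM hx u v)]
  -- decompose the second tangential part
  set c := met s (N x) (Oop f Γ x t w) with hc
  have hc' : c = sff s f N x t w := by rw [hc, met_comm, met_Oop_N hM hx]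
  have h1 : IsTan s (f x) (Oop f Γ x t w - c • N x) :=
    (Oop_tan hM hx t w).sub ((hM.tanN x hx).smul c)
  have h2 : met s (N x) (Oop f Γ x t w - c • N x) = 0 := by
    rw [met_sub_right, met_comm (N x) (c • N x), met_smul_left, hM.unitN x hx, ← hc]
    ring
  obtain ⟨z, hz⟩ := hM.codim x hx _ h1 h2
  have h3 : Oop f Γ x t w = fderiv ℝ f x z + c • N x := by rw [hz]; abel
  rw [h3, met_add_right, met_Oop_df hM hΓ hx, met_comm _ (c • N x), met_smul_left, met_comm (N x),
    met_Oop_N hM hx, hc']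
  ring

include hM in
/-- The Gauss equation of a real hypersurface of the projector space. -/
theorem gauss_hyp {Γ : E → E →L[ℝ] E →L[ℝ] E} (hΓ : IsLeviCivita U (indMet s f) Γ)
    {x : E} (hx : x ∈ U) (t u v w : E) :
    indMet s f x (Riem Γ x t u v) w
      = met s (Sop f x u v) (Sop f x t w) - met s (Sop f x t v) (Sop f x u w)
        + sff s f N x u v * sff s f N x t w - sff s f N x t v * sff s f N x u w := by
  have h1 : indMet s f x (Riem Γ x t u v) w =
      met s (fderiv ℝ (fderiv ℝ f) x u v - fderiv ℝ f x (Γ x u v))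
          (fderiv ℝ (fderiv ℝ f) x t w - fderiv ℝ f x (Γ x t w))
        - met s (fderiv ℝ (fderiv ℝ f) x t v - fderiv ℝ f x (Γ x t v))
          (fderiv ℝ (fderiv ℝ f) x u w - fderiv ℝ f x (Γ x u w)) :=
    gauss_eq hM.isOpen hM.smooth (metL m s) (fun X Y => met_comm X Y) hΓ hx t u v w
  rw [h1, met_II hM hΓ hx, met_II hM hΓ hx]
  ring

include hM in
/-- Key non-vanishing of the curvature. -/
theorem key (hs : s = 1 ∨ s = -1) (hm : 3 ≤ m) {Γ : E → E →L[ℝ] E →L[ℝ] E}
    (hΓ : IsLeviCivita U (indMet s f) Γ) {x : E} (hx : x ∈ U) (ζ : E)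
    (hζ : ∀ e : Col m, f x * e = 0 → N x * e = 0 → fderiv ℝ f x ζ * e = 0)
    (hζζ : indMet s f x ζ ζ ≠ 0) {V : Mat m} (hV : IsTan s (f x) V)
    (hVe : ∀ e : Col m, f x * e = 0 → N x * e = 0 → V * e = 0) :
    ∃ a b : E, met s (fderiv ℝ f x a) V = 0 ∧ met s (fderiv ℝ f x b) V = 0 ∧
      Riem Γ x a b ζ ≠ 0 := by
  have hW := tan_df hM hx ζ
  have hN := hM.tanN x hx
  have hP := hM.mem x hx
  have hWW : ((fderiv ℝ f x ζ * fderiv ℝ f x ζ).trace).re ≠ 0 := by
    intro h
    apply hζζ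
    unfold indMet met
    rw [h]; ring
  obtain ⟨Z, hZ, hZN, hcore⟩ := core hs hm hP hN hW hζ hWW
  rw [met_comm] at hZN
  obtain ⟨z, hz⟩ := hM.codim x hx Z hZ hZN
  obtain ⟨X, Y, hX, hY, hXV, hφ, hψ, hne⟩ := hcore
    (metL m s (fderiv ℝ N x ζ)).toLinearMap (metL m s (fderiv ℝ N x z)).toLinearMap
  have hφ' : met s (fderiv ℝ N x ζ) X = 0 := hφ
  have hψ' : met s (fderiv ℝ N x z) X = 0 := hψ
  obtain ⟨a, ha⟩ := hM.codim x hx X hX (by rw [met_comm]; exact (hXV _ hN (fun _ _ h => h)).1)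
  obtain ⟨b, hb⟩ := hM.codim x hx Y hY (by rw [met_comm]; exact (hXV _ hN (fun _ _ h => h)).2)
  refine ⟨a, b, ?_, ?_, ?_⟩
  · rw [ha]; exact (hXV V hV hVe).1
  · rw [hb]; exact (hXV V hV hVe).2
  · intro h0
    have h1 := gauss_hyp hM hΓ hx a b ζ z
    have h2 : indMet s f x (Riem Γ x a b ζ) z = 0 := by
      unfold indMet
      rw [h0, map_zero]
      unfold met
      simp
    have h3 : sff s f N x a z = 0 := by
      rw [sff_symm hM hx, sff_eq hM hx, ha, hψ', neg_zero]
    have h4 : sff s f N x a ζ = 0 := by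
      rw [sff_symm hM hx, sff_eq hM hx, ha, hφ', neg_zero]
    rw [h2, h3, h4] at h1
    apply hne
    unfold Sop at h1
    rw [ha, hb, hz] at h1
    linarith

end geom

end Pool.Agent.X181
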