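import Mathlib
import Pool.Agent.X181.Gauss

/-!
Existence of the Levi-Civita connection of the metric induced by an immersion.
-/

namespace Pool.Agent.X181

open scoped ContDiff

variable {E F : Type*} [NormedAddCommGroup E] [NormedSpace ℝ E] [FiniteDimensional ℝ E]
  [NormedAddCommGroup F] [NormedSpace ℝ F]

/-- the Gram operator of the induced metric -/
noncomputable def gram (B : F →L[ℝ] F →L[ℝ] ℝ) (f : E → F) (x : E) : E →L[ℝ] (E →L[ℝ] ℝ) :=
  LinearMap.toContinuousBilinearMap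
    (LinearMap.mk₂ ℝ (fun u v : E => B (fderiv ℝ f x u) (fderiv ℝ f x v))
      (fun u v w => by simp) (fun r u v => by simp) (fun u v w => by simp)
      (fun r u v => by simp))

lemma gram_apply (B : F →L[ℝ] F →L[ℝ] ℝ) (f : E → F) (x u v : E) :
    gram B f x u v = B (fderiv ℝ f x u) (fderiv ℝ f x v) := rfl

/-- the Christoffel symbols of the first kind -/
noncomputable def firstKind (B : F →L[ℝ] F →L[ℝ] ℝ) (f : E → F) (x u v : E) : E →L[ℝ] ℝ :=
  (B (fderiv ℝ (fderiv ℝ f) x u v)).comp (fderiv ℝ f x)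

omit [FiniteDimensional ℝ E] in
lemma firstKind_apply (B : F →L[ℝ] F →L[ℝ] ℝ) (f : E → F) (x u v w : E) :
    firstKind B f x u v w = B (fderiv ℝ (fderiv ℝ f) x u v) (fderiv ℝ f x w) := rfl

/-- the Levi-Civita connection -/
noncomputable def lcConn (B : F →L[ℝ] F →L[ℝ] ℝ) (f : E → F) (x : E) : E →L[ℝ] E →L[ℝ] E :=
  LinearMap.toContinuousBilinearMap
    (LinearMap.mk₂ ℝ (fun u v : E => (gram B f x).inverse (firstKind B f x u v))
      (fun u v w => by
        rw [← map_add]; congr 1; ext z; simp [firstKind])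
      (fun r u v => by
        rw [← map_smul]; congr 1; ext z; simp [firstKind])
      (fun u v w => by
        rw [← map_add]; congr 1; ext z; simp [firstKind])
      (fun r u v => by
        rw [← map_smul]; congr 1; ext z; simp [firstKind]))

lemma lcConn_apply (B : F →L[ℝ] F →L[ℝ] ℝ) (f : E → F) (x u v : E) :
    lcConn B f x u v = (gram B f x).inverse (firstKind B f x u v) := rfl

variable {U : Set E} (hU : IsOpen U) {f : E → F} (hf : ContDiffOn ℝ ∞ f U)
  (B : F →L[ℝ] F →L[ℝ] ℝ) (hB : ∀ X Y, B X Y = B Y X)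
  (hnd : ∀ x ∈ U, ∀ u, (∀ v, B (fderiv ℝ f x u) (fderiv ℝ f x v) = 0) → u = 0)

include hnd in
lemma gram_equiv {x : E} (hx : x ∈ U) : ∃ e : E ≃L[ℝ] (E →L[ℝ] ℝ), (e : E →L[ℝ] (E →L[ℝ] ℝ)) = gram B f x := by
  have hinj : Function.Injective (gram B f x : E →ₗ[ℝ] (E →L[ℝ] ℝ)) := by
    rw [← LinearMap.ker_eq_bot, LinearMap.ker_eq_bot']
    intro u hu
    apply hnd x hx u
    intro v
    exact congrArg (fun T : E →L[ℝ] ℝ => T v) hu
  have hdim : Module.finrank ℝ E = Module.finrank ℝ (E →L[ℝ] ℝ) := by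
    rw [← (LinearMap.toContinuousLinearMap (𝕜 := ℝ) (E := E) (F' := ℝ)).finrank_eq]
    exact (Subspace.dual_finrank_eq (K := ℝ) (V := E)).symm
  refine ⟨(LinearEquiv.ofInjectiveOfFinrankEq _ hinj hdim).toContinuousLinearEquiv, ?_⟩
  ext u v
  rfl

omit [FiniteDimensional ℝ E] in
include hU hf in
lemma smooth_df_apply (u : E) : ContDiffOn ℝ ∞ (fun x => fderiv ℝ f x u) U :=
  (df_smooth hU hf).clm_apply contDiffOn_const

omit [FiniteDimensional ℝ E] in
include hU hf in
lemma smooth_ddf_apply (u v : E) :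
    ContDiffOn ℝ ∞ (fun x => fderiv ℝ (fderiv ℝ f) x u v) U :=
  ((ddf_smooth hU hf).clm_apply contDiffOn_const).clm_apply contDiffOn_const

include hU hf in
lemma smooth_gram : ContDiffOn ℝ ∞ (gram B f) U := by
  rw [contDiffOn_clm_apply]
  intro u
  rw [contDiffOn_clm_apply]
  intro v
  simp only [gram_apply]
  exact (contDiffOn_const.clm_apply (smooth_df_apply hU hf u)).clm_apply (smooth_df_apply hU hf v)

include hU hf in
lemma smooth_firstKind (u v : E) : ContDiffOn ℝ ∞ (fun x => firstKind B f x u v) U := by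
  rw [contDiffOn_clm_apply]
  intro w
  simp only [firstKind_apply]
  exact (contDiffOn_const.clm_apply (smooth_ddf_apply hU hf u v)).clm_apply
    (smooth_df_apply hU hf w)

include hU hf hnd in
lemma smooth_lcConn : ContDiffOn ℝ ∞ (lcConn B f) U := by
  rw [contDiffOn_clm_apply]
  intro u
  rw [contDiffOn_clm_apply]
  intro v
  simp only [lcConn_apply]
  refine ContDiffOn.clm_apply ?_ (smooth_firstKind hU hf B u v)
  intro x hx
  obtain ⟨e, he⟩ := gram_equiv B hnd hx
  have h1 : ContDiffAt ℝ ∞ ContinuousLinearMap.inverse (gram B f x) := by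
    rw [← he]; exact contDiffAt_map_inverse e
  exact (h1.comp x ((smooth_gram hU hf B).contDiffAt (hU.mem_nhds hx))).contDiffWithinAt

include hnd in
lemma lcConn_char {x : E} (hx : x ∈ U) (u v w : E) :
    B (fderiv ℝ f x (lcConn B f x u v)) (fderiv ℝ f x w)
      = B (fderiv ℝ (fderiv ℝ f) x u v) (fderiv ℝ f x w) := by
  obtain ⟨e, he⟩ := gram_equiv B hnd hx
  rw [← gram_apply, ← firstKind_apply, lcConn_apply, ← he, ContinuousLinearMap.inverse_equiv]
  congr 1
  exact e.apply_symm_apply _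

include hU hf hB hnd in
theorem lcConn_isLeviCivita :
    IsLeviCivita U (fun x u v => B (fderiv ℝ f x u) (fderiv ℝ f x v)) (lcConn B f) := by
  refine ⟨smooth_lcConn hU hf B hnd, ?_, ?_⟩
  · intro x hx u v
    rw [lcConn_apply, lcConn_apply]
    congr 1
    ext w
    rw [firstKind_apply, firstKind_apply, ddf_symm hU hf hx]
  · intro x hx t u v
    have hd := df_hasFDerivAt hU hf hx
    have h3 := (B.hasFDerivAt_of_bilinear (hasFDerivAt_apply1 hd u)
      (hasFDerivAt_apply1 hd v)).fderiv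
    have h4 : fderiv ℝ (fun y => B (fderiv ℝ f y u) (fderiv ℝ f y v)) x t
        = B (fderiv ℝ f x u) (fderiv ℝ (fderiv ℝ f) x t v)
          + B (fderiv ℝ (fderiv ℝ f) x t u) (fderiv ℝ f x v) := by
      rw [h3]; rfl
    rw [h4, lcConn_char B hnd hx, hB (fderiv ℝ f x u) (fderiv ℝ f x (lcConn B f x t v)),
      lcConn_char B hnd hx, hB (fderiv ℝ f x u)]
    ring

include hU in
/-- uniqueness of the Levi-Civita connection -/
theorem leviCivita_unique (hf : ContDiffOn ℝ ∞ f U) (hB : ∀ X Y, B X Y = B Y X)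
    (hnd : ∀ x ∈ U, ∀ u, (∀ v, B (fderiv ℝ f x u) (fderiv ℝ f x v) = 0) → u = 0)
    {Γ : E → E →L[ℝ] E →L[ℝ] E}
    (hΓ : IsLeviCivita U (fun x u v => B (fderiv ℝ f x u) (fderiv ℝ f x v)) Γ)
    {x : E} (hx : x ∈ U) : Γ x = lcConn B f x := by
  ext u v
  rw [← sub_eq_zero]
  apply hnd x hx
  intro w
  have h1 := gauss_K1 hU hf B hB hΓ hx u v w
  have h2 := lcConn_char B hnd hx u v w
  rw [map_sub, map_sub, sub_apply, h1, h2, sub_self]

end Pool.Agent.X181
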