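import Mathlib
import Pool.Agent.X181.Hyp
import Pool.Agent.X181.LC

/-!
The structure induced on a real hypersurface.
-/

namespace Pool.Agent.X181

open Matrix
open scoped ContDiff Matrix.Norms.Elementwise

section pos

variable {m : ℕ} {s : ℝ}

/-- The metric is positive definite on tangent spaces. -/
theorem met_pos (hs : s = 1 ∨ s = -1) {P : Mat m} (hP : IsGr s P) {X : Mat m}
    (hX : IsTan s P X) (h0 : X ≠ 0) : 0 < met s X X := by
  obtain ⟨A, hA, hPA⟩ := hP.exists_frame hs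
  have hPXP := hX.PXP hP
  have hXA : X * A ≠ 0 := by
    intro h
    apply h0
    have h1 : X * P = 0 := by rw [hPA, Matrix.mul_smul, ← Matrix.mul_assoc, h, Matrix.zero_mul,
      smul_zero]
    have h2 : formI m s * (P * X) = 0 := by
      have h3 := congrArg Matrix.conjTranspose h1
      rw [Matrix.conjTranspose_mul, Matrix.conjTranspose_zero] at h3
      rw [← Matrix.mul_assoc, ← hP.adj, Matrix.mul_assoc, ← hX.adj, ← Matrix.mul_assoc, h3,
        Matrix.zero_mul]
    have h4 : P * X = 0 := by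
      rw [← Matrix.one_mul (P * X), ← formI_sq hs, Matrix.mul_assoc, h2, Matrix.mul_zero]
    rw [← hX.off, h1, h4, add_zero]
  set c : Fin 2 → Col m := fun k => (X * A).submatrix id (fun _ => k) with hc
  have hPc : ∀ k, P * c k = 0 := by
    intro k
    have hPA' : P * A = A := by
      rw [hPA, Matrix.smul_mul, Matrix.mul_assoc, hA, Matrix.mul_smul, smul_smul, s_sqC hs,
        one_smul, Matrix.mul_one]
    have h1 : P * (X * A) = 0 := by
      rw [← hPA', ← Matrix.mul_assoc, ← Matrix.mul_assoc, hPXP, Matrix.zero_mul]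
    ext i j
    have := congrFun (congrFun h1 i) k
    simpa [Matrix.mul_apply, hc] using this
  have hnn : ∀ k, 0 ≤ nsq s (c k) := by
    intro k
    by_cases h : c k = 0
    · have h5 : (fun i => (c k) i ()) = 0 := by rw [h]; rfl
      unfold nsq
      rw [h5]
      simp
    · exact (hP.nsq_ker (hPc k) h).le
  obtain ⟨k, hk⟩ : ∃ k, c k ≠ 0 := by
    by_contra hcon
    push Not at hcon
    apply hXA
    ext i k
    have := congrFun (congrFun (hcon k) i) ()
    simpa [hc] using this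
  have hpos : 0 < ∑ k, nsq s (c k) :=
    Finset.sum_pos' (fun k _ => hnn k) ⟨k, Finset.mem_univ _, hP.nsq_ker (hPc k) hk⟩
  have htr : (((X * A)ᴴ * formI m s * (X * A)).trace).re = ∑ k, nsq s (c k) := by
    unfold Matrix.trace
    rw [Complex.re_sum]
    apply Finset.sum_congr rfl
    intro k _
    unfold nsq
    rw [← colT]
    simp only [Matrix.diag_apply, Matrix.mul_apply, Matrix.conjTranspose_apply, hc,
      Matrix.submatrix_apply, id]
  have h2 : (X * X).trace = 2 * ((s : ℂ) * ((X * A)ᴴ * formI m s * (X * A)).trace) := by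
    have h1 : X * X = X * (X * P) + X * (P * X) := by
      rw [← Matrix.mul_add, hX.off]
    have h2 : (X * (P * X)).trace = (X * (X * P)).trace := by
      rw [Matrix.trace_mul_comm, Matrix.mul_assoc P, Matrix.trace_mul_comm, Matrix.mul_assoc]
    have h3 : (X * (X * P)).trace = (s : ℂ) * ((X * A)ᴴ * formI m s * (X * A)).trace := by
      conv_lhs => rw [hPA]
      rw [Matrix.mul_smul, Matrix.mul_smul, Matrix.trace_smul, smul_eq_mul]
      congr 1
      rw [← Matrix.mul_assoc X A, ← Matrix.mul_assoc, Matrix.trace_mul_comm]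
      congr 1
      have h6 : (X * A)ᴴ * formI m s = Aᴴ * formI m s * X := by
        rw [Matrix.conjTranspose_mul, Matrix.mul_assoc, hX.adj, Matrix.mul_assoc]
      rw [h6]
      simp only [Matrix.mul_assoc]
    rw [h1, Matrix.trace_add, h2, h3]
    ring
  unfold met
  rw [h2]
  have h3 : (2 * ((s : ℂ) * ((X * A)ᴴ * formI m s * (X * A)).trace)).re
      = 2 * (s * (((X * A)ᴴ * formI m s * (X * A)).trace).re) := by
    simp
  rw [h3, htr]
  have h4 : s / 2 * (2 * (s * ∑ k, nsq s (c k))) = (s * s) * ∑ k, nsq s (c k) := by ring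
  rw [h4, s_sq hs, one_mul]
  exact hpos

end pos

variable {E : Type*} [NormedAddCommGroup E] [NormedSpace ℝ E]

/-- `A` is the shape operator of the hypersurface for the unit normal `N` (Weingarten):
`g(A u, v) = - ⟨D_u N, df v⟩`. -/
def IsShape {m : ℕ} (s : ℝ) (U : Set E) (f N : E → Mat m) (A : E → E →ₗ[ℝ] E) : Prop :=
  ∀ x ∈ U, ∀ u v, indMet s f x (A x u) v = - met s (fderiv ℝ N x u) (fderiv ℝ f x v)

/-- The structure `(φ, ξ, η, g)` induced on the hypersurface by a field `𝒥` of almost complex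
structures of the ambient space along the hypersurface: `ξ = - 𝒥 N` and
`𝒥 X = φ X + η(X) N` with `η(X) = g(X, ξ)`. -/
structure IsInduced {m : ℕ} (s : ℝ) (U : Set E) (f N : E → Mat m) (𝒥 : E → Mat m → Mat m)
    (ξ : E → E) (φ : E → E →ₗ[ℝ] E) : Prop where
  xi : ∀ x ∈ U, fderiv ℝ f x (ξ x) = - 𝒥 x (N x)
  phi : ∀ x ∈ U, ∀ u, 𝒥 x (fderiv ℝ f x u)
    = fderiv ℝ f x (φ x u) + indMet s f x u (ξ x) • N x

/-- `(J 0, J 1, J 2)` is a frame `(J₁, J₂, J₃)` of the quaternionic Kähler structure on the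
tangent space at `P`: every `J i` is of the form `X ↦ X Q - Q X` with `Q` skew-adjoint and trace
free on the plane `im P`, and `J i ∘ J i = -1`, `J₁ J₂ = J₃` and cyclically. -/
structure IsQFrame {m : ℕ} (s : ℝ) (P : Mat m) (J : Fin 3 → Mat m → Mat m) : Prop where
  mem : ∀ i, ∃ Q, IsSu s P Q ∧ ∀ X, IsTan s P X → J i X = X * Q - Q * X
  sq : ∀ i X, IsTan s P X → J i (J i X) = -X
  mul : ∀ i X, IsTan s P X → J i (J (i + 1) X) = J (i + 2) X

section geom

variable {m : ℕ} {s : ℝ}

lemma Jop_tan {P X : Mat m} (hP : IsGr s P) (hX : IsTan s P X) : IsTan s P (Jop P X) := by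
  have hPXP := hX.PXP hP
  unfold Jop
  refine ⟨?_, ?_⟩
  · rw [Matrix.smul_mul, Matrix.mul_smul, ← smul_add]
    congr 1
    rw [Matrix.sub_mul, Matrix.mul_sub, Matrix.mul_assoc X, hP.idem, hPXP, ← Matrix.mul_assoc P X,
      hPXP, ← Matrix.mul_assoc P P, hP.idem]
    abel
  · rw [Matrix.conjTranspose_smul, Matrix.conjTranspose_sub, Matrix.conjTranspose_mul,
      Matrix.conjTranspose_mul, Matrix.smul_mul, Matrix.sub_mul, Matrix.mul_assoc, hX.adj,
      ← Matrix.mul_assoc, hP.adj, Matrix.mul_assoc Xᴴ, hP.adj, ← Matrix.mul_assoc Xᴴ, hX.adj,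
      Matrix.mul_smul, Matrix.mul_sub]
    simp only [Complex.star_def, Complex.conj_I, neg_smul, ← smul_neg, neg_sub, Matrix.mul_assoc]

lemma Jop_sq {P X : Mat m} (hP : IsGr s P) (hX : IsTan s P X) : Jop P (Jop P X) = -X := by
  have hPXP := hX.PXP hP
  unfold Jop
  rw [Matrix.smul_mul, Matrix.mul_smul, ← smul_sub, smul_smul, Complex.I_mul_I, neg_smul, one_smul]
  congr 1
  rw [Matrix.sub_mul, Matrix.mul_sub, Matrix.mul_assoc X, hP.idem, hPXP, ← Matrix.mul_assoc P X,
      hPXP, ← Matrix.mul_assoc P P, hP.idem]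
  rw [sub_zero, zero_sub, sub_neg_eq_add]
  exact hX.off

lemma met_Jop {P X Y : Mat m} : met s (Jop P X) Y = - met s X (Jop P Y) := by
  unfold met Jop
  rw [Matrix.smul_mul, Matrix.mul_smul, Matrix.trace_smul, Matrix.trace_smul, Matrix.sub_mul,
    Matrix.mul_sub, Matrix.trace_sub, Matrix.trace_sub, Matrix.mul_assoc X P Y]
  have h1 : (P * X * Y).trace = (X * (Y * P)).trace := by
    rw [Matrix.mul_assoc, Matrix.trace_mul_comm, Matrix.mul_assoc]
  rw [h1]
  simp
  ring

lemma Jop_kill {P X : Mat m} {e : Col m} (hPe : P * e = 0) (hXe : X * e = 0) :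
    Jop P X * e = 0 := by
  unfold Jop
  rw [Matrix.smul_mul, Matrix.sub_mul, Matrix.mul_assoc, Matrix.mul_assoc, hPe, hXe]
  simp

lemma comm_kill {P X Q : Mat m} {e : Col m} (hQP : Q * P = Q) (hPe : P * e = 0) (hXe : X * e = 0) :
    (X * Q - Q * X) * e = 0 := by
  have hQe : Q * e = 0 := by rw [← hQP, Matrix.mul_assoc, hPe, Matrix.mul_zero]
  rw [Matrix.sub_mul, Matrix.mul_assoc, Matrix.mul_assoc, hQe, hXe]
  simp

lemma met_comm_Q {X Y Q : Mat m} :
    met s (X * Q - Q * X) Y = - met s X (Y * Q - Q * Y) := by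
  unfold met
  rw [Matrix.sub_mul, Matrix.mul_sub, Matrix.trace_sub, Matrix.trace_sub]
  have h1 : (Q * X * Y).trace = (X * (Y * Q)).trace := by
    rw [Matrix.mul_assoc, Matrix.trace_mul_comm, Matrix.mul_assoc]
  rw [h1, Matrix.mul_assoc]
  simp
  ring

lemma met_neg_neg (X Y : Mat m) : met s (-X) (-Y) = met s X Y := by
  unfold met; rw [Matrix.neg_mul, Matrix.mul_neg, neg_neg]

lemma neg_kill {X : Mat m} {e : Col m} (h : X * e = 0) : (-X) * e = 0 := by
  rw [Matrix.neg_mul, h, neg_zero]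

/-- properties of `J_i N` -/
lemma IsQFrame.tan {P : Mat m} {J : Fin 3 → Mat m → Mat m} (hJ : IsQFrame s P J) (hP : IsGr s P)
    (i : Fin 3) {X : Mat m} (hX : IsTan s P X) : IsTan s P (J i X) := by
  obtain ⟨Q, hQ, h⟩ := hJ.mem i
  rw [h X hX]
  exact hX.comm hP hQ.left hQ.right hQ.skew

lemma IsQFrame.kill {P : Mat m} {J : Fin 3 → Mat m → Mat m} (hJ : IsQFrame s P J)
    (i : Fin 3) {X : Mat m} (hX : IsTan s P X) {e : Col m} (hPe : P * e = 0) (hXe : X * e = 0) :
    J i X * e = 0 := by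
  obtain ⟨Q, hQ, h⟩ := hJ.mem i
  rw [h X hX]
  exact comm_kill hQ.right hPe hXe

lemma IsQFrame.met_self {P : Mat m} {J : Fin 3 → Mat m → Mat m} (hJ : IsQFrame s P J)
    (hP : IsGr s P) (i : Fin 3) {X : Mat m} (hX : IsTan s P X) :
    met s (J i X) (J i X) = met s X X := by
  obtain ⟨Q, hQ, h⟩ := hJ.mem i
  have h1 : met s (J i X) (J i X) = - met s X (J i (J i X)) := by
    rw [h (J i X) (hJ.tan hP i hX)]
    conv_lhs => arg 2; rw [h X hX]
    exact met_comm_Q
  rw [h1, hJ.sq i X hX]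
  unfold met
  simp

lemma IsQFrame.met_orth {P : Mat m} {J : Fin 3 → Mat m → Mat m} (hJ : IsQFrame s P J)
    (i : Fin 3) {X : Mat m} (hX : IsTan s P X) :
    met s X (J i X) = 0 := by
  obtain ⟨Q, hQ, h⟩ := hJ.mem i
  rw [h X hX]
  unfold met
  rw [Matrix.mul_sub, Matrix.trace_sub]
  have : (X * (X * Q)).trace = (X * (Q * X)).trace := by
    rw [Matrix.trace_mul_comm, Matrix.mul_assoc]
  rw [this, sub_self]
  simp

lemma Jop_met_self {P X : Mat m} (hP : IsGr s P) (hX : IsTan s P X) :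
    met s (Jop P X) (Jop P X) = met s X X := by
  rw [met_Jop, Jop_sq hP hX]
  unfold met
  simp

end geom

end Pool.Agent.X181
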