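import Mathlib
import Pool.Agent.X181.Induced

/-!
Every hypersurface carries its induced structure: Levi-Civita connection, shape operator,
structure vector field and structure tensor.
-/

namespace Pool.Agent.X181

open Matrix
open scoped ContDiff Matrix.Norms.Elementwise

variable {E : Type*} [NormedAddCommGroup E] [NormedSpace ℝ E]

variable {m : ℕ} {s : ℝ} {U : Set E} {f N : E → Mat m}

lemma nondeg (hs : s = 1 ∨ s = -1) (hM : IsHypersurface s U f N) {x : E} (hx : x ∈ U) {u : E}
    (h : ∀ v, indMet s f x u v = 0) : u = 0 := by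
  by_contra hu
  have h1 : fderiv ℝ f x u ≠ 0 := by
    intro h2
    exact hu (hM.immersion x hx (by rw [h2, map_zero]))
  exact (met_pos hs (hM.mem x hx) (tan_df hM hx u) h1).ne' (h u)

theorem exists_leviCivita [FiniteDimensional ℝ E] (hs : s = 1 ∨ s = -1)
    (hM : IsHypersurface s U f N) : ∃ Γ, IsLeviCivita U (indMet s f) Γ :=
  ⟨lcConn (metL m s) f, lcConn_isLeviCivita hM.isOpen hM.smooth (metL m s)
    (fun X Y => met_comm X Y) (fun _ hx _ h => nondeg hs hM hx h)⟩

theorem exists_shape [FiniteDimensional ℝ E] (hs : s = 1 ∨ s = -1)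
    (hM : IsHypersurface s U f N) : ∃ A : E → E →ₗ[ℝ] E, IsShape s U f N A := by
  refine ⟨fun x =>
    { toFun := fun u => (gram (metL m s) f x).inverse
        (-((metL m s (fderiv ℝ N x u)).comp (fderiv ℝ f x)))
      map_add' := fun u v => by
        rw [← map_add]; congr 1; ext w; simp; ring
      map_smul' := fun r u => by
        rw [← map_smul]; congr 1; ext w; simp }, ?_⟩
  intro x hx u v
  obtain ⟨e, he⟩ := gram_equiv (metL m s) (fun x hx u h => nondeg hs hM hx h) hx
  have h1 : indMet s f x ((gram (metL m s) f x).inverse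
        (-((metL m s (fderiv ℝ N x u)).comp (fderiv ℝ f x)))) v
      = gram (metL m s) f x ((gram (metL m s) f x).inverse
        (-((metL m s (fderiv ℝ N x u)).comp (fderiv ℝ f x)))) v := rfl
  have h2 : gram (metL m s) f x ((gram (metL m s) f x).inverse
        (-((metL m s (fderiv ℝ N x u)).comp (fderiv ℝ f x))))
      = (-((metL m s (fderiv ℝ N x u)).comp (fderiv ℝ f x))) := by
    rw [← he, ContinuousLinearMap.inverse_equiv]
    exact e.apply_symm_apply _
  change indMet s f x ((gram (metL m s) f x).inverse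
        (-((metL m s (fderiv ℝ N x u)).comp (fderiv ℝ f x)))) v = _
  rw [h1, h2]
  rfl

/-- A field of skew endomorphisms of the tangent spaces along the hypersurface. -/
structure IsSkewField (s : ℝ) (U : Set E) (f : E → Mat m) (𝒥 : E → Mat m → Mat m) : Prop where
  tan : ∀ x ∈ U, ∀ X, IsTan s (f x) X → IsTan s (f x) (𝒥 x X)
  add : ∀ x ∈ U, ∀ X Y, IsTan s (f x) X → IsTan s (f x) Y → 𝒥 x (X + Y) = 𝒥 x X + 𝒥 x Y
  smul : ∀ x ∈ U, ∀ (r : ℝ) X, IsTan s (f x) X → 𝒥 x (r • X) = r • 𝒥 x X
  skew : ∀ x ∈ U, ∀ X Y, IsTan s (f x) X → IsTan s (f x) Y →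
    met s (𝒥 x X) Y = - met s X (𝒥 x Y)

theorem exists_induced (hM : IsHypersurface s U f N) {𝒥 : E → Mat m → Mat m}
    (hJ : IsSkewField s U f 𝒥) : ∃ ξ φ, IsInduced s U f N 𝒥 ξ φ := by
  classical
  have hξ : ∀ x ∈ U, ∃ v, fderiv ℝ f x v = - 𝒥 x (N x) := by
    intro x hx
    apply hM.codim x hx _ (hJ.tan x hx _ (hM.tanN x hx)).neg
    have h1 := hJ.skew x hx _ _ (hM.tanN x hx) (hM.tanN x hx)
    rw [met_comm] at h1
    unfold met at h1 ⊢
    rw [Matrix.mul_neg, Matrix.trace_neg, Complex.neg_re]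
    linarith
  choose! ξ hξ' using hξ
  have hη : ∀ x ∈ U, ∀ u, met s (N x) (𝒥 x (fderiv ℝ f x u)) = indMet s f x u (ξ x) := by
    intro x hx u
    unfold indMet
    rw [hξ' x hx]
    have h1 := hJ.skew x hx _ _ (hM.tanN x hx) (tan_df hM hx u)
    have h2 : met s (fderiv ℝ f x u) (-𝒥 x (N x)) = - met s (𝒥 x (N x)) (fderiv ℝ f x u) := by
      rw [met_comm]; unfold met; rw [Matrix.neg_mul, Matrix.trace_neg, Complex.neg_re]; ring
    rw [h2]; linarith
  have hφ : ∀ x ∈ U, ∀ u, ∃ v, fderiv ℝ f x v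
      = 𝒥 x (fderiv ℝ f x u) - indMet s f x u (ξ x) • N x := by
    intro x hx u
    apply hM.codim x hx _ ((hJ.tan x hx _ (tan_df hM hx u)).sub ((hM.tanN x hx).smul _))
    rw [met_sub_right, hη x hx, met_comm (N x) (_ • _), met_smul_left, hM.unitN x hx]
    ring
  choose! F hF using hφ
  refine ⟨ξ, fun x => if hx : x ∈ U then
    { toFun := F x
      map_add' := fun u v => by
        apply hM.immersion x hx
        rw [map_add, hF x hx, hF x hx, hF x hx, map_add,
          hJ.add x hx _ _ (tan_df hM hx u) (tan_df hM hx v)]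
        have : indMet s f x (u + v) (ξ x) = indMet s f x u (ξ x) + indMet s f x v (ξ x) := by
          unfold indMet; rw [map_add, met_add_left]
        rw [this, add_smul]; abel
      map_smul' := fun r u => by
        apply hM.immersion x hx
        rw [map_smul, hF x hx, hF x hx, map_smul, hJ.smul x hx _ _ (tan_df hM hx u)]
        have : indMet s f x (r • u) (ξ x) = r * indMet s f x u (ξ x) := by
          unfold indMet; rw [map_smul, met_smul_left]
        rw [this, mul_smul, RingHom.id_apply, smul_sub] } else 0, ⟨hξ', ?_⟩⟩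
  intro x hx u
  simp only [dif_pos hx, LinearMap.coe_mk, AddHom.coe_mk]
  rw [hF x hx]
  abel

lemma skewField_Jop (hM : IsHypersurface s U f N) : IsSkewField s U f (fun x => Jop (f x)) where
  tan := fun x hx X hX => Jop_tan (hM.mem x hx) hX
  add := fun x hx X Y hX hY => by
    unfold Jop; rw [Matrix.add_mul, Matrix.mul_add, ← smul_add]; congr 1; abel
  smul := fun x hx r X hX => by
    unfold Jop; rw [Matrix.smul_mul, Matrix.mul_smul, ← smul_sub, smul_comm]
  skew := fun x hx X Y hX hY => met_Jop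

lemma skewField_frame (hM : IsHypersurface s U f N) {J : Fin 3 → E → Mat m → Mat m}
    (hJ : ∀ x ∈ U, IsQFrame s (f x) (fun i => J i x)) (i : Fin 3) :
    IsSkewField s U f (J i) where
  tan := fun x hx X hX => (hJ x hx).tan (hM.mem x hx) i hX
  add := fun x hx X Y hX hY => by
    obtain ⟨Q, hQ, h⟩ := (hJ x hx).mem i
    have h' : ∀ X, IsTan s (f x) X → J i x X = X * Q - Q * X := h
    rw [h' X hX, h' Y hY, h' (X + Y) (hX.add hY), Matrix.add_mul, Matrix.mul_add]; abel
  smul := fun x hx r X hX => by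
    obtain ⟨Q, hQ, h⟩ := (hJ x hx).mem i
    have h' : ∀ X, IsTan s (f x) X → J i x X = X * Q - Q * X := h
    rw [h' X hX, h' _ (hX.smul r), Matrix.smul_mul, Matrix.mul_smul, smul_sub]
  skew := fun x hx X Y hX hY => by
    obtain ⟨Q, hQ, h⟩ := (hJ x hx).mem i
    have h' : ∀ X, IsTan s (f x) X → J i x X = X * Q - Q * X := h
    rw [h' X hX, h' Y hY]
    exact met_comm_Q

/-- Every hypersurface carries all the induced objects. -/
theorem exists_all [FiniteDimensional ℝ E] (hs : s = 1 ∨ s = -1) (hM : IsHypersurface s U f N)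
    {J : Fin 3 → E → Mat m → Mat m} (hJ : ∀ x ∈ U, IsQFrame s (f x) (fun i => J i x)) :
    (∃ Γ, IsLeviCivita U (indMet s f) Γ) ∧ (∃ A, IsShape s U f N A) ∧
      (∃ ξ φ, IsInduced s U f N (fun x => Jop (f x)) ξ φ) ∧
      (∀ i, ∃ ξ φ, IsInduced s U f N (J i) ξ φ) :=
  ⟨exists_leviCivita hs hM, exists_shape hs hM, exists_induced hM (skewField_Jop hM),
    fun i => exists_induced hM (skewField_frame hM hJ i)⟩

end Pool.Agent.X181
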