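import Mathlib
import Pool.Agent.X181.LC

/-!
Immersions into the unit sphere of a Euclidean space: second fundamental form, mean curvature,
normal connection, bitension field.
-/

namespace Pool.Agent.X181

open scoped ContDiff RealInnerProductSpace

variable {E F : Type*} [NormedAddCommGroup E] [NormedSpace ℝ E]
  [NormedAddCommGroup F] [InnerProductSpace ℝ F]

/-- `f` is a smooth immersion of the nonempty open set `U` of the vector space `E` into the unit
sphere of the Euclidean space `F`. -/
structure IsSphImmersion (U : Set E) (f : E → F) : Prop where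
  isOpen : IsOpen U
  nonempty : U.Nonempty
  smooth : ContDiffOn ℝ ∞ f U
  unit : ∀ x ∈ U, ‖f x‖ = 1
  immersion : ∀ x ∈ U, Function.Injective (fderiv ℝ f x)

/-- The metric on `E` induced by `f`. -/
noncomputable def fMet (f : E → F) (x u v : E) : ℝ := ⟪fderiv ℝ f x u, fderiv ℝ f x v⟫

/-- The fields `e i` form a smooth orthonormal frame of the induced metric on `U`. -/
structure IsOrthoFrame {ι : Type*} [Fintype ι] (U : Set E) (f : E → F) (e : ι → E → E) :
    Prop where
  card : Fintype.card ι = Module.finrank ℝ E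
  smooth : ∀ i, ContDiffOn ℝ ∞ (e i) U
  unit : ∀ x ∈ U, ∀ i, fMet f x (e i x) (e i x) = 1
  ortho : ∀ x ∈ U, ∀ i j, i ≠ j → fMet f x (e i x) (e j x) = 0

/-- The second fundamental form of `f` as a map to the unit sphere: `B(u,v)` is the difference of
`∇^S_u (df v) = D²f(u,v) + ⟪df u, df v⟫ f` and of `df(∇_u v)`. -/
noncomputable def sphSff (f : E → F) (Γ : E → E →L[ℝ] E →L[ℝ] E) (x u v : E) : F :=
  fderiv ℝ (fderiv ℝ f) x u v + fMet f x u v • f x - fderiv ℝ f x (Γ x u v)

/-- The mean curvature vector field `H = (1/m) trace B` of an immersion to the unit sphere. -/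
noncomputable def sphMean {ι : Type*} [Fintype ι] (f : E → F) (Γ : E → E →L[ℝ] E →L[ℝ] E)
    (e : ι → E → E) (x : E) : F :=
  (1 / (Fintype.card ι : ℝ)) • ∑ i, sphSff f Γ x (e i x) (e i x)

/-- The normal space at `x` of `f` as an immersion to the unit sphere. -/
noncomputable def sphNormal (f : E → F) (x : E) : Submodule ℝ F :=
  (LinearMap.range (fderiv ℝ f x : E →ₗ[ℝ] F) ⊔ Submodule.span ℝ {f x})ᗮ

/-- The normal connection `∇^⊥_u ξ` of a field `ξ` of normal vectors: the orthogonal projection
of the derivative of `ξ` to the normal space. -/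
noncomputable def normD [FiniteDimensional ℝ F] (f ξ : E → F) (x u : E) : F :=
  (sphNormal f x).starProjection (fderiv ℝ ξ x u)

/-- The covariant derivative in the sphere, `∇^φ_u σ`, of a field `σ` of tangent vectors of the
unit sphere along `f`. -/
noncomputable def pullD (f σ : E → F) (x u : E) : F :=
  fderiv ℝ σ x u + ⟪fderiv ℝ f x u, σ x⟫ • f x

/-- The Levi-Civita derivative `∇_u V` of a vector field `V`. -/
noncomputable def covD (Γ : E → E →L[ℝ] E →L[ℝ] E) (V : E → E) (x u : E) : E :=
  fderiv ℝ V x u + Γ x u (V x)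

/-- The Levi-Civita derivative `(∇_u A) v` of a `(1,1)` tensor field `A`. -/
noncomputable def covDA (Γ : E → E →L[ℝ] E →L[ℝ] E) (A : E → E →L[ℝ] E) (x u v : E) : E :=
  fderiv ℝ A x u v + Γ x u (A x v) - A x (Γ x u v)

/-- The curvature tensor of the unit sphere. -/
noncomputable def sphCurv (X Y Z : F) : F := ⟪Y, Z⟫ • X - ⟪X, Z⟫ • Y

/-- `trace ∇² σ = - Δ σ` for a field `σ` of tangent vectors of the unit sphere along `f`. -/
noncomputable def traceHess {ι : Type*} [Fintype ι] (f : E → F) (Γ : E → E →L[ℝ] E →L[ℝ] E)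
    (e : ι → E → E) (σ : E → F) (x : E) : F :=
  ∑ i, (pullD f (fun y => pullD f σ y (e i y)) x (e i x)
    - pullD f σ x (covD Γ (e i) x (e i x)))

/-- The tension field `τ(f) = m H`. -/
noncomputable def sphTension {ι : Type*} [Fintype ι] (f : E → F) (Γ : E → E →L[ℝ] E →L[ℝ] E)
    (e : ι → E → E) (x : E) : F :=
  (Fintype.card ι : ℝ) • sphMean f Γ e x

/-- The bitension field `τ₂(f) = - Δ τ(f) - trace R^S(df, τ(f)) df`. -/
noncomputable def sphBitension {ι : Type*} [Fintype ι] (f : E → F)
    (Γ : E → E →L[ℝ] E →L[ℝ] E) (e : ι → E → E) (x : E) : F :=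
  traceHess f Γ e (sphTension f Γ e) x
    - ∑ i, sphCurv (fderiv ℝ f x (e i x)) (sphTension f Γ e x) (fderiv ℝ f x (e i x))

/-- `f` is a proper biharmonic immersion with parallel mean curvature vector field `H` of `U` into
the unit sphere, with Levi-Civita connection `Γ` and orthonormal frame `e`, and `A` is the shape
operator `A_H`. -/
structure IsPMCBiharmonic {ι : Type*} [Fintype ι] [FiniteDimensional ℝ F] (U : Set E) (f : E → F)
    (Γ : E → E →L[ℝ] E →L[ℝ] E) (e : ι → E → E) (A : E → E →L[ℝ] E) : Prop where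
  immersion : IsSphImmersion U f
  connection : IsLeviCivita U (fMet f) Γ
  frame : IsOrthoFrame U f e
  smooth : ContDiffOn ℝ ∞ A U
  shape : ∀ x ∈ U, ∀ u v, fMet f x (A x u) v = ⟪sphSff f Γ x u v, sphMean f Γ e x⟫
  pmc : ∀ x ∈ U, ∀ u, normD f (sphMean f Γ e) x u = 0
  proper : ∀ x ∈ U, sphMean f Γ e x ≠ 0
  biharmonic : ∀ x ∈ U, sphBitension f Γ e x = 0

end Pool.Agent.X181
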