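import Mathlib
import Pool.Agent.X181.Biharm

/-!
The group `T⁷ × SO(3)` acting on `ℂ⁷ × M₃(ℝ)` and its moving frame.
-/

namespace Pool.Agent.X181.Bi

open Matrix
open scoped ContDiff RealInnerProductSpace Matrix.Norms.Elementwise

attribute [-instance] instTopologicalSpaceMatrix Matrix.instUniformSpace

/-- real `3 × 3` matrices -/
abbrev M3 := Matrix (Fin 3) (Fin 3) ℝ

/-- matrices from nine entries -/
def mk (a b c d e f g h k : ℝ) : M3 := !![a, b, c; d, e, f; g, h, k]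

lemma mk_congr {a b c d e f g h k a' b' c' d' e' f' g' h' k' : ℝ}
    (ha : a = a') (hb : b = b') (hc : c = c') (hd : d = d') (he : e = e') (hf : f = f')
    (hg : g = g') (hh : h = h') (hk : k = k') :
    mk a b c d e f g h k = mk a' b' c' d' e' f' g' h' k' := by
  subst_vars; rfl

lemma mk_eta (X : M3) : X = mk (X 0 0) (X 0 1) (X 0 2) (X 1 0) (X 1 1) (X 1 2)
    (X 2 0) (X 2 1) (X 2 2) := by
  ext i j; fin_cases i <;> fin_cases j <;> rfl

lemma mk_mul (a b c d e f g h k a' b' c' d' e' f' g' h' k' : ℝ) :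
    mk a b c d e f g h k * mk a' b' c' d' e' f' g' h' k' =
      mk (a * a' + b * d' + c * g') (a * b' + b * e' + c * h') (a * c' + b * f' + c * k')
        (d * a' + e * d' + f * g') (d * b' + e * e' + f * h') (d * c' + e * f' + f * k')
        (g * a' + h * d' + k * g') (g * b' + h * e' + k * h') (g * c' + h * f' + k * k') := by
  ext i j; fin_cases i <;> fin_cases j <;> simp [mk, Matrix.mul_apply, Fin.sum_univ_three]

lemma mk_add (a b c d e f g h k a' b' c' d' e' f' g' h' k' : ℝ) :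
    mk a b c d e f g h k + mk a' b' c' d' e' f' g' h' k' =
      mk (a + a') (b + b') (c + c') (d + d') (e + e') (f + f') (g + g') (h + h') (k + k') := by
  ext i j; fin_cases i <;> fin_cases j <;> simp [mk]

lemma mk_sub (a b c d e f g h k a' b' c' d' e' f' g' h' k' : ℝ) :
    mk a b c d e f g h k - mk a' b' c' d' e' f' g' h' k' =
      mk (a - a') (b - b') (c - c') (d - d') (e - e') (f - f') (g - g') (h - h') (k - k') := by
  ext i j; fin_cases i <;> fin_cases j <;> simp [mk]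

lemma mk_smul (r a b c d e f g h k : ℝ) :
    r • mk a b c d e f g h k =
      mk (r * a) (r * b) (r * c) (r * d) (r * e) (r * f) (r * g) (r * h) (r * k) := by
  ext i j; fin_cases i <;> fin_cases j <;> simp [mk]

lemma mk_neg (a b c d e f g h k : ℝ) :
    -mk a b c d e f g h k = mk (-a) (-b) (-c) (-d) (-e) (-f) (-g) (-h) (-k) := by
  ext i j; fin_cases i <;> fin_cases j <;> simp [mk]

lemma mk_one : (1 : M3) = mk 1 0 0 0 1 0 0 0 1 := by
  ext i j; fin_cases i <;> fin_cases j <;> simp [mk]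

lemma mk_transpose (a b c d e f g h k : ℝ) :
    (mk a b c d e f g h k)ᵀ = mk a d g b e h c f k := by
  ext i j; fin_cases i <;> fin_cases j <;> simp [mk]

lemma mk_trace (a b c d e f g h k : ℝ) : (mk a b c d e f g h k).trace = a + e + k := by
  simp [mk, Matrix.trace, Fin.sum_univ_three]

/-- the cross product matrix -/
def sk (w : Fin 3 → ℝ) : M3 := mk 0 (-w 2) (w 1) (w 2) 0 (-w 0) (-w 1) (w 0) 0

lemma sk_add (v w : Fin 3 → ℝ) : sk (v + w) = sk v + sk w := by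
  unfold sk; rw [mk_add]; apply mk_congr <;> simp <;> ring

lemma sk_smul (r : ℝ) (v : Fin 3 → ℝ) : sk (r • v) = r • sk v := by
  unfold sk; rw [mk_smul]; apply mk_congr <;> simp

/-- `sk` as a continuous linear map -/
noncomputable def skL : (Fin 3 → ℝ) →L[ℝ] M3 :=
  LinearMap.toContinuousLinearMap
    { toFun := sk
      map_add' := sk_add
      map_smul' := sk_smul }

lemma skL_apply (w : Fin 3 → ℝ) : skL w = sk w := rfl

lemma sk_transpose (w : Fin 3 → ℝ) : (sk w)ᵀ = -sk w := by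
  unfold sk; rw [mk_transpose, mk_neg]; apply mk_congr <;> simp

/-- `1 + |x|²` -/
def sq (x : Fin 3 → ℝ) : ℝ := 1 + x 0 * x 0 + x 1 * x 1 + x 2 * x 2

lemma sq_pos (x : Fin 3 → ℝ) : 0 < sq x := by
  unfold sq; nlinarith [mul_self_nonneg (x 0), mul_self_nonneg (x 1), mul_self_nonneg (x 2)]

lemma sq_ne (x : Fin 3 → ℝ) : sq x ≠ 0 := (sq_pos x).ne'

/-- the rotation -/
noncomputable def G (x : Fin 3 → ℝ) : M3 := 1 + (2 * (sq x)⁻¹) • (sk x + sk x * sk x)

/-- the angular velocity -/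
noncomputable def om (x u : Fin 3 → ℝ) : Fin 3 → ℝ :=
  ![2 * (sq x)⁻¹ * (u 0 - (x 1 * u 2 - x 2 * u 1)),
    2 * (sq x)⁻¹ * (u 1 - (x 2 * u 0 - x 0 * u 2)),
    2 * (sq x)⁻¹ * (u 2 - (x 0 * u 1 - x 1 * u 0))]

lemma G_eq (x : Fin 3 → ℝ) : (sq x) • G x = mk
    (1 + x 0 * x 0 - x 1 * x 1 - x 2 * x 2) (2 * (x 0 * x 1 - x 2)) (2 * (x 0 * x 2 + x 1))
    (2 * (x 0 * x 1 + x 2)) (1 - x 0 * x 0 + x 1 * x 1 - x 2 * x 2) (2 * (x 1 * x 2 - x 0))
    (2 * (x 0 * x 2 - x 1)) (2 * (x 1 * x 2 + x 0)) (1 - x 0 * x 0 - x 1 * x 1 + x 2 * x 2) := by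
  unfold G
  rw [smul_add, smul_smul]
  have h : sq x * (2 * (sq x)⁻¹) = 2 := by field_simp [sq_ne x]
  rw [h]
  unfold sk
  rw [mk_mul, mk_add, mk_smul, mk_one, mk_smul, mk_add]
  unfold sq
  apply mk_congr <;> ring

lemma G_mul_GT (x : Fin 3 → ℝ) : G x * (G x)ᵀ = 1 := by
  have h : (sq x * sq x) • (G x * (G x)ᵀ) = (sq x * sq x) • (1 : M3) := by
    rw [← smul_smul, ← Matrix.mul_smul, ← Matrix.smul_mul, ← Matrix.transpose_smul, G_eq,
      mk_transpose, mk_mul, mk_one, mk_smul]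
    unfold sq
    apply mk_congr <;> ring
  have h2 : sq x * sq x ≠ 0 := mul_ne_zero (sq_ne x) (sq_ne x)
  exact smul_right_injective _ h2 h

lemma GT_mul_G (x : Fin 3 → ℝ) : (G x)ᵀ * G x = 1 :=
  mul_eq_one_comm.1 (G_mul_GT x)

/-- multiplication of matrices as a continuous bilinear map -/
noncomputable def mulM : M3 →L[ℝ] M3 →L[ℝ] M3 :=
  LinearMap.toContinuousBilinearMap (LinearMap.mul ℝ M3)

lemma mulM_apply (A B : M3) : mulM A B = A * B := rfl

lemma sq_hasFDerivAt (x : Fin 3 → ℝ) : ∃ D : (Fin 3 → ℝ) →L[ℝ] ℝ,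
    HasFDerivAt sq D x ∧ ∀ u, D u = 2 * (x 0 * u 0 + x 1 * u 1 + x 2 * u 2) := by
  have h : ∀ i : Fin 3, HasFDerivAt (fun y : Fin 3 → ℝ => y i)
      (ContinuousLinearMap.proj (R := ℝ) (φ := fun _ : Fin 3 => ℝ) i) x :=
    fun i => hasFDerivAt_apply i x
  refine ⟨_, ((((h 0).mul (h 0)).const_add 1).add ((h 1).mul (h 1))).add ((h 2).mul (h 2)), ?_⟩
  intro u
  simp
  ring

lemma sksk_hasFDerivAt (x : Fin 3 → ℝ) : ∃ D : (Fin 3 → ℝ) →L[ℝ] M3,
    HasFDerivAt (fun y => sk y * sk y) D x ∧ ∀ X, D X = sk x * sk X + sk X * sk x :=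
  ⟨_, mulM.hasFDerivAt_of_bilinear (skL.hasFDerivAt (x := x)) (skL.hasFDerivAt (x := x)),
    fun _ => rfl⟩

lemma G_hasFDerivAt (x : Fin 3 → ℝ) : ∃ D : (Fin 3 → ℝ) →L[ℝ] M3,
    HasFDerivAt G D x ∧ ∀ u, D u = G x * sk (om x u) := by
  obtain ⟨D1, h1, e1⟩ := sq_hasFDerivAt x
  obtain ⟨D2, h2, e2⟩ := sksk_hasFDerivAt x
  have h3 : HasFDerivAt (fun y => sk y + sk y * sk y) (skL + D2) x :=
    (skL.hasFDerivAt (x := x)).add h2
  have h4 : HasFDerivAt (fun y => 2 * (sq y)⁻¹) ((2 : ℝ) • (-(sq x ^ 2)⁻¹ • D1)) x :=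
    ((hasDerivAt_inv (sq_ne x)).comp_hasFDerivAt x h1).const_mul 2
  have h5 := (h4.smul h3).const_add (1 : M3)
  refine ⟨_, h5, ?_⟩
  intro u
  have e3 : ((2 * (sq x)⁻¹) • (skL + D2) +
      ((2 : ℝ) • (-(sq x ^ 2)⁻¹ • D1)).smulRight (sk x + sk x * sk x)) u
      = (2 * (sq x)⁻¹) • (sk u + (sk x * sk u + sk u * sk x))
        + (2 * (-(sq x ^ 2)⁻¹ * (2 * (x 0 * u 0 + x 1 * u 1 + x 2 * u 2)))) •
          (sk x + sk x * sk x) := by
    simp [e1, e2, skL_apply]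
  refine e3.trans ?_
  have hs := sq_ne x
  have h6 : (sq x * sq x) • ((2 * (sq x)⁻¹) • (sk u + (sk x * sk u + sk u * sk x))
        + (2 * (-(sq x ^ 2)⁻¹ * (2 * (x 0 * u 0 + x 1 * u 1 + x 2 * u 2)))) •
          (sk x + sk x * sk x)) = (sq x * sq x) • (G x * sk (om x u)) := by
    have h7 : sq x • sk (om x u) = mk 0 (-(2 * (u 2 - (x 0 * u 1 - x 1 * u 0))))
        (2 * (u 1 - (x 2 * u 0 - x 0 * u 2))) (2 * (u 2 - (x 0 * u 1 - x 1 * u 0))) 0
        (-(2 * (u 0 - (x 1 * u 2 - x 2 * u 1)))) (-(2 * (u 1 - (x 2 * u 0 - x 0 * u 2))))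
        (2 * (u 0 - (x 1 * u 2 - x 2 * u 1))) 0 := by
      unfold sk om
      rw [mk_smul]
      apply mk_congr <;> simp <;> field_simp
    have h8 : (sq x * sq x) • (G x * sk (om x u)) = (sq x • G x) * (sq x • sk (om x u)) := by
      rw [Matrix.smul_mul, Matrix.mul_smul, smul_smul]
    rw [h8, h7, G_eq, mk_mul]
    rw [smul_add, smul_smul, smul_smul]
    have h9 : sq x * sq x * (2 * (sq x)⁻¹) = 2 * sq x := by field_simp
    have h10 : sq x * sq x * (2 * (-(sq x ^ 2)⁻¹ * (2 * (x 0 * u 0 + x 1 * u 1 + x 2 * u 2))))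
        = -4 * (x 0 * u 0 + x 1 * u 1 + x 2 * u 2) := by field_simp; ring
    rw [h9, h10]
    unfold sk
    rw [mk_mul, mk_mul, mk_mul, mk_add, mk_add, mk_add, mk_smul, mk_smul, mk_add]
    unfold sq
    apply mk_congr <;> ring
  exact smul_right_injective _ (mul_ne_zero hs hs) h6

end Pool.Agent.X181.Bi
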