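import Mathlib
import Pool.Agent.X181.BiCalc

/-!
The moving frame of the action of `T⁷ × SO(3)` on `ℂ⁷ × M₃(ℝ)`.
-/

namespace Pool.Agent.X181.Bi

open Matrix
open scoped ContDiff RealInnerProductSpace Matrix.Norms.Elementwise

attribute [-instance] instTopologicalSpaceMatrix Matrix.instUniformSpace

/-- parameter space: the ten-dimensional manifold `ℝ⁷ × ℝ³` -/
abbrev E := (Fin 7 → ℝ) × (Fin 3 → ℝ)

/-- representation space -/
abbrev K := (Fin 7 → ℂ) × M3

/-- Euclidean space of dimension 23 -/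
abbrev F := EuclideanSpace ℝ ((Fin 7 × Fin 2) ⊕ (Fin 3 × Fin 3))

/-- the coordinates -/
noncomputable def mkFun (c : K) : F :=
  WithLp.toLp 2 (Sum.elim (fun p : Fin 7 × Fin 2 => if p.2 = 0 then (c.1 p.1).re else (c.1 p.1).im)
    (fun p : Fin 3 × Fin 3 => c.2 p.1 p.2))

/-- the coordinates as a continuous linear map -/
noncomputable def mkF : K →L[ℝ] F :=
  LinearMap.toContinuousLinearMap
    { toFun := mkFun
      map_add' := fun c d => by
        ext s
        rcases s with ⟨j, k⟩ | ⟨i, k⟩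
        · by_cases h : k = 0 <;> simp [mkFun, h]
        · simp [mkFun]
      map_smul' := fun r c => by
        ext s
        rcases s with ⟨j, k⟩ | ⟨i, k⟩
        · by_cases h : k = 0 <;> simp [mkFun, h]
        · simp [mkFun] }

/-- the inner product of `K` -/
noncomputable def ip (c d : K) : ℝ :=
  (∑ j, ((c.1 j).re * (d.1 j).re + (c.1 j).im * (d.1 j).im)) + (c.2 * (d.2)ᵀ).trace

lemma inner_mkF (c d : K) : ⟪mkF c, mkF d⟫ = ip c d := by
  have h : ⟪mkF c, mkF d⟫ = ∑ s, (mkFun c s) * (mkFun d s) := by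
    rw [PiLp.inner_apply]
    apply Finset.sum_congr rfl
    intro s _
    change mkFun d s * mkFun c s = _
    ring
  rw [h, Fintype.sum_sum_type, Fintype.sum_prod_type, Fintype.sum_prod_type]
  unfold ip
  congr 1
  · apply Finset.sum_congr rfl
    intro j _
    rw [Fin.sum_univ_two]
    simp [mkFun]

lemma ip_add_left (a b c : K) : ip (a + b) c = ip a c + ip b c := by
  rw [← inner_mkF, ← inner_mkF, ← inner_mkF, map_add, inner_add_left]

lemma ip_add_right (a b c : K) : ip a (b + c) = ip a b + ip a c := by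
  rw [← inner_mkF, ← inner_mkF, ← inner_mkF, map_add, inner_add_right]

lemma ip_smul_left (r : ℝ) (b c : K) : ip (r • b) c = r * ip b c := by
  rw [← inner_mkF, ← inner_mkF, map_smul, inner_smul_left]; rfl

lemma ip_smul_right (r : ℝ) (b c : K) : ip b (r • c) = r * ip b c := by
  rw [← inner_mkF, ← inner_mkF, map_smul, inner_smul_right]

lemma ip_comm (b c : K) : ip b c = ip c b := by
  rw [← inner_mkF, ← inner_mkF, real_inner_comm]

lemma ip_self_eq_zero {c : K} (h : ip c c = 0) : c = 0 := by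
  rw [← inner_mkF] at h
  have h1 : mkF c = 0 := inner_self_eq_zero.1 h
  have h2 : ∀ s, mkFun c s = 0 := fun s => congrArg (fun v : F => v s) h1
  apply Prod.ext
  · funext j
    apply Complex.ext
    · simpa [mkFun] using h2 (Sum.inl (j, 0))
    · simpa [mkFun] using h2 (Sum.inl (j, 1))
  · ext i k
    simpa [mkFun] using h2 (Sum.inr (i, k))

/-- the action of the group -/
noncomputable def RFun (x : E) (c : K) : K :=
  (fun j => Complex.exp (x.1 j * Complex.I) * c.1 j, G x.2 * c.2 * (G x.2)ᵀ)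

/-- the action of the group -/
noncomputable def R (x : E) : K →L[ℝ] K :=
  LinearMap.toContinuousLinearMap
    { toFun := RFun x
      map_add' := fun c d => by
        apply Prod.ext
        · funext j
          simp [RFun]; ring
        · simp [RFun, Matrix.mul_add, Matrix.add_mul]
      map_smul' := fun r c => by
        apply Prod.ext
        · funext j
          simp [RFun]; ring
        · simp [RFun] }

lemma R_apply (x : E) (c : K) : R x c = RFun x c := rfl

lemma ip_R (x : E) (c d : K) : ip (R x c) (R x d) = ip c d := by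
  unfold ip
  rw [R_apply, R_apply]
  congr 1
  · apply Finset.sum_congr rfl
    intro j _
    have h : ∀ z w : ℂ, z.re * w.re + z.im * w.im = ((starRingEnd ℂ) z * w).re := by
      intro z w; simp
    rw [h, h]
    have h1 : (starRingEnd ℂ) (Complex.exp (x.1 j * Complex.I)) * Complex.exp (x.1 j * Complex.I)
        = 1 := by
      rw [← Complex.exp_conj, ← Complex.exp_add]; simp
    congr 1
    simp only [RFun, map_mul]
    calc _ = ((starRingEnd ℂ) (Complex.exp (x.1 j * Complex.I))
        * Complex.exp (x.1 j * Complex.I)) * ((starRingEnd ℂ) (c.1 j) * d.1 j) := by ring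
      _ = _ := by rw [h1, one_mul]
  · simp only [RFun, Matrix.transpose_mul, Matrix.transpose_transpose]
    calc _ = (G x.2 * (c.2 * ((G x.2)ᵀ * G x.2) * (d.2)ᵀ) * (G x.2)ᵀ).trace := by
          congr 1; simp only [Matrix.mul_assoc]
      _ = _ := by
          rw [GT_mul_G, Matrix.mul_one, Matrix.trace_mul_comm, ← Matrix.mul_assoc, GT_mul_G,
            Matrix.one_mul]

/-- the action of the Lie algebra -/
noncomputable def L (w : E) (c : K) : K :=
  (fun j => w.1 j * Complex.I * c.1 j, sk w.2 * c.2 - c.2 * sk w.2)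

lemma L_add_left (v w : E) (c : K) : L (v + w) c = L v c + L w c := by
  apply Prod.ext
  · funext j
    simp [L]; ring
  · simp only [L, Prod.snd_add, sk_add]
    rw [Matrix.add_mul, Matrix.mul_add]; abel

lemma L_smul_left (r : ℝ) (w : E) (c : K) : L (r • w) c = r • L w c := by
  apply Prod.ext
  · funext j
    simp [L]; ring
  · simp only [L, Prod.smul_snd, sk_smul]
    rw [Matrix.smul_mul, Matrix.mul_smul, smul_sub]

lemma L_add_right (v : E) (c d : K) : L v (c + d) = L v c + L v d := by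
  apply Prod.ext
  · funext j
    simp [L]; ring
  · simp only [L, Prod.snd_add]
    rw [Matrix.add_mul, Matrix.mul_add]; abel

lemma L_smul_right (r : ℝ) (w : E) (c : K) : L w (r • c) = r • L w c := by
  apply Prod.ext
  · funext j
    simp [L]; ring
  · simp only [L, Prod.smul_snd]
    rw [Matrix.smul_mul, Matrix.mul_smul, smul_sub]

lemma L_skew (w : E) (c d : K) : ip (L w c) d = -ip c (L w d) := by
  unfold ip L
  rw [neg_add]
  congr 1
  · rw [← Finset.sum_neg_distrib]
    apply Finset.sum_congr rfl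
    intro j _
    simp; ring
  · simp only [Matrix.transpose_sub, Matrix.transpose_mul, sk_transpose, Matrix.sub_mul,
      Matrix.mul_sub, Matrix.trace_sub, Matrix.mul_neg, Matrix.neg_mul, Matrix.trace_neg]
    have h1 : (sk w.2 * c.2 * (d.2)ᵀ).trace = (c.2 * ((d.2)ᵀ * sk w.2)).trace := by
      rw [Matrix.mul_assoc, Matrix.trace_mul_comm, Matrix.mul_assoc]
    rw [h1, Matrix.mul_assoc]
    ring

/-- `L` as a bilinear map -/
noncomputable def LL : E →L[ℝ] K →L[ℝ] K :=
  LinearMap.toContinuousBilinearMap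
    (LinearMap.mk₂ ℝ L L_add_left L_smul_left L_add_right L_smul_right)

lemma LL_apply (w : E) (c : K) : LL w c = L w c := rfl

/-- the Maurer-Cartan form as a function -/
noncomputable def OmFun (x u : E) : E := (u.1, om x.2 u.2)

lemma om_add (x u v : Fin 3 → ℝ) : om x (u + v) = om x u + om x v := by
  funext i; fin_cases i <;> simp [om] <;> ring

lemma om_smul (r : ℝ) (x u : Fin 3 → ℝ) : om x (r • u) = r • om x u := by
  funext i; fin_cases i <;> simp [om] <;> ring

/-- the Maurer-Cartan form -/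
noncomputable def Om (x : E) : E →L[ℝ] E :=
  LinearMap.toContinuousLinearMap
    { toFun := OmFun x
      map_add' := fun _ _ => Prod.ext rfl (om_add _ _ _)
      map_smul' := fun _ _ => Prod.ext rfl (om_smul _ _ _) }

lemma Om_apply (x u : E) : Om x u = OmFun x u := rfl

/-- the inverse of the Maurer-Cartan form -/
noncomputable def oi (x w : Fin 3 → ℝ) : Fin 3 → ℝ :=
  ![(1 / 2) * (w 0 + (x 1 * w 2 - x 2 * w 1) + (x 0 * w 0 + x 1 * w 1 + x 2 * w 2) * x 0),
    (1 / 2) * (w 1 + (x 2 * w 0 - x 0 * w 2) + (x 0 * w 0 + x 1 * w 1 + x 2 * w 2) * x 1),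
    (1 / 2) * (w 2 + (x 0 * w 1 - x 1 * w 0) + (x 0 * w 0 + x 1 * w 1 + x 2 * w 2) * x 2)]

lemma oi_add (x u v : Fin 3 → ℝ) : oi x (u + v) = oi x u + oi x v := by
  funext i; fin_cases i <;> simp [oi] <;> ring

lemma oi_smul (r : ℝ) (x u : Fin 3 → ℝ) : oi x (r • u) = r • oi x u := by
  funext i; fin_cases i <;> simp [oi] <;> ring

/-- the inverse of the Maurer-Cartan form -/
noncomputable def Oi (x : E) : E →L[ℝ] E :=
  LinearMap.toContinuousLinearMap
    { toFun := fun u => (u.1, oi x.2 u.2)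
      map_add' := fun _ _ => Prod.ext rfl (oi_add _ _ _)
      map_smul' := fun _ _ => Prod.ext rfl (oi_smul _ _ _) }

lemma Oi_apply (x u : E) : Oi x u = (u.1, oi x.2 u.2) := rfl

lemma om_oi (x w : Fin 3 → ℝ) : om x (oi x w) = w := by
  have h := sq_ne x
  funext i
  fin_cases i <;> simp [om, oi] <;> field_simp <;> unfold sq <;> ring

lemma oi_om (x w : Fin 3 → ℝ) : oi x (om x w) = w := by
  have h := sq_ne x
  funext i
  fin_cases i <;> simp [om, oi] <;> field_simp <;> unfold sq <;> ring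

lemma Om_Oi (x u : E) : Om x (Oi x u) = u := Prod.ext rfl (om_oi _ _)

lemma Oi_Om (x u : E) : Oi x (Om x u) = u := Prod.ext rfl (oi_om _ _)

lemma R_hasFDerivAt (c : K) (x : E) : ∃ D : E →L[ℝ] K,
    HasFDerivAt (fun y => R y c) D x ∧ ∀ u, D u = R x (L (Om x u) c) := by
  obtain ⟨D1, h1, e1⟩ := G_hasFDerivAt x.2
  have h2 : HasFDerivAt (fun y : E => G y.2) (D1.comp (ContinuousLinearMap.snd ℝ _ _)) x :=
    h1.comp x hasFDerivAt_snd
  have h3 : HasFDerivAt (fun y : E => G y.2 * c.2)
      ((mulM.flip c.2).comp (D1.comp (ContinuousLinearMap.snd ℝ _ _))) x :=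
    (mulM.flip c.2).hasFDerivAt.comp x h2
  have h4 : HasFDerivAt (fun y : E => (G y.2)ᵀ)
      ((LinearMap.toContinuousLinearMap
        ((Matrix.transposeLinearEquiv (Fin 3) (Fin 3) ℝ ℝ) : M3 →ₗ[ℝ] M3)).comp
        (D1.comp (ContinuousLinearMap.snd ℝ _ _))) x :=
    (LinearMap.toContinuousLinearMap
        ((Matrix.transposeLinearEquiv (Fin 3) (Fin 3) ℝ ℝ) : M3 →ₗ[ℝ] M3)).hasFDerivAt.comp x h2
  have h5 := mulM.hasFDerivAt_of_bilinear h3 h4
  have h6 : ∀ j : Fin 7, ∃ D : E →L[ℝ] ℂ,
      HasFDerivAt (fun y : E => Complex.exp (y.1 j * Complex.I) * c.1 j) D x ∧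
      ∀ u, D u = Complex.exp (x.1 j * Complex.I) * (u.1 j * Complex.I * c.1 j) := by
    intro j
    have g0 : HasFDerivAt (fun y : E => y.1) (ContinuousLinearMap.fst ℝ (Fin 7 → ℝ) (Fin 3 → ℝ)) x :=
      hasFDerivAt_fst
    have g1 : HasFDerivAt (fun y : E => y.1 j)
        ((ContinuousLinearMap.proj (R := ℝ) (φ := fun _ : Fin 7 => ℝ) j).comp
          (ContinuousLinearMap.fst ℝ (Fin 7 → ℝ) (Fin 3 → ℝ))) x := by
      have g := (hasFDerivAt_pi'.1 g0) j
      exact g
    have g2 : HasFDerivAt (fun y : E => (y.1 j : ℂ))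
        (Complex.ofRealCLM.comp ((ContinuousLinearMap.proj (R := ℝ) (φ := fun _ : Fin 7 => ℝ) j).comp
          (ContinuousLinearMap.fst ℝ _ _))) x :=
      Complex.ofRealCLM.hasFDerivAt.comp x g1
    have g3 := ((g2.mul_const Complex.I).cexp).mul_const (c.1 j)
    refine ⟨_, g3, ?_⟩
    intro u
    simp
    ring
  choose D6 h6 e6 using h6
  have h7 : HasFDerivAt (fun (y : E) (j : Fin 7) => Complex.exp (y.1 j * Complex.I) * c.1 j)
      (ContinuousLinearMap.pi D6) x := hasFDerivAt_pi.2 h6
  refine ⟨_, h7.prodMk h5, ?_⟩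
  intro u
  apply Prod.ext
  · funext j
    exact e6 j u
  · have e5 : ((ContinuousLinearMap.precompR E mulM) (G x.2 * c.2)
        ((LinearMap.toContinuousLinearMap
        ((Matrix.transposeLinearEquiv (Fin 3) (Fin 3) ℝ ℝ) : M3 →ₗ[ℝ] M3)).comp
        (D1.comp (ContinuousLinearMap.snd ℝ (Fin 7 → ℝ) (Fin 3 → ℝ)))) +
        (ContinuousLinearMap.precompL E mulM) ((mulM.flip c.2).comp
          (D1.comp (ContinuousLinearMap.snd ℝ (Fin 7 → ℝ) (Fin 3 → ℝ)))) ((G x.2)ᵀ)) u
      = G x.2 * c.2 * (D1 u.2)ᵀ + D1 u.2 * c.2 * (G x.2)ᵀ := rfl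
    refine e5.trans ?_
    rw [e1]
    simp only [R_apply, RFun, L, Om_apply, OmFun, Matrix.transpose_mul, sk_transpose]
    simp only [Matrix.mul_sub, Matrix.sub_mul, Matrix.neg_mul, Matrix.mul_neg, Matrix.mul_assoc]
    abel

end Pool.Agent.X181.Bi
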