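import Mathlib
import Pool.Agent.X181.BiFrame

/-!
The immersion of `ℝ⁷ × ℝ³` into the unit sphere `S²²`.
-/

namespace Pool.Agent.X181.Bi

open Matrix
open scoped ContDiff RealInnerProductSpace Matrix.Norms.Elementwise

attribute [-instance] instTopologicalSpaceMatrix Matrix.instUniformSpace

lemma skL_smooth : ContDiff ℝ ∞ (fun x : Fin 3 → ℝ => sk x) := skL.contDiff

lemma mulM_smooth {X : Type*} [NormedAddCommGroup X] [NormedSpace ℝ X] {a b : X → M3}
    (ha : ContDiff ℝ ∞ a) (hb : ContDiff ℝ ∞ b) : ContDiff ℝ ∞ (fun y => a y * b y) :=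
  mulM.isBoundedBilinearMap.contDiff.comp (ha.prodMk hb)

lemma sq_smooth : ContDiff ℝ ∞ sq := by
  unfold sq; fun_prop

lemma sqi_smooth : ContDiff ℝ ∞ (fun x => 2 * (sq x)⁻¹) :=
  contDiff_const.mul (sq_smooth.inv sq_ne)

lemma G_smooth : ContDiff ℝ ∞ G := by
  have h := sqi_smooth.smul (skL_smooth.add (mulM_smooth skL_smooth skL_smooth))
  exact contDiff_const.add h

lemma RFun_smooth (c : K) : ContDiff ℝ ∞ (fun x : E => R x c) := by
  have h1 : ContDiff ℝ ∞ (fun x : E => G x.2) := G_smooth.comp contDiff_snd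
  have h2 : ContDiff ℝ ∞ (fun x : E => (G x.2)ᵀ) :=
    (LinearMap.toContinuousLinearMap
        ((Matrix.transposeLinearEquiv (Fin 3) (Fin 3) ℝ ℝ) : M3 →ₗ[ℝ] M3)).contDiff.comp h1
  have h3 : ContDiff ℝ ∞ (fun x : E => G x.2 * c.2 * (G x.2)ᵀ) :=
    mulM_smooth (mulM_smooth h1 contDiff_const) h2
  have h4 : ContDiff ℝ ∞ (fun (x : E) (j : Fin 7) => Complex.exp (x.1 j * Complex.I) * c.1 j) := by
    rw [contDiff_pi]
    intro j
    have h5 : ContDiff ℝ ∞ (fun x : E => x.1 j) :=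
      (contDiff_apply ℝ ℝ j).comp contDiff_fst
    have h6 : ContDiff ℝ ∞ (fun x : E => (x.1 j : ℂ)) := Complex.ofRealCLM.contDiff.comp h5
    exact ((h6.mul contDiff_const).cexp).mul contDiff_const
  exact h4.prodMk h3

lemma R_smooth : ContDiff ℝ ∞ R := by
  rw [contDiff_clm_apply_iff]
  exact RFun_smooth

lemma om_smooth (u : Fin 3 → ℝ) : ContDiff ℝ ∞ (fun x => om x u) := by
  rw [contDiff_pi]
  have h := sqi_smooth
  intro i
  fin_cases i
  · have g : ContDiff ℝ ∞ (fun x : Fin 3 → ℝ => u 0 - (x 1 * u 2 - x 2 * u 1)) := by fun_prop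
    exact h.mul g
  · have g : ContDiff ℝ ∞ (fun x : Fin 3 → ℝ => u 1 - (x 2 * u 0 - x 0 * u 2)) := by fun_prop
    exact h.mul g
  · have g : ContDiff ℝ ∞ (fun x : Fin 3 → ℝ => u 2 - (x 0 * u 1 - x 1 * u 0)) := by fun_prop
    exact h.mul g

lemma oi_smooth (u : Fin 3 → ℝ) : ContDiff ℝ ∞ (fun x => oi x u) := by
  rw [contDiff_pi]
  intro i
  fin_cases i
  · have g : ContDiff ℝ ∞ (fun w : Fin 3 → ℝ => (1 / 2) * (u 0 + (w 1 * u 2 - w 2 * u 1)
      + (w 0 * u 0 + w 1 * u 1 + w 2 * u 2) * w 0)) := by fun_prop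
    exact g
  · have g : ContDiff ℝ ∞ (fun w : Fin 3 → ℝ => (1 / 2) * (u 1 + (w 2 * u 0 - w 0 * u 2)
      + (w 0 * u 0 + w 1 * u 1 + w 2 * u 2) * w 1)) := by fun_prop
    exact g
  · have g : ContDiff ℝ ∞ (fun w : Fin 3 → ℝ => (1 / 2) * (u 2 + (w 0 * u 1 - w 1 * u 0)
      + (w 0 * u 0 + w 1 * u 1 + w 2 * u 2) * w 2)) := by fun_prop
    exact g

lemma Om_smooth : ContDiff ℝ ∞ Om := by
  rw [contDiff_clm_apply_iff]
  intro u
  exact contDiff_const.prodMk ((om_smooth u.2).comp contDiff_snd)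

lemma Oi_smooth : ContDiff ℝ ∞ Oi := by
  rw [contDiff_clm_apply_iff]
  intro u
  exact contDiff_const.prodMk ((oi_smooth u.2).comp contDiff_snd)

lemma R_fderiv (x u : E) (c : K) : fderiv ℝ R x u c = R x (L (Om x u) c) := by
  obtain ⟨D, h1, e1⟩ := R_hasFDerivAt c x
  have h2 : HasFDerivAt R (fderiv ℝ R x) x :=
    (R_smooth.differentiable (by simp)).differentiableAt.hasFDerivAt
  have h3 : HasFDerivAt (fun y => R y c) ((ContinuousLinearMap.apply ℝ K c).comp (fderiv ℝ R x)) x :=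
    (ContinuousLinearMap.apply ℝ K c).hasFDerivAt.comp x h2
  rw [← e1, ← h3.unique h1]
  rfl

/-- derivative of a moving vector -/
lemma dmk {c : E → K} {x : E} {c' : E →L[ℝ] K} (hc : HasFDerivAt c c' x) (u : E) :
    fderiv ℝ (fun y => mkF (R y (c y))) x u = mkF (R x (L (Om x u) (c x) + c' u)) := by
  have h2 : HasFDerivAt R (fderiv ℝ R x) x :=
    (R_smooth.differentiable (by simp)).differentiableAt.hasFDerivAt
  have h3 := h2.clm_apply hc
  have h4 : HasFDerivAt (fun y => mkF (R y (c y))) _ x := mkF.hasFDerivAt.comp x h3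
  rw [h4.fderiv]
  change mkF (R x (c' u) + fderiv ℝ R x u (c x)) = _
  rw [R_fderiv, map_add (R x), add_comm]

lemma dmk_const (c : K) (x u : E) :
    fderiv ℝ (fun y => mkF (R y c)) x u = mkF (R x (L (Om x u) c)) := by
  rw [dmk (hasFDerivAt_const c x)]
  simp

lemma mk_smooth {c : E → K} (hc : ContDiff ℝ ∞ c) : ContDiff ℝ ∞ (fun y => mkF (R y (c y))) :=
  mkF.contDiff.comp (R_smooth.clm_apply hc)

lemma inner_mk (c d : K) (x : E) : ⟪mkF (R x c), mkF (R x d)⟫ = ip c d := by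
  rw [inner_mkF, ip_R]

lemma mk_inj {c d : K} {x : E} (h : mkF (R x c) = mkF (R x d)) : c = d := by
  have h1 : mkF (R x (c - d)) = 0 := by rw [map_sub, map_sub, h, sub_self]
  have h2 : ip (c - d) (c - d) = 0 := by rw [← inner_mk _ _ x, h1, inner_zero_left]
  exact sub_eq_zero.1 (ip_self_eq_zero h2)

/-! constants -/

/-- radius of the circles -/
noncomputable def rho : ℝ := √15 / 15
/-- scale of the matrices -/
noncomputable def kap : ℝ := √2 / 6
/-- the parameter `3 / √5` -/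
noncomputable def tt : ℝ := 3 * √5 / 5

lemma rho_sq : rho * rho = 1 / 15 := by
  unfold rho
  have := Real.mul_self_sqrt (show (0 : ℝ) ≤ 15 by norm_num)
  linear_combination this / 225

lemma kap_sq : kap * kap = 1 / 18 := by
  unfold kap
  have := Real.mul_self_sqrt (show (0 : ℝ) ≤ 2 by norm_num)
  linear_combination this / 36

lemma tt_sq : tt * tt = 9 / 5 := by
  unfold tt
  have := Real.mul_self_sqrt (show (0 : ℝ) ≤ 5 by norm_num)
  linear_combination 9 * this / 25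

/-- base point -/
noncomputable def c0 : K := (fun _ => (rho : ℂ),
  mk (kap * (-2)) 0 0 0 (kap * (1 + tt)) 0 0 0 (kap * (1 - tt)))

/-- mean curvature vector at the base point -/
noncomputable def h0 : K := (fun _ => ((-(rho / 2) : ℝ) : ℂ),
  mk (kap * (-1 / 2)) 0 0 0 (kap * ((1 + 3 * tt) / 4)) 0 0 0 (kap * ((1 - 3 * tt) / 4)))

/-- tangential part -/
noncomputable def be (u v : E) : E := (0,
  ![5 * tt / 18 * (u.2 1 * v.2 2 * (3 + tt) + u.2 2 * v.2 1 * (3 - tt)),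
    5 / 36 * (3 + tt) * (-2 * tt * (u.2 2 * v.2 0) - (3 + tt) * (u.2 0 * v.2 2)),
    5 / 36 * (3 - tt) * ((3 - tt) * (u.2 0 * v.2 1) - 2 * tt * (u.2 1 * v.2 0))])

/-- normal part -/
noncomputable def nr (u v : E) : K := (fun j => ((-(rho * (u.1 j * v.1 j)) : ℝ) : ℂ),
  mk (2 * kap * (u.2 2 * v.2 2 * (3 + tt) + u.2 1 * v.2 1 * (3 - tt))) 0 0 0
    (2 * kap * (-(u.2 2 * v.2 2 * (3 + tt)) - 2 * tt * (u.2 0 * v.2 0))) 0 0 0
    (2 * kap * (-(u.2 1 * v.2 1 * (3 - tt)) + 2 * tt * (u.2 0 * v.2 0))))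

lemma L_c0 (w : E) : L w c0 = (fun j => ((rho * w.1 j : ℝ) : ℂ) * Complex.I,
    mk 0 (-(w.2 2 * (kap * (3 + tt)))) (w.2 1 * (kap * (3 - tt)))
      (-(w.2 2 * (kap * (3 + tt)))) 0 (w.2 0 * (kap * (2 * tt)))
      (w.2 1 * (kap * (3 - tt))) (w.2 0 * (kap * (2 * tt))) 0) := by
  apply Prod.ext
  · funext j
    simp only [L, c0]; push_cast; ring
  · simp only [L, c0, sk, mk_mul, mk_sub]
    apply mk_congr <;> ring

lemma L_L_c0 (u v : E) : L u (L v c0) = L (be u v) c0 + nr u v := by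
  rw [L_c0 v, L_c0 (be u v)]
  have ht := tt_sq
  apply Prod.ext
  · funext j
    simp only [L, nr, be, Prod.fst_add, Pi.add_apply, Pi.zero_apply]
    push_cast
    linear_combination (rho * u.1 j * v.1 j : ℂ) * Complex.I_mul_I
  · simp only [L, nr, be, sk, mk_mul, mk_sub, Prod.snd_add, mk_add]
    apply mk_congr
    · simp; ring
    · simp
      linear_combination (-kap * (5 / 36) * ((3 - tt) * (u.2 0 * v.2 1)
        - 2 * tt * (u.2 1 * v.2 0))) * ht
    · simp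
      linear_combination (kap * (5 / 36) * (-2 * tt * (u.2 2 * v.2 0)
        - (3 + tt) * (u.2 0 * v.2 2))) * ht
    · simp
      linear_combination (-kap * (5 / 36) * ((3 - tt) * (u.2 0 * v.2 1)
        - 2 * tt * (u.2 1 * v.2 0))) * ht
    · simp; ring
    · simp
      linear_combination (-kap * (5 / 9) * (u.2 1 * v.2 2 * (3 + tt)
        + u.2 2 * v.2 1 * (3 - tt))) * ht
    · simp
      linear_combination (kap * (5 / 36) * (-2 * tt * (u.2 2 * v.2 0)
        - (3 + tt) * (u.2 0 * v.2 2))) * ht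
    · simp
      linear_combination (-kap * (5 / 9) * (u.2 1 * v.2 2 * (3 + tt)
        + u.2 2 * v.2 1 * (3 - tt))) * ht
    · simp; ring

lemma ip_L_L (v w : E) : ip (L v c0) (L w c0) = (∑ j, v.1 j * w.1 j) / 15
    + 4 / 5 * (v.2 0 * w.2 0) + (3 - tt) ^ 2 / 9 * (v.2 1 * w.2 1)
    + (3 + tt) ^ 2 / 9 * (v.2 2 * w.2 2) := by
  rw [L_c0, L_c0]
  unfold ip
  simp only [mk_transpose, mk_mul, mk_trace]
  have h1 : ∑ j, ((((rho * v.1 j : ℝ) : ℂ) * Complex.I).re * (((rho * w.1 j : ℝ) : ℂ) * Complex.I).re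
      + (((rho * v.1 j : ℝ) : ℂ) * Complex.I).im * (((rho * w.1 j : ℝ) : ℂ) * Complex.I).im)
      = (∑ j, v.1 j * w.1 j) / 15 := by
    rw [Finset.sum_div]
    apply Finset.sum_congr rfl
    intro j _
    simp
    linear_combination (v.1 j * w.1 j) * rho_sq
  rw [h1]
  have ht := tt_sq
  have hk := kap_sq
  linear_combination (2 * (3 + tt) ^ 2 * (v.2 2 * w.2 2) + 2 * (3 - tt) ^ 2 * (v.2 1 * w.2 1)
    + 8 * tt ^ 2 * (v.2 0 * w.2 0)) * hk + (4 / 9) * (v.2 0 * w.2 0) * ht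

end Pool.Agent.X181.Bi
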