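import Mathlib
import Pool.Agent.X181.BiMain

/-!
The immersion of `ℝ⁷ × ℝ³` into the unit sphere `S²²`: geometry.
-/

namespace Pool.Agent.X181.Bi

open Matrix
open scoped ContDiff RealInnerProductSpace Matrix.Norms.Elementwise

attribute [-instance] instTopologicalSpaceMatrix Matrix.instUniformSpace

/-- the immersion -/
noncomputable def f (x : E) : F := mkF (R x c0)

lemma f_smooth : ContDiff ℝ ∞ f := mk_smooth contDiff_const

lemma df (x u : E) : fderiv ℝ f x u = mkF (R x (L (Om x u) c0)) := dmk_const c0 x u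

lemma fMet_eq (x u v : E) : fMet f x u v = ip (L (Om x u) c0) (L (Om x v) c0) := by
  unfold fMet
  rw [df, df, inner_mk]

lemma tt_pos : 0 < tt := by unfold tt; positivity

lemma tt_lt : tt < 3 := by
  have h := tt_sq
  have h2 := tt_pos
  nlinarith

lemma L_inj {w : E} (h : ip (L w c0) (L w c0) = 0) : w = 0 := by
  rw [ip_L_L] at h
  have h3 : 0 < (3 - tt) ^ 2 / 9 := by
    have := tt_lt
    have : 0 < 3 - tt := by linarith
    positivity
  have h4 : 0 < (3 + tt) ^ 2 / 9 := by
    have := tt_pos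
    positivity
  have s1 : 0 ≤ ∑ j, w.1 j * w.1 j := Finset.sum_nonneg fun j _ => mul_self_nonneg _
  have s2 : 0 ≤ 4 / 5 * (w.2 0 * w.2 0) := by have := mul_self_nonneg (w.2 0); positivity
  have s3 : 0 ≤ (3 - tt) ^ 2 / 9 * (w.2 1 * w.2 1) :=
    mul_nonneg h3.le (mul_self_nonneg _)
  have s4 : 0 ≤ (3 + tt) ^ 2 / 9 * (w.2 2 * w.2 2) :=
    mul_nonneg h4.le (mul_self_nonneg _)
  have e1 : ∑ j, w.1 j * w.1 j = 0 := by linarith
  have e2 : w.2 0 * w.2 0 = 0 := by linarith
  have e3 : w.2 1 * w.2 1 = 0 := by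
    have : (3 - tt) ^ 2 / 9 * (w.2 1 * w.2 1) = 0 := by linarith
    exact (mul_eq_zero.1 this).resolve_left h3.ne'
  have e4 : w.2 2 * w.2 2 = 0 := by
    have : (3 + tt) ^ 2 / 9 * (w.2 2 * w.2 2) = 0 := by linarith
    exact (mul_eq_zero.1 this).resolve_left h4.ne'
  have e5 := (Finset.sum_eq_zero_iff_of_nonneg (fun j _ => mul_self_nonneg (w.1 j))).1 e1
  apply Prod.ext
  · funext j
    exact mul_self_eq_zero.1 (e5 j (Finset.mem_univ j))
  · funext i
    fin_cases i
    · exact mul_self_eq_zero.1 e2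
    · exact mul_self_eq_zero.1 e3
    · exact mul_self_eq_zero.1 e4

lemma L_inj' {w : E} (h : L w c0 = 0) : w = 0 := by
  apply L_inj
  rw [h]
  have : ip (0 : K) 0 = 0 := by
    rw [← inner_mkF, map_zero, inner_zero_left]
  exact this

lemma df_inj (x : E) : Function.Injective (fderiv ℝ f x) := by
  intro u v h
  rw [df, df] at h
  have h1 := mk_inj h
  have h2 : L (Om x u - Om x v) c0 = 0 := by
    rw [← LL_apply, map_sub, _root_.sub_apply, LL_apply, LL_apply, h1, sub_self]
  have h3 := L_inj' h2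
  have h4 : Om x u = Om x v := sub_eq_zero.1 h3
  rw [← Oi_Om x u, ← Oi_Om x v, h4]

lemma ip_c0_c0 : ip c0 c0 = 1 := by
  unfold ip c0
  simp only [mk_transpose, mk_mul, mk_trace]
  simp
  have hr := rho_sq
  have hk := kap_sq
  have ht := tt_sq
  linear_combination 7 * hr + (4 + (1 + tt) ^ 2 + (1 - tt) ^ 2) * hk + (1 / 9) * ht

lemma f_sph : IsSphImmersion (Set.univ : Set E) f where
  isOpen := isOpen_univ
  nonempty := Set.univ_nonempty
  smooth := f_smooth.contDiffOn
  unit := by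
    intro x _
    have h : ⟪f x, f x⟫ = 1 := by
      unfold f; rw [inner_mk, ip_c0_c0]
    rw [real_inner_self_eq_norm_sq] at h
    nlinarith [norm_nonneg (f x)]
  immersion := fun x _ => df_inj x

lemma Om_hasFDerivAt (x v : E) : HasFDerivAt (fun y => Om y v)
    ((ContinuousLinearMap.apply ℝ E v).comp (fderiv ℝ Om x)) x :=
  (ContinuousLinearMap.apply ℝ E v).hasFDerivAt.comp x
    (Om_smooth.differentiable (by simp)).differentiableAt.hasFDerivAt

lemma ddf (x u v : E) : fderiv ℝ (fderiv ℝ f) x u v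
    = mkF (R x (L (Om x u) (L (Om x v) c0) + L (fderiv ℝ Om x u v) c0)) := by
  have h1 : HasFDerivAt (fderiv ℝ f) (fderiv ℝ (fderiv ℝ f) x) x :=
    df_hasFDerivAt isOpen_univ f_smooth.contDiffOn (Set.mem_univ x)
  have h2 := hasFDerivAt_apply1 h1 v
  have h3 : (fun y => fderiv ℝ f y v) = fun y => mkF (R y (L (Om y v) c0)) := by
    funext y; exact df y v
  have h4 : HasFDerivAt (fun y => L (Om y v) c0)
      ((LL.flip c0).comp ((ContinuousLinearMap.apply ℝ E v).comp (fderiv ℝ Om x))) x :=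
    (LL.flip c0).hasFDerivAt.comp x (Om_hasFDerivAt x v)
  have h5 : fderiv ℝ (fun y => fderiv ℝ f y v) x u = fderiv ℝ (fderiv ℝ f) x u v := by
    rw [h2.fderiv]; rfl
  rw [← h5, h3, dmk h4]
  rfl

lemma ip_nr_L (u v w : E) : ip (nr u v) (L w c0) = 0 := by
  rw [L_c0]
  unfold ip nr
  simp only [mk_transpose, mk_mul, mk_trace]
  simp

/-- the inner product as a bilinear form -/
noncomputable def BF : F →L[ℝ] F →L[ℝ] ℝ := innerSL ℝ

lemma BF_apply (a b : F) : BF a b = ⟪a, b⟫ := rfl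

lemma gam {Γ : E → E →L[ℝ] E →L[ℝ] E} (hΓ : IsLeviCivita (Set.univ : Set E) (fMet f) Γ)
    (x u v : E) : Om x (Γ x u v) = fderiv ℝ Om x u v + be (Om x u) (Om x v) := by
  have hB : ∀ X Y, BF X Y = BF Y X := fun X Y => real_inner_comm Y X
  have hk : ∀ w, ip (L (Om x (Γ x u v) - (fderiv ℝ Om x u v + be (Om x u) (Om x v))) c0)
      (L (Om x w) c0) = 0 := by
    intro w
    have h1 := gauss_K1 isOpen_univ f_smooth.contDiffOn BF hB hΓ (Set.mem_univ x) u v w
    rw [BF_apply, BF_apply, df, df, ddf, inner_mk, inner_mk] at h1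
    have h2 : L (Om x (Γ x u v) - (fderiv ℝ Om x u v + be (Om x u) (Om x v))) c0
        = L (Om x (Γ x u v)) c0 - (L (fderiv ℝ Om x u v) c0 + L (be (Om x u) (Om x v)) c0) := by
      simp only [← LL_apply, map_sub, map_add, _root_.sub_apply, _root_.add_apply]
    have h3 : ∀ a b c : K, ip (a - b) c = ip a c - ip b c := by
      intro a b c
      rw [← inner_mkF, ← inner_mkF, ← inner_mkF, map_sub, inner_sub_left]
    rw [h2, h3, h1, L_L_c0, ip_add_left, ip_add_left, ip_add_left, ip_nr_L]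
    ring
  have h4 := hk (Oi x (Om x (Γ x u v) - (fderiv ℝ Om x u v + be (Om x u) (Om x v))))
  rw [Om_Oi] at h4
  exact sub_eq_zero.1 (L_inj h4)

lemma sff_eq' {Γ : E → E →L[ℝ] E →L[ℝ] E} (hΓ : IsLeviCivita (Set.univ : Set E) (fMet f) Γ)
    (x u v : E) : sphSff f Γ x u v
      = mkF (R x (nr (Om x u) (Om x v) + ip (L (Om x u) c0) (L (Om x v) c0) • c0)) := by
  unfold sphSff
  rw [ddf, fMet_eq, df, gam hΓ]
  have h1 : f x = mkF (R x c0) := rfl
  rw [h1, ← map_smul, ← map_smul, ← map_add, ← map_add, ← map_sub, ← map_sub, L_L_c0]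
  congr 2
  have h2 : L (fderiv ℝ Om x u v + be (Om x u) (Om x v)) c0
      = L (fderiv ℝ Om x u v) c0 + L (be (Om x u) (Om x v)) c0 := by
    simp only [← LL_apply, map_add, _root_.add_apply]
  rw [h2]
  abel

/-- the frame at the identity -/
noncomputable def ep : Fin 7 ⊕ Fin 3 → E :=
  Sum.elim (fun j => (Pi.single j (15 * rho), 0))
    ![(0, ![5 * tt / 6, 0, 0]), (0, ![0, 5 / 12 * (3 + tt), 0]), (0, ![0, 0, 5 / 12 * (3 - tt)])]

/-- the moving frame -/
noncomputable def e (i : Fin 7 ⊕ Fin 3) (x : E) : E := Oi x (ep i)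

lemma Om_e (i : Fin 7 ⊕ Fin 3) (x : E) : Om x (e i x) = ep i := Om_Oi _ _

lemma e_ortho : IsOrthoFrame (Set.univ : Set E) f e where
  card := by simp
  smooth := fun i => (Oi_smooth.clm_apply contDiff_const).contDiffOn
  unit := by
    intro x _ i
    rw [fMet_eq, Om_e, ip_L_L]
    have hr := rho_sq
    have ht := tt_sq
    rcases i with j | k
    · simp [ep, Pi.single_apply]
      linear_combination 15 * hr
    · fin_cases k
      · simp [ep]
        linear_combination (5 / 9) * ht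
      · simp [ep]
        linear_combination (-(25 / 1296) * (81 / 5 - tt * tt)) * ht
      · simp [ep]
        linear_combination (-(25 / 1296) * (81 / 5 - tt * tt)) * ht
  ortho := by
    intro x _ i j hij
    rw [fMet_eq, Om_e, Om_e, ip_L_L]
    rcases i with i | i <;> rcases j with j | j
    · have h : i ≠ j := fun h => hij (by rw [h])
      simp [ep, Pi.single_apply]
      intro h2; exact absurd h2.symm h
    · fin_cases j <;> simp [ep]
    · fin_cases i <;> simp [ep]
    · fin_cases i <;> fin_cases j <;> simp [ep] at hij ⊢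

lemma be_ep (i : Fin 7 ⊕ Fin 3) : be (ep i) (ep i) = 0 := by
  rcases i with i | i
  · apply Prod.ext
    · rfl
    · funext k; fin_cases k <;> simp [be, ep]
  · fin_cases i
    · apply Prod.ext
      · rfl
      · funext k; fin_cases k <;> simp [be, ep]
    · apply Prod.ext
      · rfl
      · funext k; fin_cases k <;> simp [be, ep]
    · apply Prod.ext
      · rfl
      · funext k; fin_cases k <;> simp [be, ep]

lemma ip_ep (i : Fin 7 ⊕ Fin 3) : ip (L (ep i) c0) (L (ep i) c0) = 1 := by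
  have h := e_ortho.unit 0 (Set.mem_univ _) i
  rwa [fMet_eq, Om_e] at h

lemma nr_sum : ∑ i, (nr (ep i) (ep i) + c0) = (10 : ℝ) • h0 := by
  have ht := tt_sq
  have hr := rho_sq
  rw [Fintype.sum_sum_type, Fin.sum_univ_three]
  apply Prod.ext
  · funext j
    rw [Prod.fst_add, Prod.fst_sum, Pi.add_apply, Finset.sum_apply]
    have h1 : ∀ c : Fin 7, (nr (ep (Sum.inl c)) (ep (Sum.inl c)) + c0).1 j
        = (if j = c then ((-(15 * rho) : ℝ) : ℂ) else 0) + (rho : ℂ) := by
      intro c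
      simp only [Prod.fst_add, Pi.add_apply]
      congr 1
      simp only [nr, ep, Sum.elim_inl, Pi.single_apply]
      split_ifs
      · rw [Complex.ofReal_inj]
        linear_combination (-225 * rho) * hr
      · simp
    rw [Finset.sum_congr rfl (fun c _ => h1 c), Finset.sum_add_distrib]
    simp [nr, ep, c0, h0]
    ring
  · have h2 : (∑ c : Fin 7, (nr (ep (Sum.inl c)) (ep (Sum.inl c)) + c0)).2
        = (7 : ℝ) • c0.2 := by
      rw [Prod.snd_sum]
      have h3 : ∀ c : Fin 7, (nr (ep (Sum.inl c)) (ep (Sum.inl c)) + c0).2 = c0.2 := by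
        intro c
        simp only [nr, ep, c0, Prod.snd_add, mk_add]
        apply mk_congr <;> simp
      rw [Finset.sum_congr rfl (fun c _ => h3 c)]
      simp only [Finset.sum_const, Finset.card_univ, Fintype.card_fin]
      rw [← Nat.cast_smul_eq_nsmul ℝ]; norm_num
    rw [Prod.snd_add, h2]
    simp only [nr, ep, c0, h0, Prod.snd_add, Prod.smul_snd, mk_add, mk_smul]
    apply mk_congr <;> simp
    · linear_combination (-(25 / 12) * kap) * ht
    · linear_combination (-(25 / 9) * kap * tt + (25 / 72) * kap * (3 - tt)) * ht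
    · linear_combination ((25 / 9) * kap * tt + (25 / 72) * kap * (3 + tt)) * ht

lemma mean_eq {Γ : E → E →L[ℝ] E →L[ℝ] E} (hΓ : IsLeviCivita (Set.univ : Set E) (fMet f) Γ)
    (x : E) : sphMean f Γ e x = mkF (R x h0) := by
  unfold sphMean
  have h : ∀ i, sphSff f Γ x (e i x) (e i x) = mkF (R x (nr (ep i) (ep i) + c0)) := by
    intro i
    rw [sff_eq' hΓ, Om_e, ip_ep, one_smul]
  rw [Finset.sum_congr rfl (fun i _ => h i), ← map_sum, ← map_sum, nr_sum, map_smul, map_smul,
    smul_smul]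
  simp

/-- shape operator at the identity -/
noncomputable def A0 : E →L[ℝ] E :=
  LinearMap.toContinuousLinearMap
    { toFun := fun w => ((1 / 2 : ℝ) • w.1, ![-(3 / 4) * w.2 0, -((3 - 5 * tt) / 24) * w.2 1,
        -((3 + 5 * tt) / 24) * w.2 2])
      map_add' := fun u v => by
        apply Prod.ext
        · simp
        · funext i; fin_cases i <;> simp <;> ring
      map_smul' := fun r u => by
        apply Prod.ext
        · simp [smul_smul, mul_comm]
        · funext i; fin_cases i <;> simp <;> ring }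

lemma A0_apply (w : E) : A0 w = ((1 / 2 : ℝ) • w.1, ![-(3 / 4) * w.2 0,
    -((3 - 5 * tt) / 24) * w.2 1, -((3 + 5 * tt) / 24) * w.2 2]) := rfl

lemma L_h0 (w : E) : L w h0 = -L (A0 w) c0 := by
  rw [L_c0]
  have ht := tt_sq
  apply Prod.ext
  · funext j
    simp only [L, h0, A0_apply, Prod.fst_neg, Pi.neg_apply, Pi.smul_apply, smul_eq_mul]
    push_cast; ring
  · simp only [L, h0, sk, mk_mul, mk_sub, Prod.snd_neg, mk_neg, A0_apply]
    apply mk_congr
    · simp
    · simp
      linear_combination (5 / 24 * w.2 2 * kap) * ht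
    · simp
      linear_combination (-(5 / 24) * w.2 1 * kap) * ht
    · simp
      linear_combination (5 / 24 * w.2 2 * kap) * ht
    · simp
    · simp
      ring
    · simp
      linear_combination (-(5 / 24) * w.2 1 * kap) * ht
    · simp
      ring
    · simp

lemma ip_L_h0 (w : E) : ip (L w c0) h0 = 0 := by
  rw [L_c0]
  unfold ip h0
  simp only [mk_transpose, mk_mul, mk_trace]
  simp

lemma ip_c0_h0 : ip c0 h0 = 0 := by
  unfold ip c0 h0
  simp only [mk_transpose, mk_mul, mk_trace]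
  simp
  have hr := rho_sq
  have hk := kap_sq
  have ht := tt_sq
  linear_combination (-(7 / 2)) * hr + (3 / 2 + 3 / 2 * tt ^ 2) * hk + (1 / 12) * ht

lemma ip_nr_h0 (u v : E) : ip (nr u v) h0 = ip (L (A0 u) c0) (L v c0) := by
  have h1 : ip (L u (L v c0)) h0 = ip (nr u v) h0 := by
    rw [L_L_c0, ip_add_left, ip_L_h0, zero_add]
  rw [← h1, L_skew, L_h0]
  have h2 : ∀ a b : K, ip a (-b) = -ip a b := by
    intro a b
    rw [← inner_mkF, ← inner_mkF, map_neg, inner_neg_right]
  rw [h2, neg_neg, ip_comm]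

/-- the shape operator -/
noncomputable def Ax (x : E) : E →L[ℝ] E := (Oi x).comp (A0.comp (Om x))

lemma Ax_apply (x v : E) : Ax x v = Oi x (A0 (Om x v)) := rfl

lemma Ax_smooth : ContDiff ℝ ∞ Ax := by
  rw [contDiff_clm_apply_iff]
  intro v
  exact Oi_smooth.clm_apply (A0.contDiff.comp (Om_smooth.clm_apply contDiff_const))

lemma shape {Γ : E → E →L[ℝ] E →L[ℝ] E} (hΓ : IsLeviCivita (Set.univ : Set E) (fMet f) Γ)
    (x u v : E) : fMet f x (Ax x u) v = ⟪sphSff f Γ x u v, sphMean f Γ e x⟫ := by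
  rw [mean_eq hΓ, sff_eq' hΓ, inner_mk, ip_add_left, ip_smul_left, ip_c0_h0, mul_zero, add_zero,
    ip_nr_h0, fMet_eq, Ax_apply, Om_Oi]

lemma normal {Γ : E → E →L[ℝ] E →L[ℝ] E} (hΓ : IsLeviCivita (Set.univ : Set E) (fMet f) Γ)
    (x u : E) : fderiv ℝ (sphMean f Γ e) x u = -fderiv ℝ f x (Ax x u) := by
  have h : sphMean f Γ e = fun y => mkF (R y h0) := by
    funext y; exact mean_eq hΓ y
  rw [h, dmk_const, df, L_h0, map_neg, map_neg, Ax_apply, Om_Oi]

lemma cov {Γ : E → E →L[ℝ] E →L[ℝ] E} (hΓ : IsLeviCivita (Set.univ : Set E) (fMet f) Γ)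
    {V W : E → E} {x : E} (hV : DifferentiableAt ℝ V x) {W' : E →L[ℝ] E}
    (hW : HasFDerivAt W W' x) (h : ∀ y, Om y (V y) = W y) (u : E) :
    Om x (covD Γ V x u) = W' u + be (Om x u) (W x) := by
  have h1 : HasFDerivAt Om (fderiv ℝ Om x) x :=
    (Om_smooth.differentiable (by simp)).differentiableAt.hasFDerivAt
  have h2 := h1.clm_apply hV.hasFDerivAt
  have h3 : (fun y => Om y (V y)) = W := funext h
  rw [h3] at h2
  have h4 := congrArg (fun T : E →L[ℝ] E => T u) (h2.unique hW)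
  have h5 : Om x (fderiv ℝ V x u) + fderiv ℝ Om x u (V x) = W' u := h4
  unfold covD
  rw [map_add, gam hΓ, h, ← h5]
  abel

lemma covD_e {Γ : E → E →L[ℝ] E →L[ℝ] E} (hΓ : IsLeviCivita (Set.univ : Set E) (fMet f) Γ)
    (i : Fin 7 ⊕ Fin 3) (x : E) : covD Γ (e i) x (e i x) = 0 := by
  have h1 : DifferentiableAt ℝ (e i) x :=
    ((Oi_smooth.clm_apply contDiff_const).differentiable (by simp)).differentiableAt
  have h2 := cov hΓ h1 (hasFDerivAt_const (ep i) x) (fun y => Om_e i y) (e i x)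
  rw [Om_e, be_ep] at h2
  have h3 : Om x (covD Γ (e i) x (e i x)) = 0 := by rw [h2]; simp
  rw [← Oi_Om x (covD Γ (e i) x (e i x)), h3, map_zero]

lemma nonparallel {Γ : E → E →L[ℝ] E →L[ℝ] E}
    (hΓ : IsLeviCivita (Set.univ : Set E) (fMet f) Γ) (x : E) :
    ∃ u v, covDA Γ Ax x u v ≠ 0 := by
  refine ⟨Oi x (0, ![1, 0, 0]), Oi x (0, ![0, 1, 0]), ?_⟩
  intro hz
  have key : ∀ u v, Om x (covDA Γ Ax x u v) = be (Om x u) (A0 (Om x v))
      - A0 (be (Om x u) (Om x v)) := by
    intro u v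
    have h1 : HasFDerivAt Ax (fderiv ℝ Ax x) x :=
      (Ax_smooth.differentiable (by simp)).differentiableAt.hasFDerivAt
    have h2 := hasFDerivAt_apply1 h1 v
    have h3 : HasFDerivAt (fun y => A0 (Om y v))
        (A0.comp ((ContinuousLinearMap.apply ℝ E v).comp (fderiv ℝ Om x))) x :=
      A0.hasFDerivAt.comp x (Om_hasFDerivAt x v)
    have h4 := cov hΓ h2.differentiableAt h3 (fun y => by rw [Ax_apply, Om_Oi]) u
    have h5 : covD Γ (fun y => Ax y v) x u = fderiv ℝ Ax x u v + Γ x u (Ax x v) := by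
      unfold covD
      rw [h2.fderiv]; rfl
    rw [h5] at h4
    unfold covDA
    rw [map_sub, h4, Ax_apply, Om_Oi, gam hΓ, map_add]
    change A0 (fderiv ℝ Om x u v) + be (Om x u) (A0 (Om x v))
      - (A0 (fderiv ℝ Om x u v) + A0 (be (Om x u) (Om x v))) = _
    abel
  have h6 := key (Oi x (0, ![1, 0, 0])) (Oi x (0, ![0, 1, 0]))
  rw [hz, map_zero, Om_Oi, Om_Oi] at h6
  have h7 := congrArg (fun w : E => w.2 2) h6
  have ht := tt_sq
  have hp := tt_pos
  have hl := tt_lt
  simp [be, A0_apply] at h7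
  have h8 : 0 < (3 - tt) * (3 - tt) * tt := by
    have : 0 < 3 - tt := by linarith
    positivity
  nlinarith

lemma A0_ep (i : Fin 7 ⊕ Fin 3) : ∃ a : ℝ, A0 (ep i) = a • ep i := by
  rcases i with i | i
  · refine ⟨1 / 2, ?_⟩
    rw [A0_apply]
    apply Prod.ext
    · rfl
    · funext k; fin_cases k <;> simp [ep]
  · fin_cases i
    · refine ⟨-(3 / 4), ?_⟩
      rw [A0_apply]
      apply Prod.ext
      · simp [ep]
      · funext k; fin_cases k <;> simp [ep]
    · refine ⟨-((3 - 5 * tt) / 24), ?_⟩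
      rw [A0_apply]
      apply Prod.ext
      · simp [ep]
      · funext k; fin_cases k <;> simp [ep]
    · refine ⟨-((3 + 5 * tt) / 24), ?_⟩
      rw [A0_apply]
      apply Prod.ext
      · simp [ep]
      · funext k; fin_cases k <;> simp [ep]

lemma be_A0_ep (i : Fin 7 ⊕ Fin 3) : be (ep i) (A0 (ep i)) = 0 := by
  obtain ⟨a, ha⟩ := A0_ep i
  rw [ha]
  have h : be (ep i) (a • ep i) = a • be (ep i) (ep i) := by
    apply Prod.ext
    · simp [be]
    · funext k; fin_cases k <;> simp [be] <;> ring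
  rw [h, be_ep, smul_zero]

lemma LLh (i : Fin 7 ⊕ Fin 3) : L (ep i) (L (ep i) h0) = -nr (ep i) (A0 (ep i)) := by
  rw [L_h0]
  have h1 : L (ep i) (-L (A0 (ep i)) c0) = -L (ep i) (L (A0 (ep i)) c0) := by
    rw [← LL_apply, ← LL_apply, map_neg, LL_apply, LL_apply]
  have h2 : L 0 c0 = 0 := by rw [← LL_apply, map_zero]; rfl
  rw [h1, L_L_c0, be_A0_ep, h2, zero_add]

lemma bi_sum : ∑ i, (nr (ep i) (A0 (ep i)) + ip (L (ep i) c0) (L (A0 (ep i)) c0) • c0)
    = (10 : ℝ) • h0 := by
  have ht := tt_sq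
  have hr := rho_sq
  rw [Fintype.sum_sum_type, Fin.sum_univ_three]
  have hi : ∀ c : Fin 7, ip (L (ep (Sum.inl c)) c0) (L (A0 (ep (Sum.inl c))) c0) = 1 / 2 := by
    intro c
    have : A0 (ep (Sum.inl c)) = (1 / 2 : ℝ) • ep (Sum.inl c) := by
      rw [A0_apply]
      apply Prod.ext
      · rfl
      · funext k; fin_cases k <;> simp [ep]
    rw [this, L_smul_left, ip_smul_right, ip_ep, mul_one]
  have hi0 : ip (L (ep (Sum.inr 0)) c0) (L (A0 (ep (Sum.inr 0))) c0) = -(3 / 4) := by
    have : A0 (ep (Sum.inr 0)) = (-(3 / 4) : ℝ) • ep (Sum.inr 0) := by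
      rw [A0_apply]
      apply Prod.ext
      · simp [ep]
      · funext k; fin_cases k <;> simp [ep]
    rw [this, L_smul_left, ip_smul_right, ip_ep, mul_one]
  have hi1 : ip (L (ep (Sum.inr 1)) c0) (L (A0 (ep (Sum.inr 1))) c0) = -((3 - 5 * tt) / 24) := by
    have : A0 (ep (Sum.inr 1)) = (-((3 - 5 * tt) / 24)) • ep (Sum.inr 1) := by
      rw [A0_apply]
      apply Prod.ext
      · simp [ep]
      · funext k; fin_cases k <;> simp [ep]
    rw [this, L_smul_left, ip_smul_right, ip_ep, mul_one]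
  have hi2 : ip (L (ep (Sum.inr 2)) c0) (L (A0 (ep (Sum.inr 2))) c0) = -((3 + 5 * tt) / 24) := by
    have : A0 (ep (Sum.inr 2)) = (-((3 + 5 * tt) / 24)) • ep (Sum.inr 2) := by
      rw [A0_apply]
      apply Prod.ext
      · simp [ep]
      · funext k; fin_cases k <;> simp [ep]
    rw [this, L_smul_left, ip_smul_right, ip_ep, mul_one]
  rw [hi0, hi1, hi2, Finset.sum_congr rfl (fun c _ => by rw [hi c])]
  apply Prod.ext
  · funext j
    rw [Prod.fst_add, Prod.fst_sum, Pi.add_apply, Finset.sum_apply]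
    have h1 : ∀ c : Fin 7, (nr (ep (Sum.inl c)) (A0 (ep (Sum.inl c))) + (1 / 2 : ℝ) • c0).1 j
        = (if j = c then ((-(15 / 2 * rho) : ℝ) : ℂ) else 0) + (rho : ℂ) / 2 := by
      intro c
      simp only [Prod.fst_add, Pi.add_apply]
      congr 1
      · simp only [nr, ep, A0_apply, Sum.elim_inl, Pi.single_apply, Pi.smul_apply, smul_eq_mul]
        split_ifs
        · rw [Complex.ofReal_inj]
          linear_combination (-225 / 2 * rho) * hr
        · simp
      · simp [c0]; ring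
    rw [Finset.sum_congr rfl (fun c _ => h1 c), Finset.sum_add_distrib]
    simp [nr, ep, c0, h0, A0_apply]
    ring
  · have h2 : (∑ c : Fin 7, (nr (ep (Sum.inl c)) (A0 (ep (Sum.inl c))) + (1 / 2 : ℝ) • c0)).2
        = (7 / 2 : ℝ) • c0.2 := by
      rw [Prod.snd_sum]
      have h3 : ∀ c : Fin 7, (nr (ep (Sum.inl c)) (A0 (ep (Sum.inl c))) + (1 / 2 : ℝ) • c0).2
          = (1 / 2 : ℝ) • c0.2 := by
        intro c
        simp only [nr, ep, c0, A0_apply, Prod.snd_add, Prod.smul_snd, mk_smul, mk_add]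
        apply mk_congr <;> simp
      rw [Finset.sum_congr rfl (fun c _ => h3 c)]
      simp only [Finset.sum_const, Finset.card_univ, Fintype.card_fin]
      rw [← Nat.cast_smul_eq_nsmul ℝ, smul_smul]; norm_num
    rw [Prod.snd_add, h2]
    simp only [nr, ep, c0, h0, A0_apply, Prod.snd_add, Prod.smul_snd, mk_add, mk_smul]
    apply mk_congr <;> simp
    · linear_combination (125 / 864 * kap * (9 - tt ^ 2)) * ht
    · linear_combination (25 / 12 * kap * tt + 25 / 1728 * kap * (-12 * tt - 45 + 5 * tt ^ 2)) * ht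
    · linear_combination (-(25 / 12) * kap * tt + 25 / 1728 * kap * (12 * tt - 45 + 5 * tt ^ 2)) * ht

lemma tension_eq {Γ : E → E →L[ℝ] E →L[ℝ] E}
    (hΓ : IsLeviCivita (Set.univ : Set E) (fMet f) Γ) :
    sphTension f Γ e = fun y => mkF (R y ((10 : ℝ) • h0)) := by
  funext y
  unfold sphTension
  rw [mean_eq hΓ, map_smul, map_smul]
  simp

lemma pull_tension {Γ : E → E →L[ℝ] E →L[ℝ] E}
    (hΓ : IsLeviCivita (Set.univ : Set E) (fMet f) Γ) (x u : E) :
    pullD f (sphTension f Γ e) x u = mkF (R x ((10 : ℝ) • L (Om x u) h0)) := by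
  unfold pullD
  rw [tension_eq hΓ, dmk_const, df, inner_mk, ip_smul_right, ip_L_h0, mul_zero, zero_smul,
    add_zero, L_smul_right]

lemma bitension_eq {Γ : E → E →L[ℝ] E →L[ℝ] E}
    (hΓ : IsLeviCivita (Set.univ : Set E) (fMet f) Γ) (x : E) : sphBitension f Γ e x = 0 := by
  unfold sphBitension traceHess
  have h1 : ∀ i, pullD f (fun y => pullD f (sphTension f Γ e) y (e i y)) x (e i x)
      - pullD f (sphTension f Γ e) x (covD Γ (e i) x (e i x))
      = mkF (R x ((10 : ℝ) • -(nr (ep i) (A0 (ep i))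
          + ip (L (ep i) c0) (L (A0 (ep i)) c0) • c0))) := by
    intro i
    have h2 : (fun y => pullD f (sphTension f Γ e) y (e i y))
        = fun y => mkF (R y ((10 : ℝ) • L (ep i) h0)) := by
      funext y
      rw [pull_tension hΓ, Om_e]
    have h3 : pullD f (sphTension f Γ e) x (covD Γ (e i) x (e i x)) = 0 := by
      rw [covD_e hΓ, pull_tension hΓ, map_zero]
      have : L 0 h0 = 0 := by rw [← LL_apply, map_zero]; rfl
      rw [this, smul_zero, map_zero, map_zero]
    rw [h3, sub_zero, h2]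
    unfold pullD
    rw [dmk_const, df, inner_mk, Om_e]
    have h4 : f x = mkF (R x c0) := rfl
    rw [h4, ← map_smul, ← map_smul, ← map_add, ← map_add, L_smul_right, LLh, ip_smul_right, L_h0]
    have h5 : ∀ a b : K, ip a (-b) = -ip a b := by
      intro a b
      rw [← inner_mkF, ← inner_mkF, map_neg, inner_neg_right]
    rw [h5]
    congr 2
    module
  have h6 : ∀ i, sphCurv (fderiv ℝ f x (e i x)) (sphTension f Γ e x) (fderiv ℝ f x (e i x))
      = -mkF (R x ((10 : ℝ) • h0)) := by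
    intro i
    unfold sphCurv
    rw [tension_eq hΓ, df, inner_mk, inner_mk, Om_e, ip_ep, ip_comm, ip_smul_right, ip_L_h0]
    simp
  rw [Finset.sum_congr rfl (fun i _ => h1 i), Finset.sum_congr rfl (fun i _ => h6 i),
    ← map_sum, ← map_sum, ← Finset.smul_sum, Finset.sum_neg_distrib, bi_sum]
  simp only [Finset.sum_const, Finset.card_univ, Fintype.card_sum, Fintype.card_fin]
  rw [← Nat.cast_smul_eq_nsmul ℝ]
  simp only [map_smul, map_neg, smul_neg, sub_neg_eq_add]
  norm_num

/-- The mean curvature vector has length `1/2` everywhere. -/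
lemma norm_mean {Γ : E → E →L[ℝ] E →L[ℝ] E}
    (hΓ : IsLeviCivita (Set.univ : Set E) (fMet f) Γ) (x : E) : ‖sphMean f Γ e x‖ = 1 / 2 := by
  rw [mean_eq hΓ]
  have h : ⟪mkF (R x h0), mkF (R x h0)⟫ = 1 / 4 := by
    rw [inner_mk]
    unfold ip h0
    simp only [mk_transpose, mk_mul, mk_trace]
    simp
    have hr := rho_sq
    have hk := kap_sq
    have ht := tt_sq
    linear_combination (7 / 4) * hr + (1 / 4 + (1 + 9 * tt ^ 2) / 8) * hk + (1 / 16) * ht
  rw [real_inner_self_eq_norm_sq] at h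
  nlinarith [norm_nonneg (mkF (R x h0))]

end Pool.Agent.X181.Bi
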