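import Mathlib
import Pool.Agent.X181.Exist

/-!
The horosphere of the complex hyperbolic plane `SU(2,1)/S(U(2) × U(1))`.
-/

namespace Pool.Agent.X181

open Matrix
open scoped ContDiff Matrix.Norms.Elementwise

namespace Horo

/-- the nilpotent Lie algebra of the Heisenberg group -/
noncomputable def lamFun (p : ℂ × ℝ) : Mat 1 :=
  Matrix.of fun i j => match i, j with
    | Sum.inl 0, Sum.inl 0 => -(Complex.I * p.2)
    | Sum.inl 0, Sum.inl 1 => (starRingEnd ℂ) p.1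
    | Sum.inl 0, Sum.inr _ => Complex.I * p.2
    | Sum.inl 1, Sum.inl 0 => -p.1
    | Sum.inl 1, Sum.inl 1 => 0
    | Sum.inl 1, Sum.inr _ => p.1
    | Sum.inr _, Sum.inl 0 => -(Complex.I * p.2)
    | Sum.inr _, Sum.inl 1 => (starRingEnd ℂ) p.1
    | Sum.inr _, Sum.inr _ => Complex.I * p.2

/-- matrices from nine entries -/
def mk9 (a b c d e f g h k : ℂ) : Mat 1 :=
  Matrix.of fun i j => match i, j with
    | Sum.inl 0, Sum.inl 0 => a
    | Sum.inl 0, Sum.inl 1 => b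
    | Sum.inl 0, Sum.inr _ => c
    | Sum.inl 1, Sum.inl 0 => d
    | Sum.inl 1, Sum.inl 1 => e
    | Sum.inl 1, Sum.inr _ => f
    | Sum.inr _, Sum.inl 0 => g
    | Sum.inr _, Sum.inl 1 => h
    | Sum.inr _, Sum.inr _ => k

lemma mk9_ext {X Y : Mat 1}
    (h00 : X (Sum.inl 0) (Sum.inl 0) = Y (Sum.inl 0) (Sum.inl 0))
    (h01 : X (Sum.inl 0) (Sum.inl 1) = Y (Sum.inl 0) (Sum.inl 1))
    (h02 : X (Sum.inl 0) (Sum.inr 0) = Y (Sum.inl 0) (Sum.inr 0))
    (h10 : X (Sum.inl 1) (Sum.inl 0) = Y (Sum.inl 1) (Sum.inl 0))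
    (h11 : X (Sum.inl 1) (Sum.inl 1) = Y (Sum.inl 1) (Sum.inl 1))
    (h12 : X (Sum.inl 1) (Sum.inr 0) = Y (Sum.inl 1) (Sum.inr 0))
    (h20 : X (Sum.inr 0) (Sum.inl 0) = Y (Sum.inr 0) (Sum.inl 0))
    (h21 : X (Sum.inr 0) (Sum.inl 1) = Y (Sum.inr 0) (Sum.inl 1))
    (h22 : X (Sum.inr 0) (Sum.inr 0) = Y (Sum.inr 0) (Sum.inr 0)) : X = Y := by
  ext i j
  rcases i with i | i <;> rcases j with j | j <;> fin_cases i <;> fin_cases j <;> assumption

lemma mk9_eta (X : Mat 1) : X = mk9 (X (Sum.inl 0) (Sum.inl 0)) (X (Sum.inl 0) (Sum.inl 1))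
    (X (Sum.inl 0) (Sum.inr 0)) (X (Sum.inl 1) (Sum.inl 0)) (X (Sum.inl 1) (Sum.inl 1))
    (X (Sum.inl 1) (Sum.inr 0)) (X (Sum.inr 0) (Sum.inl 0)) (X (Sum.inr 0) (Sum.inl 1))
    (X (Sum.inr 0) (Sum.inr 0)) := by
  apply mk9_ext <;> rfl

lemma mk9_congr {a b c d e f g h k a' b' c' d' e' f' g' h' k' : ℂ}
    (ha : a = a') (hb : b = b') (hc : c = c') (hd : d = d') (he : e = e') (hf : f = f')
    (hg : g = g') (hh : h = h') (hk : k = k') :
    mk9 a b c d e f g h k = mk9 a' b' c' d' e' f' g' h' k' := by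
  subst_vars; rfl

lemma mk9_mul (a b c d e f g h k a' b' c' d' e' f' g' h' k' : ℂ) :
    mk9 a b c d e f g h k * mk9 a' b' c' d' e' f' g' h' k' =
      mk9 (a * a' + b * d' + c * g') (a * b' + b * e' + c * h') (a * c' + b * f' + c * k')
        (d * a' + e * d' + f * g') (d * b' + e * e' + f * h') (d * c' + e * f' + f * k')
        (g * a' + h * d' + k * g') (g * b' + h * e' + k * h') (g * c' + h * f' + k * k') := by
  apply mk9_ext <;> simp [Matrix.mul_apply, mk9, Fintype.sum_sum_type, Fin.sum_univ_two]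

lemma mk9_add (a b c d e f g h k a' b' c' d' e' f' g' h' k' : ℂ) :
    mk9 a b c d e f g h k + mk9 a' b' c' d' e' f' g' h' k' =
      mk9 (a + a') (b + b') (c + c') (d + d') (e + e') (f + f') (g + g') (h + h') (k + k') := by
  apply mk9_ext <;> simp [mk9]

lemma mk9_sub (a b c d e f g h k a' b' c' d' e' f' g' h' k' : ℂ) :
    mk9 a b c d e f g h k - mk9 a' b' c' d' e' f' g' h' k' =
      mk9 (a - a') (b - b') (c - c') (d - d') (e - e') (f - f') (g - g') (h - h') (k - k') := by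
  apply mk9_ext <;> simp [mk9]

lemma mk9_neg (a b c d e f g h k : ℂ) :
    -mk9 a b c d e f g h k = mk9 (-a) (-b) (-c) (-d) (-e) (-f) (-g) (-h) (-k) := by
  apply mk9_ext <;> simp [mk9]

lemma mk9_smul (r a b c d e f g h k : ℂ) :
    r • mk9 a b c d e f g h k =
      mk9 (r * a) (r * b) (r * c) (r * d) (r * e) (r * f) (r * g) (r * h) (r * k) := by
  apply mk9_ext <;> simp [mk9]

lemma mk9_rsmul (r : ℝ) (a b c d e f g h k : ℂ) :
    r • mk9 a b c d e f g h k =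
      mk9 (r * a) (r * b) (r * c) (r * d) (r * e) (r * f) (r * g) (r * h) (r * k) := by
  apply mk9_ext <;> simp [mk9]

lemma mk9_one : (1 : Mat 1) = mk9 1 0 0 0 1 0 0 0 1 := by
  apply mk9_ext <;> simp [mk9]

lemma mk9_zero : (0 : Mat 1) = mk9 0 0 0 0 0 0 0 0 0 := by
  apply mk9_ext <;> simp [mk9]

lemma mk9_trace (a b c d e f g h k : ℂ) :
    (mk9 a b c d e f g h k).trace = a + e + k := by
  simp [Matrix.trace, mk9, Fintype.sum_sum_type, Fin.sum_univ_two]

lemma mk9_conj (a b c d e f g h k : ℂ) :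
    (mk9 a b c d e f g h k)ᴴ = mk9 (star a) (star d) (star g) (star b) (star e) (star h)
      (star c) (star f) (star k) := by
  apply mk9_ext <;> simp [mk9]

lemma mk9_form : formI 1 (-1) = mk9 (-1) 0 0 0 (-1) 0 0 0 1 := by
  apply mk9_ext <;> simp [mk9, formI]

lemma lamFun_eq (p : ℂ × ℝ) : lamFun p = mk9 (-(Complex.I * p.2)) ((starRingEnd ℂ) p.1)
    (Complex.I * p.2) (-p.1) 0 p.1 (-(Complex.I * p.2)) ((starRingEnd ℂ) p.1)
    (Complex.I * p.2) := rfl

/-- `lamFun` as a continuous linear map -/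
noncomputable def lam : (ℂ × ℝ) →L[ℝ] Mat 1 :=
  LinearMap.toContinuousLinearMap
    { toFun := lamFun
      map_add' := fun p q => by
        rw [lamFun_eq, lamFun_eq, lamFun_eq, mk9_add]
        apply mk9_congr <;> simp <;> ring
      map_smul' := fun r p => by
        rw [lamFun_eq, lamFun_eq, mk9_rsmul]
        apply mk9_congr <;> simp <;> ring }

lemma lam_apply (p : ℂ × ℝ) : lam p = mk9 (-(Complex.I * p.2)) ((starRingEnd ℂ) p.1)
    (Complex.I * p.2) (-p.1) 0 p.1 (-(Complex.I * p.2)) ((starRingEnd ℂ) p.1)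
    (Complex.I * p.2) := rfl

/-- the Heisenberg group element -/
noncomputable def G (x : ℂ × ℝ) : Mat 1 := 1 + lam x + (1 / 2 : ℝ) • (lam x * lam x)

/-- its inverse -/
noncomputable def Gi (x : ℂ × ℝ) : Mat 1 := 1 - lam x + (1 / 2 : ℝ) • (lam x * lam x)

lemma G_eq (x : ℂ × ℝ) : G x = mk9
    (1 - Complex.I * x.2 - (starRingEnd ℂ) x.1 * x.1 / 2) ((starRingEnd ℂ) x.1)
    (Complex.I * x.2 + (starRingEnd ℂ) x.1 * x.1 / 2)
    (-x.1) 1 x.1
    (-(Complex.I * x.2) - (starRingEnd ℂ) x.1 * x.1 / 2) ((starRingEnd ℂ) x.1)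
    (1 + Complex.I * x.2 + (starRingEnd ℂ) x.1 * x.1 / 2) := by
  unfold G
  rw [lam_apply, mk9_mul, mk9_rsmul, mk9_one, mk9_add, mk9_add]
  apply mk9_congr <;> push_cast <;> ring

lemma Gi_eq (x : ℂ × ℝ) : Gi x = mk9
    (1 + Complex.I * x.2 - (starRingEnd ℂ) x.1 * x.1 / 2) (-(starRingEnd ℂ) x.1)
    (-(Complex.I * x.2) + (starRingEnd ℂ) x.1 * x.1 / 2)
    (x.1) 1 (-x.1)
    (Complex.I * x.2 - (starRingEnd ℂ) x.1 * x.1 / 2) (-(starRingEnd ℂ) x.1)
    (1 - Complex.I * x.2 + (starRingEnd ℂ) x.1 * x.1 / 2) := by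
  unfold Gi
  rw [lam_apply, mk9_mul, mk9_rsmul, mk9_one, mk9_sub, mk9_add]
  apply mk9_congr <;> push_cast <;> ring

lemma G_mul_Gi (x : ℂ × ℝ) : G x * Gi x = 1 := by
  rw [G_eq, Gi_eq, mk9_mul, mk9_one]
  apply mk9_congr <;> ring

lemma Gi_mul_G (x : ℂ × ℝ) : Gi x * G x = 1 := by
  rw [G_eq, Gi_eq, mk9_mul, mk9_one]
  apply mk9_congr <;> ring

lemma G_adj (x : ℂ × ℝ) : (G x)ᴴ * formI 1 (-1) = formI 1 (-1) * Gi x := by
  rw [G_eq, Gi_eq, mk9_form, mk9_conj, mk9_mul, mk9_mul]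
  apply mk9_congr <;> simp <;> ring

lemma Gi_adj (x : ℂ × ℝ) : (Gi x)ᴴ * formI 1 (-1) = formI 1 (-1) * G x := by
  rw [G_eq, Gi_eq, mk9_form, mk9_conj, mk9_mul, mk9_mul]
  apply mk9_congr <;> simp <;> ring

/-- the contact form -/
noncomputable def th (x X : ℂ × ℝ) : ℝ := X.2 - ((starRingEnd ℂ) x.1 * X.1).im

lemma I_th (x X : ℂ × ℝ) : Complex.I * (th x X : ℂ) =
    Complex.I * X.2 - ((starRingEnd ℂ) x.1 * X.1 - x.1 * (starRingEnd ℂ) X.1) / 2 := by
  unfold th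
  apply Complex.ext <;> simp <;> ring

/-- the Maurer-Cartan form -/
noncomputable def Om (x X : ℂ × ℝ) : Mat 1 := lam (X.1, th x X)

lemma Om_eq (x X : ℂ × ℝ) : Om x X = mk9 (-(Complex.I * th x X)) ((starRingEnd ℂ) X.1)
    (Complex.I * th x X) (-X.1) 0 X.1 (-(Complex.I * th x X)) ((starRingEnd ℂ) X.1)
    (Complex.I * th x X) := rfl

lemma dG_eq (x X : ℂ × ℝ) : lam X + (1 / 2 : ℝ) • (lam x * lam X + lam X * lam x)
    = G x * Om x X := by
  rw [G_eq, Om_eq, lam_apply, lam_apply, I_th, mk9_mul, mk9_mul, mk9_add, mk9_rsmul, mk9_add,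
    mk9_mul]
  apply mk9_congr <;> push_cast <;> ring

lemma dGi_eq (x X : ℂ × ℝ) : -lam X + (1 / 2 : ℝ) • (lam x * lam X + lam X * lam x)
    = -(Om x X * Gi x) := by
  rw [Gi_eq, Om_eq, lam_apply, lam_apply, I_th, mk9_mul, mk9_mul, mk9_add, mk9_rsmul, mk9_neg,
    mk9_add, mk9_mul, mk9_neg]
  apply mk9_congr <;> push_cast <;> ring

lemma lamsq_hasFDerivAt (x : ℂ × ℝ) : ∃ D : (ℂ × ℝ) →L[ℝ] Mat 1,
    HasFDerivAt (fun y => lam y * lam y) D x ∧ ∀ X, D X = lam x * lam X + lam X * lam x :=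
  ⟨_, (mulL 1).hasFDerivAt_of_bilinear (lam.hasFDerivAt (x := x)) (lam.hasFDerivAt (x := x)),
    fun _ => rfl⟩

lemma G_hasFDerivAt (x : ℂ × ℝ) : ∃ D : (ℂ × ℝ) →L[ℝ] Mat 1,
    HasFDerivAt G D x ∧ ∀ X, D X = G x * Om x X := by
  obtain ⟨D, hD, h⟩ := lamsq_hasFDerivAt x
  refine ⟨lam + (1 / 2 : ℝ) • D, ?_, ?_⟩
  · have h1 : HasFDerivAt (fun y => (1 + lam y) + (1 / 2 : ℝ) • (lam y * lam y))
      (lam + (1 / 2 : ℝ) • D) x :=
      ((lam.hasFDerivAt (x := x)).const_add 1).add (hD.const_smul (1 / 2 : ℝ))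
    exact h1
  · intro X
    rw [← dG_eq]
    simp [h]

lemma Gi_hasFDerivAt (x : ℂ × ℝ) : ∃ D : (ℂ × ℝ) →L[ℝ] Mat 1,
    HasFDerivAt Gi D x ∧ ∀ X, D X = -(Om x X * Gi x) := by
  obtain ⟨D, hD, h⟩ := lamsq_hasFDerivAt x
  refine ⟨-lam + (1 / 2 : ℝ) • D, ?_, ?_⟩
  · have h1 : HasFDerivAt (fun y => (1 - lam y) + (1 / 2 : ℝ) • (lam y * lam y))
      (-lam + (1 / 2 : ℝ) • D) x :=
      ((lam.hasFDerivAt (x := x)).const_sub 1).add (hD.const_smul (1 / 2 : ℝ))
    exact h1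
  · intro X
    rw [← dGi_eq]
    simp [h]

/-- the conjugate `g C g⁻¹` of a constant matrix -/
noncomputable def cj (C : Mat 1) (x : ℂ × ℝ) : Mat 1 := G x * C * Gi x

lemma cj_hasFDerivAt (C : Mat 1) (x : ℂ × ℝ) : ∃ D : (ℂ × ℝ) →L[ℝ] Mat 1,
    HasFDerivAt (cj C) D x ∧ ∀ X, D X = cj (Om x X * C - C * Om x X) x := by
  obtain ⟨D1, h1, e1⟩ := G_hasFDerivAt x
  obtain ⟨D2, h2, e2⟩ := Gi_hasFDerivAt x
  have h3 : HasFDerivAt (fun y => G y * C) (((mulL 1).flip C).comp D1) x :=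
    ((mulL 1).flip C).hasFDerivAt.comp x h1
  have h4 := (mulL 1).hasFDerivAt_of_bilinear h3 h2
  refine ⟨_, h4, ?_⟩
  intro X
  have e3 : ((ContinuousLinearMap.precompR (ℂ × ℝ) (mulL 1)) (G x * C) D2 +
        (ContinuousLinearMap.precompL (ℂ × ℝ) (mulL 1)) (((mulL 1).flip C).comp D1) (Gi x)) X
      = G x * C * D2 X + D1 X * C * Gi x := rfl
  refine e3.trans ?_
  rw [e1, e2]
  unfold cj
  simp only [Matrix.mul_sub, Matrix.sub_mul, Matrix.mul_neg, Matrix.mul_assoc]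
  abel

lemma cj_fderiv (C : Mat 1) (x X : ℂ × ℝ) :
    fderiv ℝ (cj C) x X = cj (Om x X * C - C * Om x X) x := by
  obtain ⟨D, h, e⟩ := cj_hasFDerivAt C x
  rw [h.fderiv, e]

lemma contDiff_matMul {a b : ℂ × ℝ → Mat 1} (ha : ContDiff ℝ ∞ a) (hb : ContDiff ℝ ∞ b) :
    ContDiff ℝ ∞ (fun y => a y * b y) :=
  (mulL 1).isBoundedBilinearMap.contDiff.comp (ha.prodMk hb)

lemma cj_smooth (C : Mat 1) : ContDiff ℝ ∞ (cj C) := by
  have hl : ContDiff ℝ ∞ (fun y : ℂ × ℝ => lam y) := lam.contDiff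
  have hll : ContDiff ℝ ∞ (fun y : ℂ × ℝ => lam y * lam y) := contDiff_matMul hl hl
  have hG : ContDiff ℝ ∞ G := (contDiff_const.add hl).add (hll.const_smul (1 / 2 : ℝ))
  have hGi : ContDiff ℝ ∞ Gi := (contDiff_const.sub hl).add (hll.const_smul (1 / 2 : ℝ))
  exact contDiff_matMul (contDiff_matMul hG contDiff_const) hGi

lemma cj_mul (C D : Mat 1) (x : ℂ × ℝ) : cj C x * cj D x = cj (C * D) x := by
  unfold cj
  calc G x * C * Gi x * (G x * D * Gi x) = G x * C * (Gi x * G x) * D * Gi x := by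
        simp only [Matrix.mul_assoc]
    _ = _ := by rw [Gi_mul_G]; simp only [Matrix.mul_assoc, Matrix.one_mul]

lemma cj_add (C D : Mat 1) (x : ℂ × ℝ) : cj (C + D) x = cj C x + cj D x := by
  unfold cj; rw [Matrix.mul_add, Matrix.add_mul]

lemma cj_sub (C D : Mat 1) (x : ℂ × ℝ) : cj (C - D) x = cj C x - cj D x := by
  unfold cj; rw [Matrix.mul_sub, Matrix.sub_mul]

lemma cj_neg (C : Mat 1) (x : ℂ × ℝ) : cj (-C) x = -cj C x := by
  unfold cj; rw [Matrix.mul_neg, Matrix.neg_mul]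

lemma cj_smul (r : ℂ) (C : Mat 1) (x : ℂ × ℝ) : cj (r • C) x = r • cj C x := by
  unfold cj; rw [Matrix.mul_smul, Matrix.smul_mul]

lemma cj_trace (C : Mat 1) (x : ℂ × ℝ) : (cj C x).trace = C.trace := by
  unfold cj
  rw [Matrix.trace_mul_comm, ← Matrix.mul_assoc, Gi_mul_G, Matrix.one_mul]

lemma cj_adj {C : Mat 1} {D : Mat 1} (h : Cᴴ * formI 1 (-1) = formI 1 (-1) * D) (x : ℂ × ℝ) :
    (cj C x)ᴴ * formI 1 (-1) = formI 1 (-1) * cj D x := by
  unfold cj
  rw [Matrix.conjTranspose_mul, Matrix.conjTranspose_mul, Matrix.mul_assoc, Matrix.mul_assoc,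
    G_adj, ← Matrix.mul_assoc Cᴴ, h, Matrix.mul_assoc, ← Matrix.mul_assoc, Gi_adj]
  simp only [Matrix.mul_assoc]

lemma cj_inv (C : Mat 1) (x : ℂ × ℝ) : cj (Gi x * C * G x) x = C := by
  unfold cj
  calc G x * (Gi x * C * G x) * Gi x = (G x * Gi x) * C * (G x * Gi x) := by
        simp only [Matrix.mul_assoc]
    _ = C := by rw [G_mul_Gi, Matrix.one_mul, Matrix.mul_one]

lemma cj_inj {C D : Mat 1} {x : ℂ × ℝ} (h : cj C x = cj D x) : C = D := by
  have h1 : Gi x * cj C x * G x = Gi x * cj D x * G x := by rw [h]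
  have h2 : ∀ C : Mat 1, Gi x * cj C x * G x = C := by
    intro C
    unfold cj
    calc Gi x * (G x * C * Gi x) * G x = (Gi x * G x) * C * (Gi x * G x) := by
          simp only [Matrix.mul_assoc]
      _ = C := by rw [Gi_mul_G, Matrix.one_mul, Matrix.mul_one]
  rwa [h2, h2] at h1

lemma cj_met (C D : Mat 1) (x : ℂ × ℝ) (s : ℝ) : met s (cj C x) (cj D x) = met s C D := by
  unfold met; rw [cj_mul, cj_trace]

/-- base point -/
def P0 : Mat 1 := mk9 1 0 0 0 1 0 0 0 0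

/-- normal vector at the base point -/
def N0 : Mat 1 := mk9 0 0 1 0 0 0 (-1) 0 0

/-- the differential of the immersion in the moving frame -/
noncomputable def Mx (x X : ℂ × ℝ) : Mat 1 :=
  mk9 0 0 (-(Complex.I * th x X)) 0 0 (-X.1) (-(Complex.I * th x X)) ((starRingEnd ℂ) X.1) 0

lemma df_eq (x X : ℂ × ℝ) : fderiv ℝ (cj P0) x X = cj (Mx x X) x := by
  rw [cj_fderiv]
  congr 1
  rw [Om_eq, P0, Mx, mk9_mul, mk9_mul, mk9_sub]
  apply mk9_congr <;> ring

lemma dN_eq (x X : ℂ × ℝ) : fderiv ℝ (cj N0) x X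
    = cj (mk9 0 (-(starRingEnd ℂ) X.1) (-(2 * (Complex.I * th x X)))
      (-X.1) 0 (-X.1) (-(2 * (Complex.I * th x X))) ((starRingEnd ℂ) X.1) 0) x := by
  rw [cj_fderiv]
  congr 1
  rw [Om_eq, N0, mk9_mul, mk9_mul, mk9_sub]
  apply mk9_congr <;> ring

lemma g_eq (x X Y : ℂ × ℝ) : indMet (-1) (cj P0) x X Y
    = th x X * th x Y + ((starRingEnd ℂ) X.1 * Y.1).re := by
  unfold indMet
  rw [df_eq, df_eq, cj_met, Mx, Mx]
  unfold met
  rw [mk9_mul, mk9_trace]
  simp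
  ring

lemma h_eq (x X Y : ℂ × ℝ) : met (-1) (fderiv ℝ (cj N0) x X) (fderiv ℝ (cj P0) x Y)
    = 2 * (th x X * th x Y) + ((starRingEnd ℂ) X.1 * Y.1).re := by
  rw [df_eq, dN_eq, cj_met, Mx]
  unfold met
  rw [mk9_mul, mk9_trace]
  simp
  ring

lemma P0_adj : P0ᴴ * formI 1 (-1) = formI 1 (-1) * P0 := by
  rw [P0, mk9_form, mk9_conj, mk9_mul, mk9_mul]
  apply mk9_congr <;> simp

lemma N0_adj : N0ᴴ * formI 1 (-1) = formI 1 (-1) * N0 := by
  rw [N0, mk9_form, mk9_conj, mk9_mul, mk9_mul]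
  apply mk9_congr <;> simp

lemma form_transport (x : ℂ × ℝ) (v : Fin 2 ⊕ Fin 1 → ℂ) :
    (star v ⬝ᵥ (formI 1 (-1) *ᵥ v))
      = -star ((Gi x *ᵥ v) (Sum.inl 0)) * (Gi x *ᵥ v) (Sum.inl 0)
        - star ((Gi x *ᵥ v) (Sum.inl 1)) * (Gi x *ᵥ v) (Sum.inl 1)
        + star ((Gi x *ᵥ v) (Sum.inr 0)) * (Gi x *ᵥ v) (Sum.inr 0) := by
  have h1 : v = G x *ᵥ (Gi x *ᵥ v) := by
    rw [Matrix.mulVec_mulVec, G_mul_Gi, Matrix.one_mulVec]
  have h2 : star v ⬝ᵥ (formI 1 (-1) *ᵥ v)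
      = star (Gi x *ᵥ v) ⬝ᵥ (formI 1 (-1) *ᵥ (Gi x *ᵥ v)) := by
    conv_lhs => rw [h1]
    rw [Matrix.star_mulVec, ← Matrix.dotProduct_mulVec, Matrix.mulVec_mulVec, Matrix.mulVec_mulVec,
      G_adj, Matrix.mul_assoc, Gi_mul_G, Matrix.mul_one]
  rw [h2]
  generalize Gi x *ᵥ v = y
  simp [dotProduct, Matrix.mulVec, formI, Fintype.sum_sum_type, Fin.sum_univ_two,
    Matrix.diagonal_apply]
  ring

lemma f_mem (x : ℂ × ℝ) : IsGr (-1) (cj P0 x) where
  idem := by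
    rw [cj_mul]
    congr 1
    rw [P0, mk9_mul]; apply mk9_congr <;> ring
  adj := cj_adj P0_adj x
  tr := by
    rw [cj_trace, P0, mk9_trace]; norm_num
  pos_range := by
    intro v hv hv0
    rw [form_transport x v]
    have h1 : P0 *ᵥ (Gi x *ᵥ v) = Gi x *ᵥ v := by
      have := congrArg (fun w => Gi x *ᵥ w) hv
      simp only [cj, Matrix.mulVec_mulVec] at this ⊢
      rw [← this]
      congr 1
      rw [← Matrix.mul_assoc, ← Matrix.mul_assoc, Gi_mul_G, Matrix.one_mul]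
    have h2 : Gi x *ᵥ v ≠ 0 := by
      intro h
      apply hv0
      have h3 : v = G x *ᵥ (Gi x *ᵥ v) := by
        rw [Matrix.mulVec_mulVec, G_mul_Gi, Matrix.one_mulVec]
      rw [h3, h, Matrix.mulVec_zero]
    generalize Gi x *ᵥ v = y at h1 h2
    have h4 : y (Sum.inr 0) = 0 := by
      rw [← h1]
      simp [P0, mk9, Matrix.mulVec, dotProduct, Fintype.sum_sum_type, Fin.sum_univ_two]
    have h5 : y (Sum.inl 0) ≠ 0 ∨ y (Sum.inl 1) ≠ 0 := by
      by_contra hcon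
      push Not at hcon
      apply h2
      funext i
      rcases i with i | i
      · fin_cases i
        · exact hcon.1
        · exact hcon.2
      · fin_cases i
        exact h4
    rw [h4]
    have h6 : ∀ a : ℂ, (star a * a).re = Complex.normSq a := by
      intro a
      simp [Complex.normSq_apply]
    have h7 : (-star (y (Sum.inl 0)) * y (Sum.inl 0) - star (y (Sum.inl 1)) * y (Sum.inl 1)
        + star (0 : ℂ) * 0).re = -(Complex.normSq (y (Sum.inl 0)) + Complex.normSq (y (Sum.inl 1))) := by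
      rw [neg_mul, Complex.add_re, Complex.sub_re, Complex.neg_re, h6, h6]
      simp; ring
    rw [h7]
    rcases h5 with h | h
    · have := Complex.normSq_pos.2 h
      have := Complex.normSq_nonneg (y (Sum.inl 1))
      linarith
    · have := Complex.normSq_pos.2 h
      have := Complex.normSq_nonneg (y (Sum.inl 0))
      linarith
  pos_ker := by
    intro v hv hv0
    rw [form_transport x v]
    have h1 : P0 *ᵥ (Gi x *ᵥ v) = 0 := by
      have := congrArg (fun w => Gi x *ᵥ w) hv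
      simp only [cj, Matrix.mulVec_mulVec, Matrix.mulVec_zero] at this ⊢
      rw [← this]
      congr 1
      rw [← Matrix.mul_assoc, ← Matrix.mul_assoc, Gi_mul_G, Matrix.one_mul]
    have h2 : Gi x *ᵥ v ≠ 0 := by
      intro h
      apply hv0
      have h3 : v = G x *ᵥ (Gi x *ᵥ v) := by
        rw [Matrix.mulVec_mulVec, G_mul_Gi, Matrix.one_mulVec]
      rw [h3, h, Matrix.mulVec_zero]
    generalize Gi x *ᵥ v = y at h1 h2
    have h4 : y (Sum.inl 0) = 0 := by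
      have := congrFun h1 (Sum.inl 0)
      simpa [P0, mk9, Matrix.mulVec, dotProduct, Fintype.sum_sum_type, Fin.sum_univ_two] using this
    have h5 : y (Sum.inl 1) = 0 := by
      have := congrFun h1 (Sum.inl 1)
      simpa [P0, mk9, Matrix.mulVec, dotProduct, Fintype.sum_sum_type, Fin.sum_univ_two] using this
    have h6 : y (Sum.inr 0) ≠ 0 := by
      intro h
      apply h2
      funext i
      rcases i with i | i
      · fin_cases i
        · exact h4
        · exact h5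
      · fin_cases i
        exact h
    rw [h4, h5]
    have h7 : (star (y (Sum.inr 0)) * y (Sum.inr 0)).re = Complex.normSq (y (Sum.inr 0)) := by
      simp [Complex.normSq_apply]
    have h8 := Complex.normSq_pos.2 h6
    simp only [star_zero, neg_zero, mul_zero, sub_zero, zero_add]
    rw [h7]; exact h8

lemma f_hyp : IsHypersurface (-1) (Set.univ : Set (ℂ × ℝ)) (cj P0) (cj N0) where
  isOpen := isOpen_univ
  nonempty := Set.univ_nonempty
  smooth := (cj_smooth P0).contDiffOn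
  smoothN := (cj_smooth N0).contDiffOn
  mem := fun x _ => f_mem x
  immersion := by
    intro x _ X Y h
    rw [df_eq, df_eq] at h
    have h1 := cj_inj h
    have h2 := congrFun (congrFun h1 (Sum.inl 1)) (Sum.inr 0)
    have h3 := congrFun (congrFun h1 (Sum.inl 0)) (Sum.inr 0)
    simp only [Mx, mk9, Matrix.of_apply, neg_inj] at h2 h3
    have h4 : th x X = th x Y := by
      have := mul_left_cancel₀ Complex.I_ne_zero h3
      exact_mod_cast this
    unfold th at h4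
    rw [h2] at h4
    exact Prod.ext h2 (by linarith)
  tanN := by
    intro x _
    refine ⟨?_, cj_adj N0_adj x⟩
    rw [cj_mul, cj_mul, ← cj_add]
    congr 1
    rw [P0, N0, mk9_mul, mk9_mul, mk9_add]
    apply mk9_congr <;> ring
  unitN := by
    intro x _
    rw [cj_met, N0]
    unfold met
    rw [mk9_mul, mk9_trace]
    norm_num
  normal := by
    intro x _ v
    rw [df_eq, cj_met, N0, Mx]
    unfold met
    rw [mk9_mul, mk9_trace]
    simp
  codim := by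
    intro x _ Y hY hN
    set Z := Gi x * Y * G x with hZ
    have hYZ : cj Z x = Y := cj_inv Y x
    have h1 : Z * P0 + P0 * Z = Z := by
      apply cj_inj (x := x)
      rw [cj_add, ← cj_mul Z P0, ← cj_mul P0 Z, hYZ]
      exact hY.off
    have h2 : Zᴴ * formI 1 (-1) = formI 1 (-1) * Z := by
      rw [hZ, Matrix.conjTranspose_mul, Matrix.conjTranspose_mul, Matrix.mul_assoc,
        Matrix.mul_assoc, Gi_adj, ← Matrix.mul_assoc Yᴴ, hY.adj, Matrix.mul_assoc,
        ← Matrix.mul_assoc, G_adj]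
      simp only [Matrix.mul_assoc]
    have h3 : met (-1) N0 Z = 0 := by
      rw [← cj_met N0 Z x, hYZ]; exact hN
    rw [← hYZ]
    rw [mk9_eta Z] at h1 h2 h3 ⊢
    generalize Z (Sum.inl 0) (Sum.inl 0) = a at h1 h2 h3 ⊢
    generalize Z (Sum.inl 0) (Sum.inl 1) = b at h1 h2 h3 ⊢
    generalize Z (Sum.inl 0) (Sum.inr 0) = c at h1 h2 h3 ⊢
    generalize Z (Sum.inl 1) (Sum.inl 0) = d at h1 h2 h3 ⊢
    generalize Z (Sum.inl 1) (Sum.inl 1) = e at h1 h2 h3 ⊢
    generalize Z (Sum.inl 1) (Sum.inr 0) = f at h1 h2 h3 ⊢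
    generalize Z (Sum.inr 0) (Sum.inl 0) = g at h1 h2 h3 ⊢
    generalize Z (Sum.inr 0) (Sum.inl 1) = h at h1 h2 h3 ⊢
    generalize Z (Sum.inr 0) (Sum.inr 0) = k at h1 h2 h3 ⊢
    rw [P0, mk9_mul, mk9_mul, mk9_add] at h1
    rw [mk9_form, mk9_conj, mk9_mul, mk9_mul] at h2
    have e00 := congrFun (congrFun h1 (Sum.inl 0)) (Sum.inl 0)
    have e01 := congrFun (congrFun h1 (Sum.inl 0)) (Sum.inl 1)
    have e10 := congrFun (congrFun h1 (Sum.inl 1)) (Sum.inl 0)
    have e11 := congrFun (congrFun h1 (Sum.inl 1)) (Sum.inl 1)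
    have e22 := congrFun (congrFun h1 (Sum.inr 0)) (Sum.inr 0)
    have c20 := congrFun (congrFun h2 (Sum.inr 0)) (Sum.inl 0)
    have c21 := congrFun (congrFun h2 (Sum.inr 0)) (Sum.inl 1)
    simp [mk9] at e00 e01 e10 e11 e22 c20 c21
    unfold met at h3
    rw [N0, mk9_mul, mk9_trace] at h3
    simp at h3
    have hc : c.re = 0 := by
      have := congrArg Complex.re c20
      simp at this
      linarith
    refine ⟨(-f, -c.im + ((starRingEnd ℂ) x.1 * (-f)).im), ?_⟩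
    rw [df_eq]
    congr 1
    have ht : Complex.I * (th x (-f, -c.im + ((starRingEnd ℂ) x.1 * (-f)).im) : ℂ) = -c := by
      unfold th
      apply Complex.ext
      · simp [hc]
      · simp
    rw [Mx, ht]
    apply mk9_congr
    · exact e00.symm
    · exact e01.symm
    · ring
    · exact e10.symm
    · exact e11.symm
    · simp
    · rw [← c20]; apply Complex.ext <;> simp [hc]
    · rw [← c21]; simp
    · exact e22

/-- quaternionic frame at the base point -/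
noncomputable def Q0 : Fin 3 → Mat 1
  | 0 => mk9 Complex.I 0 0 0 (-Complex.I) 0 0 0 0
  | 1 => mk9 0 (-1) 0 1 0 0 0 0 0
  | 2 => mk9 0 Complex.I 0 Complex.I 0 0 0 0 0

/-- the quaternionic frame along the horosphere -/
noncomputable def JJ (i : Fin 3) (x : ℂ × ℝ) (X : Mat 1) : Mat 1 :=
  X * cj (Q0 i) x - cj (Q0 i) x * X

end Horo

lemma frame_of_Q {m : ℕ} {s : ℝ} {P : Mat m} (hP : IsGr s P) {Q : Fin 3 → Mat m}
    (hQ : ∀ i, IsSu s P (Q i)) (hsq : ∀ i, Q i * Q i = -P)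
    (h1 : ∀ i, Q (i + 1) * Q i = Q (i + 2)) (h2 : ∀ i, Q i * Q (i + 1) = -Q (i + 2)) :
    IsQFrame s P (fun i X => X * Q i - Q i * X) := by
  have key : ∀ i j X, IsTan s P X → (X * Q j - Q j * X) * Q i - Q i * (X * Q j - Q j * X)
      = X * (Q j * Q i) + Q i * Q j * X := by
    intro i j X hX
    have hz : ∀ i j, Q i * X * Q j = 0 := by
      intro i j
      have h3 : Q i * X * Q j = Q i * (P * X * P) * Q j := by
        calc Q i * X * Q j = (Q i * P) * X * (P * Q j) := by rw [(hQ i).right, (hQ j).left]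
          _ = _ := by simp only [Matrix.mul_assoc]
      rw [h3, hX.PXP hP, Matrix.mul_zero, Matrix.zero_mul]
    rw [Matrix.sub_mul, Matrix.mul_sub, ← Matrix.mul_assoc (Q i) X, hz i j, hz j i,
      Matrix.mul_assoc, Matrix.mul_assoc]
    abel
  refine ⟨fun i => ⟨Q i, hQ i, fun X _ => rfl⟩, ?_, ?_⟩
  · intro i X hX
    change (X * Q i - Q i * X) * Q i - Q i * (X * Q i - Q i * X) = -X
    rw [key i i X hX, hsq, Matrix.mul_neg, Matrix.neg_mul, ← neg_add, hX.off]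
  · intro i X hX
    change (X * Q (i + 1) - Q (i + 1) * X) * Q i - Q i * (X * Q (i + 1) - Q (i + 1) * X)
      = X * Q (i + 2) - Q (i + 2) * X
    rw [key i (i + 1) X hX, h1, h2, Matrix.neg_mul]
    abel

namespace Horo

lemma frame (x : ℂ × ℝ) : IsQFrame (-1) (cj P0 x) (fun i => JJ i x) := by
  apply frame_of_Q (f_mem x) (Q := fun i => cj (Q0 i) x)
  · intro i
    refine ⟨?_, ?_, ?_, ?_⟩
    · rw [cj_mul]; congr 1
      fin_cases i <;> simp only [Q0, P0, mk9_mul] <;> apply mk9_congr <;> simp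
    · rw [cj_mul]; congr 1
      fin_cases i <;> simp only [Q0, P0, mk9_mul] <;> apply mk9_congr <;> simp
    · have : (Q0 i)ᴴ * formI 1 (-1) = formI 1 (-1) * (-(Q0 i)) := by
        fin_cases i <;> simp only [Q0, mk9_form, mk9_conj, mk9_neg, mk9_mul] <;>
          apply mk9_congr <;> simp
      rw [cj_adj this, cj_neg, Matrix.mul_neg]
    · rw [cj_trace]
      fin_cases i <;> simp only [Q0, mk9_trace] <;> simp
  · intro i
    rw [cj_mul, ← cj_neg]; congr 1
    fin_cases i <;> simp only [Q0, P0, mk9_mul, mk9_neg] <;> apply mk9_congr <;> simp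
  · intro i
    rw [cj_mul]; congr 1
    fin_cases i <;> simp [Q0, mk9_mul] 
  · intro i
    rw [cj_mul, ← cj_neg]; congr 1
    fin_cases i <;> simp [Q0, mk9_mul, mk9_neg]

end Horo

end Pool.Agent.X181
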